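import Pool.Agent.H60.IP.Cmp

/-!
# Chains of stages of a trajectory
-/

set_option autoImplicit false

namespace Pool.Agent.H60.IP

open Pool.Agent.H320R2.PD Pool.Agent.H499R2.ND Pool.Agent.H46.CO Finset

/-- from `M` the stages of `k` letters of sizes `p` lead to `x` -/
def Ch (k : ℕ) : List ℕ → ℤ → ℤ → Prop
  | [], M, x => x = M
  | T :: p, M, x => ∃ (w : List ℕ) (y : ℤ), w.length = k ∧ (∀ a ∈ w, 1 ≤ a) ∧ w.sum = T ∧ Odd y ∧ Vw 1 w M y ∧ Ch k p y x

lemma Ch_odd {k : ℕ} : ∀ {p : List ℕ} {M x : ℤ}, Odd M → Ch k p M x → Odd x := by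
  intro p
  induction p with
  | nil =>
    intro M x hM h
    unfold Ch at h
    rw [h]
    exact hM
  | cons T p ih =>
    rintro M x _ ⟨w, y, _, _, _, hy, _, h⟩
    exact ih hy h

lemma Ch_iter {k : ℕ} : ∀ {p : List ℕ} {M x : ℤ}, Odd M → Ch k p M x →
    (Td 1)^[p.sum] M = x ∧ dv p.sum M = 2 * k * p.length - p.sum := by
  intro p
  induction p with
  | nil =>
    intro M x hM h
    unfold Ch at h
    rw [h]
    simp [dv_zero]
  | cons T p ih =>
    rintro M x hM ⟨w, y, hl, hw, hs, hy, hV, h⟩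
    obtain ⟨h1, h2⟩ := ih hy h
    have hit := iter_word odd_one w hw M y hM hy hV
    have hd := dv_word hw M y hM hy hV
    rw [hs] at hit hd
    rw [hl] at hd
    rw [List.sum_cons]
    constructor
    · rw [add_comm, Function.iterate_add_apply, hit, h1]
    · rw [dv_add, hit, hd, h2, List.length_cons, Nat.cast_add, Nat.cast_add, Nat.cast_one]
      ring

lemma Vw_end_unique {w : List ℕ} {M x x' : ℤ} (h : Vw 1 w M x) (h' : Vw 1 w M x') : x = x' := by
  unfold Vw at h h'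
  rw [h] at h'
  exact mul_left_cancel₀ (by positivity : (2 : ℤ) ^ w.sum ≠ 0) h'

lemma Ch_unique {k : ℕ} : ∀ {p p' : List ℕ} {M x x' : ℤ}, Ch k p M x → Ch k p' M x' → p.length = p'.length →
    p = p' ∧ x = x' := by
  intro p
  induction p with
  | nil =>
    intro p' M x x' h h' hl
    have : p' = [] := List.length_eq_zero_iff.1 hl.symm
    subst this
    unfold Ch at h h'
    exact ⟨rfl, by rw [h, h']⟩
  | cons T p ih =>
    intro p' M x x' h h' hl
    rcases p' with _ | ⟨T', p'⟩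
    · simp at hl
    obtain ⟨w, y, hwl, hw, hs, hy, hV, h⟩ := h
    obtain ⟨w', y', hwl', hw', hs', hy', hV', h'⟩ := h'
    have e1 := word_unique odd_one w hw w' hw' (by rw [hwl, hwl']) M y y' hy hy' hV hV'
    subst e1
    have e2 := Vw_end_unique hV hV'
    subst e2
    obtain ⟨e3, e4⟩ := ih h h' (by simpa using hl)
    exact ⟨by rw [← hs, ← hs', e3], e4⟩

lemma Ch_append {k : ℕ} : ∀ {p q : List ℕ} {M x : ℤ}, Ch k (p ++ q) M x ↔ ∃ y, Ch k p M y ∧ Ch k q y x := by
  intro p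
  induction p with
  | nil =>
    intro q M x
    constructor
    · intro h
      exact ⟨M, rfl, h⟩
    · rintro ⟨y, h1, h2⟩
      unfold Ch at h1
      rw [h1] at h2
      exact h2
  | cons T p ih =>
    intro q M x
    constructor
    · rintro ⟨w, y, hwl, hw, hs, hy, hV, h⟩
      obtain ⟨z, h1, h2⟩ := ih.1 h
      exact ⟨z, ⟨w, y, hwl, hw, hs, hy, hV, h1⟩, h2⟩
    · rintro ⟨z, ⟨w, y, hwl, hw, hs, hy, hV, h1⟩, h2⟩
      exact ⟨w, y, hwl, hw, hs, hy, hV, ih.2 ⟨z, h1, h2⟩⟩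

lemma Ch_size {k : ℕ} : ∀ {p : List ℕ} {M x : ℤ}, Ch k p M x → (3 : ℤ) ^ (k * p.length) * M ≤ 2 ^ p.sum * x := by
  intro p
  induction p with
  | nil =>
    intro M x h
    unfold Ch at h
    rw [h]
    simp
  | cons T p ih =>
    rintro M x ⟨w, y, hl, hw, hs, hy, hV, h⟩
    have h1 := ih h
    unfold Vw at hV
    rw [hl, hs] at hV
    rw [List.length_cons, List.sum_cons, mul_add, mul_one, pow_add, pow_add]
    have h2 : (3 : ℤ) ^ k * M ≤ 2 ^ T * y := by
      have : (0 : ℤ) ≤ 1 * (Wo w : ℤ) := by positivity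
      linarith
    calc (3 : ℤ) ^ (k * p.length) * 3 ^ k * M = 3 ^ (k * p.length) * (3 ^ k * M) := by ring
      _ ≤ 3 ^ (k * p.length) * (2 ^ T * y) := mul_le_mul_of_nonneg_left h2 (by positivity)
      _ = 2 ^ T * (3 ^ (k * p.length) * y) := by ring
      _ ≤ 2 ^ T * (2 ^ p.sum * x) := mul_le_mul_of_nonneg_left h1 (by positivity)
      _ = _ := by ring

/-- criterion for membership -/
lemma mem_SS {G : Set ℤ} {T : Set (List ℕ)} {k : ℕ} : ∀ {r : ℕ} {q : List ℕ} {M : ℤ},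
    (∀ (p : List ℕ) (x : ℤ), p.length = r → Ch k p M x → q ++ p ∈ T ∧ x ∈ G) → M ∈ SS G T k r q := by
  intro r
  induction r with
  | zero =>
    intro q M h
    have h1 := h [] M rfl rfl
    rw [List.append_nil] at h1
    exact h1
  | succ r ih =>
    intro q M h w y hl hw hy hV
    apply ih
    intro p x hp hc
    have h1 := h (w.sum :: p) x (by rw [List.length_cons, hp]) ⟨w, y, hl, hw, rfl, hy, hV, hc⟩
    rw [List.append_assoc, List.singleton_append]
    exact h1

/-- the first letter -/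
lemma letter (M : ℤ) (hM : Odd M) (hM0 : 0 < M) : ∃ (e : ℕ) (y : ℤ), 1 ≤ e ∧ Odd y ∧ 0 < y ∧ 3 * M + 1 = 2 ^ e * y := by
  obtain ⟨n, hn⟩ : ∃ n : ℕ, 3 * M + 1 = (n : ℤ) := ⟨(3 * M + 1).toNat, (Int.toNat_of_nonneg (by omega)).symm⟩
  obtain ⟨e, y', hy', h'⟩ := Nat.exists_eq_two_pow_mul_odd (n := n) (by omega)
  obtain ⟨y, hyy⟩ : ∃ y : ℤ, y = (y' : ℤ) := ⟨_, rfl⟩
  have hy : Odd y := by rw [hyy]; exact_mod_cast hy'
  have h : 3 * M + 1 = 2 ^ e * y := by rw [hn, h', hyy]; push_cast; ring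
  have he : 1 ≤ e := by
    by_contra hcon
    have : e = 0 := by omega
    rw [this, pow_zero, one_mul] at h
    rw [← h] at hy
    obtain ⟨a, ha⟩ := hM
    obtain ⟨b, hb⟩ := hy
    omega
  refine ⟨e, y, he, hy, ?_, h⟩
  by_contra hcon
  push Not at hcon
  have : (2 : ℤ) ^ e * y ≤ 0 := mul_nonpos_of_nonneg_of_nonpos (by positivity) hcon
  omega

lemma Vw_snoc' {u : List ℕ} {e : ℕ} {M M₁ x : ℤ} (h : 3 * M + 1 = 2 ^ e * M₁) (hV : Vw 1 u M₁ x) : Vw 1 (u ++ [e]) M x := by
  unfold Vw at hV ⊢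
  rw [Wo_snoc', List.length_append, List.sum_append, List.length_singleton, List.sum_singleton, pow_succ, pow_add]
  linear_combination (2 : ℤ) ^ e * hV + 3 ^ u.length * h

lemma word_exists (k : ℕ) : ∀ M : ℤ, Odd M → 0 < M → ∃ (w : List ℕ) (y : ℤ), w.length = k ∧ (∀ a ∈ w, 1 ≤ a) ∧ Odd y ∧
    0 < y ∧ Vw 1 w M y := by
  induction k with
  | zero =>
    intro M hM hM0
    exact ⟨[], M, rfl, by simp, hM, hM0, by unfold Vw; simp [Wo]⟩
  | succ k ih =>
    intro M hM hM0
    obtain ⟨e, M₁, he, hM₁, hM₁0, h⟩ := letter M hM hM0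
    obtain ⟨w, y, hl, hw, hy, hy0, hV⟩ := ih M₁ hM₁ hM₁0
    refine ⟨w ++ [e], y, by simp [hl], ?_, hy, hy0, Vw_snoc' h hV⟩
    intro a ha
    rw [List.mem_append, List.mem_singleton] at ha
    rcases ha with ha | rfl
    · exact hw a ha
    · exact he

lemma Ch_exists (k : ℕ) : ∀ (r : ℕ) (M : ℤ), Odd M → 0 < M → ∃ (p : List ℕ) (x : ℤ), p.length = r ∧ Ch k p M x ∧ 0 < x := by
  intro r
  induction r with
  | zero =>
    intro M _ hM0
    exact ⟨[], M, rfl, rfl, hM0⟩
  | succ r ih =>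
    intro M hM hM0
    obtain ⟨w, y, hl, hw, hy, hy0, hV⟩ := word_exists k M hM hM0
    obtain ⟨p, x, hp, hc, hx⟩ := ih y hy hy0
    exact ⟨w.sum :: p, x, by simp [hp], ⟨w, y, hl, hw, rfl, hy, hV, hc⟩, hx⟩

/-- if an integer is in none of the sets of bad integers, no chain of length `i` leads to `B` -/
lemma not_mem_bad {B : Set ℤ} {k i : ℕ} {M : ℤ} (hbad : M ∉ SS B Set.univ k i []) :
    ∀ (p : List ℕ) (x : ℤ), p.length = i → Ch k p M x → x ∉ B := by
  intro p x hp hc hx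
  apply hbad
  apply mem_SS
  intro p' x' hp' hc'
  obtain ⟨_, e⟩ := Ch_unique hc hc' (by rw [hp, hp'])
  exact ⟨Set.mem_univ _, by rw [← e]; exact hx⟩

/-! ### the walk inside a stage -/

lemma dv_step (j : ℕ) (M : ℤ) : dv j M ≤ dv (j + 1) M + 1 ∧ dv (j + 1) M ≤ dv j M + 1 := by
  rw [dv_add, dv_one]
  split_ifs <;> constructor <;> linarith

lemma dv_mono (i j : ℕ) (M : ℤ) : dv i M + i ≤ dv (i + j) M + (i + j : ℕ) := by
  induction j with
  | zero => simp
  | succ j ih =>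
    have h1 := (dv_step (i + j) M).1
    rw [← add_assoc]
    push_cast at ih ⊢
    linarith

/-- outside the bad set the sizes are central -/
lemma size_of_notOut {k J' : ℕ} {a : ℝ} (ha : a ≤ k / 20 - 1) (hJ' : J' = 41 * k / 20) {w : List ℕ} {M y : ℤ} (hM : Odd M)
    (hl : w.length = k) (hw : ∀ a ∈ w, 1 ≤ a) (hy : Odd y) (hV : Vw 1 w M y) (hO : M ∉ Out J' a) :
    w.sum ≤ J' ∧ |(w.sum : ℝ) - 2 * k| ≤ a := by
  have hd := dv_word hw M y hM hy hV
  rw [hl] at hd
  have hNO : ∀ j ≤ J', |dv j M| < a := by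
    intro j hj
    by_contra hcon
    push Not at hcon
    exact hO ⟨j, hj, hcon⟩
  have h1 : w.sum ≤ J' := by
    by_contra hcon
    push Not at hcon
    obtain ⟨i, hi⟩ : ∃ i, w.sum = J' + i := ⟨w.sum - J', by omega⟩
    have h2 := dv_mono J' i M
    rw [← hi, hd] at h2
    have h3 := hNO J' le_rfl
    have h4 : (41 * (k : ℝ) / 20) - 1 ≤ J' := by
      have h5 : 41 * k ≤ 20 * J' + 19 := by omega
      have h6 : (41 * (k : ℝ)) ≤ 20 * J' + 19 := by exact_mod_cast h5
      linarith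
    have h7 := (abs_lt.1 h3).1
    linarith
  refine ⟨h1, ?_⟩
  have h2 := hNO w.sum h1
  rw [hd] at h2
  rw [abs_sub_comm]
  exact h2.le

/-- the coarse path of a list of sizes -/
noncomputable def cw (k : ℕ) : List ℕ → ℕ → ℝ
  | [], _ => 0
  | T :: p, j => if j < T then 0 else (2 * k - T) + cw k p (j - T)

lemma cw_end (k : ℕ) : ∀ (p : List ℕ) (j : ℕ), p.sum ≤ j → cw k p j = 2 * k * p.length - p.sum := by
  intro p
  induction p with
  | nil => intro j _; simp [cw]
  | cons T p ih =>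
    intro j hj
    rw [List.sum_cons] at hj
    unfold cw
    rw [if_neg (by omega), ih (j - T) (by omega), List.length_cons, List.sum_cons, Nat.cast_add, Nat.cast_add, Nat.cast_one]
    ring

/-- the walk is close to the coarse path -/
lemma path_close {k J' : ℕ} {a : ℝ} (ha : a ≤ k / 20 - 1) (ha0 : 0 ≤ a) (hJ' : J' = 41 * k / 20) : ∀ {p : List ℕ} {M x : ℤ}, Odd M →
    Ch k p M x → (∀ i < p.length, ∀ y, Ch k (p.take i) M y → y ∉ Out J' a) →
    (Good k a p ∧ ∀ T ∈ p, T ≤ J') ∧ ∀ j ≤ p.sum, |dv j M - cw k p j| ≤ a := by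
  intro p
  induction p with
  | nil =>
    intro M x _ _ _
    refine ⟨⟨Good.nil k a, by simp⟩, ?_⟩
    intro j hj
    have : j = 0 := by simpa using hj
    rw [this, dv_zero]
    simp [cw, ha0]
  | cons T p ih =>
    rintro M x hM ⟨w, y, hl, hw, hs, hy, hV, h⟩ hN
    have hO : M ∉ Out J' a := hN 0 (by simp) M rfl
    obtain ⟨g1, g2⟩ := size_of_notOut ha hJ' hM hl hw hy hV hO
    rw [hs] at g1 g2
    obtain ⟨⟨h1, h2⟩, h3⟩ := ih hy h (by
      intro i hi z hz
      exact hN (i + 1) (by simp; omega) z ⟨w, y, hl, hw, hs, hy, hV, hz⟩)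
    refine ⟨⟨?_, ?_⟩, ?_⟩
    · intro T' hT'
      rw [List.mem_cons] at hT'
      rcases hT' with rfl | hT'
      · exact g2
      · exact h1 T' hT'
    · intro T' hT'
      rw [List.mem_cons] at hT'
      rcases hT' with rfl | hT'
      · exact g1
      · exact h2 T' hT'
    · intro j hj
      rw [List.sum_cons] at hj
      unfold cw
      by_cases hjT : j < T
      · rw [if_pos hjT, sub_zero]
        by_contra hcon
        push Not at hcon
        exact hO ⟨j, by omega, hcon.le⟩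
      · rw [if_neg hjT]
        obtain ⟨j', rfl⟩ : ∃ j', j = T + j' := ⟨j - T, by omega⟩
        have hit := iter_word odd_one w hw M y hM hy hV
        have hd := dv_word hw M y hM hy hV
        rw [hs] at hit hd
        rw [hl] at hd
        rw [dv_add, hit, hd, Nat.add_sub_cancel_left]
        have h4 := h3 j' (by omega)
        have e : 2 * (k : ℝ) - T + dv j' y - (2 * k - T + cw k p j') = dv j' y - cw k p j' := by ring
        rw [e]
        exact h4

end Pool.Agent.H60.IP
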