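import Pool.Agent.H46.CO.Siz
import Pool.Agent.H46.CO.Bas
import Pool.Graph.R_seed8.H499R2.LT.B4
import Pool.Graph.R_seed8.H499R2.LT.R6
import Pool.Graph.R_seed8.H499R2.CL.N

/-!
# Composition of stages for arbitrary targets depending on the list of the stage sizes
-/

set_option autoImplicit false

namespace Pool.Agent.H60.IP

open Pool.Agent.H320R2.PD Pool.Agent.H499R2.ND Pool.Agent.H46.CO Finset

/-- the scale after stages of length `k` and sizes `p` -/
noncomputable def sc (A : ℝ) (k : ℕ) (p : List ℕ) : ℝ := A * 3 ^ (k * p.length) / 2 ^ p.sum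

/-- the integers such that after `r` more stages the endpoint is in `G` and the list of sizes in `T` -/
def SS (G : Set ℤ) (T : Set (List ℕ)) (k : ℕ) : ℕ → List ℕ → Set ℤ
  | 0, p => {M | p ∈ T ∧ M ∈ G}
  | r + 1, p => {M | ∀ (w : List ℕ) (x : ℤ), w.length = k → (∀ a ∈ w, 1 ≤ a) → Odd x → Vw 1 w M x →
      x ∈ SS G T k r (p ++ [w.sum])}

open Classical in
/-- the probability of `T` for independent stage sizes -/
noncomputable def pr (T : Set (List ℕ)) (k : ℕ) : ℕ → List ℕ → ℝ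
  | 0, p => if p ∈ T then 1 else 0
  | r + 1, p => ∑ w ∈ FW (3 * k) k, wwt w * pr T k r (p ++ [w.sum])

lemma wwt_nn (w : List ℕ) : 0 ≤ wwt w := by unfold wwt; positivity

lemma pr_nonneg (T : Set (List ℕ)) (k : ℕ) : ∀ (r : ℕ) (p : List ℕ), 0 ≤ pr T k r p := by
  intro r
  induction r with
  | zero =>
    intro p
    unfold pr
    split_ifs <;> norm_num
  | succ r ih =>
    intro p
    unfold pr
    exact sum_nonneg fun w _ => mul_nonneg (wwt_nn w) (ih _)

lemma pr_le_one (T : Set (List ℕ)) (k : ℕ) : ∀ (r : ℕ) (p : List ℕ), pr T k r p ≤ 1 := by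
  intro r
  induction r with
  | zero =>
    intro p
    unfold pr
    split_ifs <;> norm_num
  | succ r ih =>
    intro p
    unfold pr
    refine le_trans (sum_le_sum fun w _ => mul_le_of_le_one_right (wwt_nn w) (ih _)) ?_
    exact sum_wwt_le (3 * k) k

lemma sc_nil (A : ℝ) (k : ℕ) : sc A k [] = A := by simp [sc]

lemma sc_snoc (A : ℝ) (k : ℕ) (p : List ℕ) (T : ℕ) : sc A k p * 3 ^ k / 2 ^ T = sc A k (p ++ [T]) := by
  unfold sc
  rw [List.length_append, List.sum_append, List.length_singleton, List.sum_singleton, mul_add, mul_one, pow_add, pow_add]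
  field_simp

lemma sc_pos {A : ℝ} (hA : 0 < A) (k : ℕ) (p : List ℕ) : 0 < sc A k p := by unfold sc; positivity

/-- the list of sizes stays in the central window -/
def Good (k : ℕ) (a : ℝ) (p : List ℕ) : Prop := ∀ T ∈ p, |(T : ℝ) - 2 * k| ≤ a

lemma Good.snoc {k : ℕ} {a : ℝ} {p : List ℕ} (h : Good k a p) {T : ℕ} (hT : |(T : ℝ) - 2 * k| ≤ a) :
    Good k a (p ++ [T]) := by
  intro T' hT'
  rw [List.mem_append, List.mem_singleton] at hT'
  rcases hT' with h1 | rfl
  · exact h T' h1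
  · exact hT

lemma Good.nil (k : ℕ) (a : ℝ) : Good k a [] := by
  intro T hT
  simp at hT

/-- the conditions on the parameters -/
structure Par (A : ℝ) (k : ℕ) (a : ℝ) (J : ℕ) (ε : ℝ) : Prop where
  hA : 0 < A
  hk : 1 ≤ k
  ha : 0 < a
  hak : a ≤ k / 20
  big : ∀ p : List ℕ, p.length ≤ J → Good k a p → 1000 ≤ Real.log (sc A k p) ∧ (k : ℝ) ≤ Real.log (sc A k p) / 2
  hmk : ∀ p : List ℕ, p.length ≤ J → Good k a p → Real.sqrt (0.8 * Real.log (sc A k p)) ≤ k
  err : ∀ p : List ℕ, p.length < J → Good k a p → ∀ m m' : ℕ, (m : ℝ) ^ 2 ≤ Real.log (sc A k p) →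
    m' = ⌊Real.sqrt (0.8 * Real.log (sc A k p))⌋₊ → Err 1 (sc A k p) k m m' + 3 * Real.exp (-(a ^ 2 / (32 * k))) ≤ ε

lemma log_next {A : ℝ} (hA : 0 < A) {k T : ℕ} (h2 : (k : ℝ) ≤ Real.log A / 2) (h3 : |(T : ℝ) - 2 * k| ≤ k / 20) :
    0.8 * Real.log A ≤ Real.log (A * 3 ^ k / 2 ^ T) := by
  have hlog : Real.log (A * 3 ^ k / 2 ^ T) = Real.log A - (T * Real.log 2 - k * Real.log 3) := by
    rw [Real.log_div (by positivity) (by positivity), Real.log_mul (by positivity) (by positivity),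
      Real.log_pow, Real.log_pow]
    ring
  have hl2 := Real.log_two_gt_d9
  have hl2' := Real.log_two_lt_d9
  have hl3' := log3_ge
  have hk0 : (0 : ℝ) ≤ k := Nat.cast_nonneg k
  obtain ⟨h4, h5⟩ := abs_le.1 h3
  have hT2 : (T : ℝ) ≤ 41 / 20 * k := by linarith
  have a2 : (T : ℝ) * Real.log 2 ≤ 41 / 20 * k * Real.log 2 :=
    mul_le_mul_of_nonneg_right hT2 (by linarith)
  have a4 : (k : ℝ) * (19 / 12 * Real.log 2) ≤ k * Real.log 3 :=
    mul_le_mul_of_nonneg_left hl3' hk0
  have a5 : (k : ℝ) * 0.6931471803 ≤ k * Real.log 2 := mul_le_mul_of_nonneg_left hl2.le hk0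
  have a6 : (k : ℝ) * Real.log 2 ≤ k * 0.6931471808 := mul_le_mul_of_nonneg_left hl2'.le hk0
  rw [hlog]
  nlinarith

/-- **composition** -/
theorem comp {A : ℝ} {k : ℕ} {a : ℝ} {J : ℕ} {ε : ℝ} (h : Par A k a J ε) (hε : 0 ≤ ε) {G : Set ℤ} {δ : ℝ} (hδ : 0 ≤ δ)
    (T : Set (List ℕ)) {n : ℕ} (hn : n ≤ J)
    (hG : ∀ p : List ℕ, p.length = n → Good k a p → ∀ m : ℕ, (m : ℝ) ^ 2 ≤ Real.log (sc A k p) → PB G (sc A k p) m δ) :
    ∀ (r : ℕ) (p : List ℕ), p.length + r = n → Good k a p → ∀ m : ℕ, (m : ℝ) ^ 2 ≤ Real.log (sc A k p) →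
      PB (SS G T k r p) (sc A k p) m (δ * pr T k r p + r * ε) := by
  intro r
  induction r with
  | zero =>
    intro p hp hg m hm
    by_cases hpT : p ∈ T
    · have h1 := hG p (by omega) hg m hm
      have e1 : δ * pr T k 0 p + ((0 : ℕ) : ℝ) * ε = δ := by
        unfold pr
        rw [if_pos hpT]
        push_cast
        ring
      rw [e1]
      exact PB_sub (fun x _ _ hx => hx.2) h1
    · intro u v _
      have hemp : cls (SS G T k 0 p) (sc A k p) (2 * sc A k p) m u v = ∅ := by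
        rw [Finset.eq_empty_iff_forall_notMem]
        intro x hx
        rw [mem_cls] at hx
        exact hpT hx.2.2.1.1
      rw [hemp, card_empty]
      have h1 := pr_nonneg T k 0 p
      have h2 := sc_pos h.hA k p
      push_cast
      positivity
  | succ r ih =>
    intro p hp hg m hm
    have hA' := sc_pos h.hA k p
    obtain ⟨hb1, hb2⟩ := h.big p (by omega) hg
    obtain ⟨Tl, Tm, hTm, hTT, hmass⟩ := mass_win h.hk h.ha h.hak
    obtain ⟨t, ht⟩ : ∃ t : ℝ, t = Real.log (sc A k p) := ⟨_, rfl⟩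
    obtain ⟨m', hm'⟩ : ∃ m' : ℕ, m' = ⌊Real.sqrt (0.8 * t)⌋₊ := ⟨_, rfl⟩
    have htpos : 0 < t := by rw [ht]; linarith
    have hm'sq : (m' : ℝ) ^ 2 ≤ 0.8 * t := by
      have h1 : (m' : ℝ) ≤ Real.sqrt (0.8 * t) := by
        rw [hm']; exact Nat.floor_le (Real.sqrt_nonneg _)
      calc (m' : ℝ) ^ 2 ≤ (Real.sqrt (0.8 * t)) ^ 2 :=
            pow_le_pow_left₀ (Nat.cast_nonneg _) h1 2
        _ = 0.8 * t := Real.sq_sqrt (by linarith)
    have hm'k : m' ≤ k := by
      have h1 : (m' : ℝ) ≤ Real.sqrt (0.8 * t) := by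
        rw [hm']; exact Nat.floor_le (Real.sqrt_nonneg _)
      have h2 := h.hmk p (by omega) hg
      rw [← ht] at h2
      exact_mod_cast h1.trans h2
    have hE := h.err p (by omega) hg m m' hm (by rw [hm', ht])
    have hst := stageW odd_one isCoprime_one_left (S := SS G T k (r + 1) p)
      (fun T' => SS G T k r (p ++ [T'])) hA' h.hk hm'k (m := m) (Tl := Tl) (Tm := Tm) hTm
      (ρ := fun T' => δ * pr T k r (p ++ [T']) + r * ε) (by
        intro w hw M x _ hx _ _ hMS hV
        unfold GW at hw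
        rw [mem_filter] at hw
        have hpp := FW_props hw.1
        exact hMS w x hpp.1 hpp.2 hx hV) (by
        intro T' hT1 hT2
        have hTa := (hTT T').1 ⟨hT1, hT2⟩
        rw [sc_snoc]
        refine ih (p ++ [T']) ?_ (hg.snoc hTa) m' ?_
        · rw [List.length_append, List.length_singleton]
          omega
        · refine hm'sq.trans ?_
          rw [← sc_snoc, ht]
          exact log_next hA' hb2 (hTa.trans h.hak))
    refine PB_mono hA' ?_ hst
    have e1 : ∑ w ∈ GW (3 * k) k Tl Tm, wwt w * (δ * pr T k r (p ++ [w.sum]) + r * ε) ≤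
        δ * pr T k (r + 1) p + r * ε := by
      have e2 : ∑ w ∈ GW (3 * k) k Tl Tm, wwt w * (δ * pr T k r (p ++ [w.sum]) + r * ε) ≤
          ∑ w ∈ FW (3 * k) k, wwt w * (δ * pr T k r (p ++ [w.sum]) + r * ε) := by
        unfold GW
        apply sum_le_sum_of_subset_of_nonneg (filter_subset _ _)
        intro w _ _
        have h1 := pr_nonneg T k r (p ++ [w.sum])
        have h2 := wwt_nn w
        positivity
      refine e2.trans ?_
      have e3 : ∑ w ∈ FW (3 * k) k, wwt w * (δ * pr T k r (p ++ [w.sum]) + r * ε) =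
          δ * pr T k (r + 1) p + (∑ w ∈ FW (3 * k) k, wwt w) * (r * ε) := by
        rw [show pr T k (r + 1) p = ∑ w ∈ FW (3 * k) k, wwt w * pr T k r (p ++ [w.sum]) from rfl, mul_sum, sum_mul,
          ← sum_add_distrib]
        apply sum_congr rfl
        intro w _
        ring
      rw [e3]
      have e4 := sum_wwt_le (3 * k) k
      have e5 : 0 ≤ (r : ℝ) * ε := by positivity
      nlinarith
    push_cast
    linarith

end Pool.Agent.H60.IP
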