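import Pool.Agent.H60.IP.Chn

/-!
# Comparison of independent stage sizes with the simple random walk
-/

set_option autoImplicit false

namespace Pool.Agent.H60.IP

open Pool.Agent.H320R2.PD Pool.Agent.H499R2.ND Pool.Agent.H46.CO Finset

/-! ### total words -/

/-- the sums of the blocks of length `k` of a word of length `r k` (the last block first) -/
def bs (k : ℕ) : ℕ → List ℕ → List ℕ
  | 0, _ => []
  | r + 1, W => (W.drop (r * k)).sum :: bs k r (W.take (r * k))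

lemma bs_append (k r : ℕ) {u v : List ℕ} (hu : u.length = r * k) : bs k (r + 1) (u ++ v) = v.sum :: bs k r u := by
  show (List.drop (r * k) (u ++ v)).sum :: bs k r (List.take (r * k) (u ++ v)) = _
  rw [← hu, List.drop_left, List.take_left]

lemma bs_length (k : ℕ) : ∀ (r : ℕ) (W : List ℕ), (bs k r W).length = r := by
  intro r
  induction r with
  | zero => intro W; rfl
  | succ r ih => intro W; unfold bs; rw [List.length_cons, ih]

lemma wwt_append' (u v : List ℕ) : wwt (u ++ v) = wwt u * wwt v := by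
  unfold wwt
  rw [List.sum_append, pow_add]

open Classical in
lemma pr_eq (T : Set (List ℕ)) (k : ℕ) : ∀ (r : ℕ) (q : List ℕ),
    pr T k r q = ∑ W ∈ FW (3 * k) (r * k), wwt W * (if q ++ bs k r W ∈ T then 1 else 0) := by
  intro r
  induction r with
  | zero =>
    intro q
    rw [zero_mul, sum_FW_zero]
    unfold pr bs
    simp [wwt]
  | succ r ih =>
    intro q
    rw [add_mul, one_mul, sum_FW_add, sum_comm]
    unfold pr
    apply sum_congr rfl
    intro w _
    rw [ih, mul_sum]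
    apply sum_congr rfl
    intro u hu
    rw [bs_append k r (FW_props hu).1, wwt_append']
    have e : q ++ [w.sum] ++ bs k r u = q ++ w.sum :: bs k r u := by simp
    rw [e]
    ring

lemma Vw_split {u : List ℕ} : ∀ {v : List ℕ} {M x : ℤ}, (∀ a ∈ u ++ v, 1 ≤ a) → Odd M → Odd x → Vw 1 (u ++ v) M x →
    ∃ y, Odd y ∧ Vw 1 v M y ∧ Vw 1 u y x := by
  intro v
  induction v using List.reverseRecOn with
  | nil =>
    intro M x _ hM _ h
    rw [List.append_nil] at h
    exact ⟨M, hM, by unfold Vw; simp [Wo], h⟩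
  | append_singleton v e ih =>
    intro M x hw hM hx h
    rw [← List.append_assoc] at h
    have hw' : ∀ a ∈ u ++ v, 1 ≤ a := fun a ha => hw a (by
      rw [List.mem_append] at ha ⊢
      rcases ha with ha | ha
      · exact Or.inl ha
      · exact Or.inr (by simp [ha]))
    obtain ⟨M₁, hM₁, h1, h2⟩ := Vw_snoc odd_one hw' hx h
    obtain ⟨y, hy, h3, h4⟩ := ih hw' hM₁ hx h2
    exact ⟨y, hy, Vw_snoc' h1 h3, h4⟩

lemma Ch_bs (k : ℕ) : ∀ (r : ℕ) {W : List ℕ} {M x : ℤ}, W.length = r * k → (∀ a ∈ W, 1 ≤ a) → Odd M → Odd x → Vw 1 W M x →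
    Ch k (bs k r W) M x := by
  intro r
  induction r with
  | zero =>
    intro W M x hl _ _ _ h
    have : W = [] := by
      apply List.length_eq_zero_iff.1
      omega
    subst this
    unfold Vw at h
    simp [Wo] at h
    unfold bs Ch
    exact h.symm
  | succ r ih =>
    intro W M x hl hw hM hx h
    obtain ⟨u, v, hWuv, hu, hv⟩ : ∃ u v : List ℕ, W = u ++ v ∧ u.length = r * k ∧ v.length = k := by
      refine ⟨W.take (r * k), W.drop (r * k), (List.take_append_drop _ _).symm, ?_, ?_⟩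
      · rw [List.length_take, hl]
        apply min_eq_left
        nlinarith
      · rw [List.length_drop, hl, add_mul, one_mul]
        omega
    subst hWuv
    obtain ⟨y, hy, h1, h2⟩ := Vw_split hw hM hx h
    rw [bs_append k r hu]
    exact ⟨v, y, hv, fun a ha => hw a (by simp [ha]), rfl, hy, h1, ih hu (fun a ha => hw a (by simp [ha])) hy hx h2⟩

open Classical in
/-- many integers have a chain of sizes in `T` -/
lemma chain_count (T : Set (List ℕ)) (k r : ℕ) (B : ℝ) :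
    B / 2 * pr T k r [] - ((FW (3 * k) (r * k)).card : ℝ) ≤
      (((Ico ⌈B⌉ ⌈2 * B⌉).filter fun M : ℤ => Odd M ∧ ∃ (p : List ℕ) (x : ℤ), p.length = r ∧ Ch k p M x ∧ p ∈ T).card : ℝ) := by
  obtain ⟨F, hF⟩ : ∃ F : Finset (List ℕ), F = (FW (3 * k) (r * k)).filter fun W => bs k r W ∈ T := ⟨_, rfl⟩
  have hpr : pr T k r [] = ∑ W ∈ F, wwt W := by
    rw [pr_eq, hF, sum_filter]
    apply sum_congr rfl
    intro W _
    rw [List.nil_append]
    split_ifs <;> simp
  have hodd : ∀ W ∈ F, ∀ M ∈ XX 1 B (r * k) 0 0 W, Odd M ∧ ∃ x : ℤ, Odd x ∧ Vw 1 W M x := by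
    intro W hW M hM
    rw [hF, mem_filter] at hW
    have hp := FW_props hW.1
    obtain ⟨x, hx, hV⟩ := XX_word hp.1 hM
    refine ⟨?_, x, hx, hV⟩
    rcases eq_or_ne W [] with h0 | h0
    · rw [h0] at hV
      unfold Vw at hV
      simp [Wo] at hV
      rw [hV]
      exact hx
    · exact Vw_odd_left odd_one hp.2 h0 hV
  have hsub : F.biUnion (fun W => XX 1 B (r * k) 0 0 W) ⊆
      (Ico ⌈B⌉ ⌈2 * B⌉).filter fun M : ℤ => Odd M ∧ ∃ (p : List ℕ) (x : ℤ), p.length = r ∧ Ch k p M x ∧ p ∈ T := by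
    intro M hM
    rw [mem_biUnion] at hM
    obtain ⟨W, hW, hM⟩ := hM
    obtain ⟨hMo, x, hx, hV⟩ := hodd W hW M hM
    rw [hF, mem_filter] at hW
    have hp := FW_props hW.1
    rw [mem_filter, mem_win]
    refine ⟨(mem_XX.1 hM).1, hMo, bs k r W, x, bs_length k r W, Ch_bs k r hp.1 hp.2 hMo hx hV, hW.2⟩
  have hdisj : (F : Set (List ℕ)).PairwiseDisjoint (fun W => XX 1 B (r * k) 0 0 W) := by
    intro W hW W' hW' hne
    rw [Function.onFun, Finset.disjoint_left]
    intro M hM hM'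
    apply hne
    obtain ⟨_, x, hx, hV⟩ := hodd W hW M hM
    obtain ⟨_, x', hx', hV'⟩ := hodd W' hW' M hM'
    rw [mem_coe, hF, mem_filter] at hW hW'
    have hp := FW_props hW.1
    have hp' := FW_props hW'.1
    exact word_unique odd_one W hp.2 W' hp'.2 (by rw [hp.1, hp'.1]) M x x' hx hx' hV hV'
  have h1 := card_le_card hsub
  rw [card_biUnion hdisj] at h1
  have h2 : (∑ W ∈ F, ((XX 1 B (r * k) 0 0 W).card : ℝ)) ≤
      (((Ico ⌈B⌉ ⌈2 * B⌉).filter fun M : ℤ => Odd M ∧ ∃ (p : List ℕ) (x : ℤ), p.length = r ∧ Ch k p M x ∧ p ∈ T).card : ℝ) := by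
    exact_mod_cast h1
  refine le_trans ?_ h2
  have h3 : ∑ W ∈ F, (B / 2 * wwt W - 1) ≤ ∑ W ∈ F, ((XX 1 B (r * k) 0 0 W).card : ℝ) := by
    apply sum_le_sum
    intro W _
    have := XX_card 1 (A := B) (r * k) 0 0 W
    rw [pow_zero, mul_one] at this
    exact this
  refine le_trans ?_ h3
  rw [sum_sub_distrib, ← mul_sum, ← hpr, sum_const, nsmul_eq_mul, mul_one]
  have h4 : (F.card : ℝ) ≤ (FW (3 * k) (r * k)).card := by
    rw [hF]
    exact_mod_cast card_filter_le _ _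
  linarith

/-! ### the simple random walk -/

lemma wk_fin0 (e : Fin 0 → Bool) (j : ℕ) : wk e j = 0 := by simp [wk]

lemma shift_max (n : ℕ) (hn : 1 ≤ n) (c : ℝ) (hc : 0 < c) : ∀ (i L : ℕ),
    np L (fun e => ∃ j ≤ n, c ≤ |wk e (i + j) - wk e i|) ≤ 2 ^ L * (2 * Real.exp (-(c ^ 2 / (2 * n)))) := by
  intro i
  induction i with
  | zero =>
    intro L
    refine le_trans (np_mono ?_) (max_abs n L hn c hc.le)
    rintro e ⟨j, hj, h⟩
    rw [zero_add, wk_zero, sub_zero] at h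
    exact ⟨j, hj, h⟩
  | succ i ih =>
    intro L
    rcases L with _ | L
    · rw [np_empty]
      · positivity
      · rintro e ⟨j, _, h⟩
        rw [wk_fin0, wk_fin0, sub_zero, abs_zero] at h
        linarith
    · rw [np_cons]
      have key : ∀ b : Bool, ∀ e : Fin L → Bool,
          (∃ j ≤ n, c ≤ |wk (Fin.cons b e : Fin (L + 1) → Bool) (i + 1 + j) - wk (Fin.cons b e : Fin (L + 1) → Bool) (i + 1)|) ↔
          ∃ j ≤ n, c ≤ |wk e (i + j) - wk e i| := by
        intro b e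
        have h1 : ∀ j, wk (Fin.cons b e : Fin (L + 1) → Bool) (i + 1 + j) - wk (Fin.cons b e : Fin (L + 1) → Bool) (i + 1) =
            wk e (i + j) - wk e i := by
          intro j
          rw [show i + 1 + j = (i + j) + 1 by ring, wk_cons, wk_cons]
          ring
        constructor
        · rintro ⟨j, hj, h⟩
          rw [h1] at h
          exact ⟨j, hj, h⟩
        · rintro ⟨j, hj, h⟩
          exact ⟨j, hj, by rw [h1]; exact h⟩
      rw [np_congr (key true), np_congr (key false), pow_succ]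
      have := ih L
      linarith

/-- large oscillation of the walk -/
def Osc (Λ : ℕ) (c : ℝ) {L : ℕ} (e : Fin L → Bool) : Prop :=
  ∃ g : ℕ, g * Λ ≤ L ∧ ∃ j ≤ 2 * Λ, c ≤ |wk e (g * Λ + j) - wk e (g * Λ)|

lemma np_osc {Λ : ℕ} (hΛ : 1 ≤ Λ) {c : ℝ} (hc : 0 < c) (L : ℕ) :
    np L (Osc Λ c) ≤ (L / Λ + 1) * (2 ^ L * (2 * Real.exp (-(c ^ 2 / (4 * Λ))))) := by
  have h1 := np_biUnion (k := L) (range (L / Λ + 1)) (P := Osc Λ c)
    (fun g e => ∃ j ≤ 2 * Λ, c ≤ |wk e (g * Λ + j) - wk e (g * Λ)|) (by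
    rintro e ⟨g, hg, h⟩
    refine ⟨g, ?_, h⟩
    rw [mem_range, Nat.lt_succ_iff, Nat.le_div_iff_mul_le (by omega)]
    exact hg)
  refine h1.trans ?_
  have h2 : ∀ g ∈ range (L / Λ + 1), np L (fun e => ∃ j ≤ 2 * Λ, c ≤ |wk e (g * Λ + j) - wk e (g * Λ)|) ≤
      2 ^ L * (2 * Real.exp (-(c ^ 2 / (4 * Λ)))) := by
    intro g _
    have h3 := shift_max (2 * Λ) (by omega) c hc (g * Λ) L
    have e : (2 : ℝ) * ((2 * Λ : ℕ) : ℝ) = 4 * Λ := by push_cast; ring
    rw [e] at h3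
    exact h3
  refine (sum_le_sum h2).trans ?_
  rw [sum_const, card_range, nsmul_eq_mul]
  apply mul_le_mul_of_nonneg_right _ (by positivity)
  push_cast
  have : ((L / Λ : ℕ) : ℝ) ≤ (L : ℝ) / Λ := Nat.cast_div_le
  linarith

lemma modulus {Λ : ℕ} (hΛ : 1 ≤ Λ) {c : ℝ} {L : ℕ} {e : Fin L → Bool} (h : ¬ Osc Λ c e) {i j : ℕ} (hij : i ≤ j)
    (hjL : j ≤ L) (hji : j - i ≤ Λ) : |wk e j - wk e i| ≤ 2 * c := by
  obtain ⟨g, hg⟩ : ∃ g, g = i / Λ := ⟨_, rfl⟩
  have h1 : g * Λ ≤ i := by rw [hg]; exact Nat.div_mul_le_self _ _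
  have h2 : i < (g + 1) * Λ := by
    rw [hg, mul_comm]
    exact Nat.lt_mul_div_succ i (by omega)
  rw [add_mul, one_mul] at h2
  have hno : ∀ b ≤ 2 * Λ, |wk e (g * Λ + b) - wk e (g * Λ)| < c := by
    intro b hb
    by_contra hcon
    push Not at hcon
    exact h ⟨g, by omega, b, hb, hcon⟩
  have h3 := hno (i - g * Λ) (by omega)
  have h4 := hno (j - g * Λ) (by omega)
  rw [Nat.add_sub_cancel' h1] at h3
  rw [Nat.add_sub_cancel' (h1.trans hij)] at h4
  have h5 : wk e j - wk e i = (wk e j - wk e (g * Λ)) - (wk e i - wk e (g * Λ)) := by ring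
  rw [h5]
  refine (abs_sub _ _).trans ?_
  linarith

/-- from the modulus of continuity to the coarse path -/
lemma close_of_modulus {k Λ : ℕ} {a : ℝ} : ∀ {p : List ℕ} {M x : ℤ} {n : ℕ}, Odd M →
    (∀ i j, i ≤ j → j ≤ n → j - i ≤ Λ → |dv j M - dv i M| ≤ a) → Ch k p M x → (∀ T ∈ p, T ≤ Λ) → p.sum ≤ n →
    n - p.sum ≤ Λ → ∀ j ≤ n, |dv j M - cw k p j| ≤ a := by
  intro p
  induction p with
  | nil =>
    intro M x n _ hmod _ _ _ hn j hj
    simp only [List.sum_nil] at hn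
    have := hmod 0 j (Nat.zero_le _) hj (by omega)
    rw [dv_zero] at this
    simpa [cw] using this
  | cons T p ih =>
    rintro M x n hM hmod ⟨w, y, hl, hw, hs, hy, hV, h⟩ hT hsum hn j hj
    rw [List.sum_cons] at hsum hn
    have hit := iter_word odd_one w hw M y hM hy hV
    have hd := dv_word hw M y hM hy hV
    rw [hs] at hit hd
    rw [hl] at hd
    unfold cw
    by_cases hjT : j < T
    · rw [if_pos hjT, sub_zero]
      have h1 := hT T (by simp)
      have := hmod 0 j (Nat.zero_le _) hj (by omega)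
      rw [dv_zero, sub_zero] at this
      exact this
    · rw [if_neg hjT]
      obtain ⟨j', rfl⟩ : ∃ j', j = T + j' := ⟨j - T, by omega⟩
      have h4 := ih (M := y) (x := x) (n := n - T) hy (by
        intro i j h1 h2 h3
        have h5 := hmod (T + i) (T + j) (by omega) (by omega) (by omega)
        rw [dv_add, dv_add, hit] at h5
        have e : dv T M + dv j y - (dv T M + dv i y) = dv j y - dv i y := by ring
        rw [e] at h5
        exact h5) h (fun T' hT' => hT T' (by simp [hT'])) (by omega) (by omega) j' (by omega)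
      rw [dv_add, hit, hd, Nat.add_sub_cancel_left]
      have e : 2 * (k : ℝ) - T + dv j' y - (2 * k - T + cw k p j') = dv j' y - cw k p j' := by ring
      rw [e]
      exact h4

/-- the paths near `𝒜` -/
def Nr (L : ℕ) (𝒜 : Set (ℕ → ℝ)) (r : ℝ) (g : ℕ → ℝ) : Prop := ∃ f ∈ 𝒜, ∀ j ≤ L, |f j - g j| ≤ r

lemma flip_count (L : ℕ) (hL : 1 ≤ L) (𝒜 : Set (ℕ → ℝ)) (r : ℝ) :
    2 * np L (fun e => wk e 1 = 1 ∧ Nr L 𝒜 r (wk e)) ≤ np L (fun e => Nr L 𝒜 (r + 2) (wk e)) := by
  obtain ⟨L', rfl⟩ : ∃ L', L = L' + 1 := ⟨L - 1, by omega⟩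
  rw [np_cons, np_cons]
  have h1 : np L' (fun e => wk (Fin.cons false e : Fin (L' + 1) → Bool) 1 = 1 ∧
      Nr (L' + 1) 𝒜 r (wk (Fin.cons false e : Fin (L' + 1) → Bool))) = 0 := by
    apply np_empty
    rintro e ⟨h, _⟩
    have h2 : wk (Fin.cons false e : Fin (L' + 1) → Bool) 1 = Pool.Agent.H46.CO.sg false + wk e 0 := wk_cons false e 0
    rw [h2, wk_zero] at h
    simp [Pool.Agent.H46.CO.sg] at h
    norm_num at h
  have hdiff : ∀ (b : Bool) (e : Fin L' → Bool) (j : ℕ),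
      |wk (Fin.cons true e : Fin (L' + 1) → Bool) j - wk (Fin.cons b e : Fin (L' + 1) → Bool) j| ≤ 2 := by
    intro b e j
    rcases j with _ | j
    · rw [wk_zero, wk_zero, sub_zero, abs_zero]
      norm_num
    · rw [wk_cons, wk_cons]
      have e1 : Pool.Agent.H46.CO.sg true + wk e j - (Pool.Agent.H46.CO.sg b + wk e j) =
          Pool.Agent.H46.CO.sg true - Pool.Agent.H46.CO.sg b := by ring
      rw [e1]
      cases b <;> simp [Pool.Agent.H46.CO.sg] <;> norm_num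
  have h2 : ∀ b : Bool, np L' (fun e => wk (Fin.cons true e : Fin (L' + 1) → Bool) 1 = 1 ∧
      Nr (L' + 1) 𝒜 r (wk (Fin.cons true e : Fin (L' + 1) → Bool))) ≤
      np L' (fun e => Nr (L' + 1) 𝒜 (r + 2) (wk (Fin.cons b e : Fin (L' + 1) → Bool))) := by
    intro b
    apply np_mono
    rintro e ⟨_, f, hf, h⟩
    refine ⟨f, hf, fun j hj => ?_⟩
    have h3 := h j hj
    have h4 := hdiff b e j
    have h5 := abs_add_le (f j - wk (Fin.cons true e : Fin (L' + 1) → Bool) j)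
      (wk (Fin.cons true e : Fin (L' + 1) → Bool) j - wk (Fin.cons b e : Fin (L' + 1) → Bool) j)
    have h6 : f j - wk (Fin.cons true e : Fin (L' + 1) → Bool) j +
      (wk (Fin.cons true e : Fin (L' + 1) → Bool) j - wk (Fin.cons b e : Fin (L' + 1) → Bool) j) =
      f j - wk (Fin.cons b e : Fin (L' + 1) → Bool) j := by ring
    rw [h6] at h5
    linarith
  rw [h1]
  have h3 := h2 true
  have h4 := h2 false
  linarith

/-- **comparison with the simple random walk** -/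
theorem coin {k r L Λ : ℕ} {a b : ℝ} (ha : 0 < a) (T : Set (List ℕ)) (hL : 1 ≤ L) (hΛ : 1 ≤ Λ)
    (hT : ∀ p ∈ T, (∀ t ∈ p, t ≤ Λ) ∧ p.sum ≤ L ∧ L - p.sum ≤ Λ) (𝒜 : Set (ℕ → ℝ))
    (hA : ∀ p ∈ T, Nr L 𝒜 b (cw k p)) :
    pr T k r [] ≤ np L (fun e => Nr L 𝒜 (a + b + 2) (wk e)) / 2 ^ L +
      4 * (L / Λ + 1) * Real.exp (-((a / 2) ^ 2 / (4 * Λ))) := by
  classical
  obtain ⟨Q, hQ⟩ : ∃ Q : (Fin L → Bool) → Prop, Q = fun e => (wk e 1 = 1 ∧ Nr L 𝒜 (a + b) (wk e)) ∨ Osc Λ (a / 2) e := ⟨_, rfl⟩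
  have hsub : ∀ B : ℝ, ((Ico ⌈B⌉ ⌈2 * B⌉).filter fun M : ℤ => Odd M ∧ ∃ (p : List ℕ) (x : ℤ), p.length = r ∧ Ch k p M x ∧ p ∈ T) ⊆
      (Ico ⌈B⌉ ⌈2 * B⌉).filter fun M : ℤ => Q (pt L M) ∧ (3 : ℤ) ^ 0 ∣ 1 * M - 0 := by
    intro B M hM
    rw [mem_filter] at hM ⊢
    obtain ⟨hM1, hMo, p, x, _, hc, hpT⟩ := hM
    refine ⟨hM1, ?_, by simp⟩
    rw [hQ]
    by_cases hO : Osc Λ (a / 2) (pt L M)
    · exact Or.inr hO
    left
    obtain ⟨g1, g2, g3⟩ := hT p hpT
    constructor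
    · rw [wk_pt L M 1 hL, dv_one, if_pos (Int.odd_iff.1 hMo)]
    · obtain ⟨f, hf, hf2⟩ := hA p hpT
      refine ⟨f, hf, fun j hj => ?_⟩
      have h1 := close_of_modulus (k := k) (Λ := Λ) (a := a) (n := L) hMo (by
        intro i j h1 h2 h3
        have h4 := modulus hΛ hO h1 h2 h3
        rw [wk_pt L M j h2, wk_pt L M i (h1.trans h2)] at h4
        linarith) hc g1 g2 g3 j hj
      have h2 := hf2 j hj
      rw [wk_pt L M j hj]
      have h3 := abs_add_le (f j - cw k p j) (cw k p j - dv j M)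
      rw [abs_sub_comm (cw k p j)] at h3
      have h4 : f j - cw k p j + (cw k p j - dv j M) = f j - dv j M := by ring
      rw [h4] at h3
      linarith
  have hmain : ∀ B : ℝ, 0 < B → B / 2 * pr T k r [] - ((FW (3 * k) (r * k)).card : ℝ) ≤ np L Q * (B / 2 ^ L + 1) := by
    intro B hB
    have h1 := chain_count T k r B
    have h2 := word_count L 0 (a := B) (b := 2 * B) (by linarith) (u := 1) isCoprime_one_left 0 Q
    have h3 : B / 2 * pr T k r [] - ((FW (3 * k) (r * k)).card : ℝ) ≤ np L Q * ((2 * B - B) / (2 ^ L * 3 ^ 0) + 1) := by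
      refine h1.trans ((Nat.cast_le.2 (card_le_card (fun M hM => ?_))).trans h2)
      rw [mem_filter] at hM ⊢
      have h4 := hsub B (mem_filter.2 hM)
      rw [mem_filter] at h4
      exact h4
    have e : (2 * B - B) / ((2 : ℝ) ^ L * 3 ^ 0) + 1 = B / 2 ^ L + 1 := by
      rw [pow_zero, mul_one]
      congr 2
      ring
    rw [e] at h3
    exact h3
  have hlim : pr T k r [] / 2 ≤ np L Q / 2 ^ L := by
    by_contra hcon
    push Not at hcon
    obtain ⟨c, hc⟩ : ∃ c : ℝ, c = pr T k r [] / 2 - np L Q / 2 ^ L := ⟨_, rfl⟩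
    have hc0 : 0 < c := by rw [hc]; linarith
    obtain ⟨D, hD⟩ : ∃ D : ℝ, D = ((FW (3 * k) (r * k)).card : ℝ) + np L Q + 1 := ⟨_, rfl⟩
    have hD0 : 0 < D := by
      have := np_nonneg L Q
      rw [hD]
      positivity
    have h1 := hmain (D / c) (by positivity)
    have h2 : D / c * c = D := by field_simp
    have h3 : D / c / 2 * pr T k r [] - np L Q * (D / c / 2 ^ L) = D / c * c := by
      rw [hc]
      ring
    nlinarith
  have h1 : np L Q ≤ np L (fun e => wk e 1 = 1 ∧ Nr L 𝒜 (a + b) (wk e)) + np L (Osc Λ (a / 2)) := by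
    rw [hQ]
    exact np_or fun e h => h
  have h2 := flip_count L hL 𝒜 (a + b)
  have h3 := np_osc hΛ (half_pos ha) L
  have h4 : (0 : ℝ) < 2 ^ L := by positivity
  have h5 : pr T k r [] ≤ 2 * np L Q / 2 ^ L := by
    have : 2 * np L Q / 2 ^ L = 2 * (np L Q / 2 ^ L) := by ring
    rw [this]
    linarith
  refine h5.trans ?_
  rw [div_le_iff₀ h4, add_mul, div_mul_cancel₀ _ h4.ne']
  have e2 : 4 * ((L : ℝ) / Λ + 1) * Real.exp (-((a / 2) ^ 2 / (4 * Λ))) * 2 ^ L =
      2 * (((L : ℝ) / Λ + 1) * (2 ^ L * (2 * Real.exp (-((a / 2) ^ 2 / (4 * Λ)))))) := by ring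
  rw [e2]
  linarith

end Pool.Agent.H60.IP
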