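import Pool.Agent.H60.IP.Fin
import Mathlib.Probability.CentralLimitTheorem
import Mathlib.Probability.Independence.InfinitePi
import Mathlib.MeasureTheory.Measure.FiniteMeasurePi

/-!
# The blocks of the simple random walk converge to independent normal variables
-/

set_option autoImplicit false

namespace Pool.Agent.H60.IP

open Pool.Agent.H46.CO Finset Filter Topology MeasureTheory ProbabilityTheory

/-- the law of one toss -/
noncomputable def cn : Measure Bool := (2⁻¹ : ENNReal) • (Measure.dirac true + Measure.dirac false)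

lemma cn_univ : cn Set.univ = 1 := by
  unfold cn
  rw [Measure.smul_apply, Measure.add_apply, measure_univ, measure_univ, smul_eq_mul, one_add_one_eq_two,
    ENNReal.inv_mul_cancel (by norm_num) (by norm_num)]

instance : IsProbabilityMeasure cn := ⟨cn_univ⟩

lemma cn_singleton (b : Bool) : cn {b} = 2⁻¹ := by
  unfold cn
  rw [Measure.smul_apply, Measure.add_apply, Measure.dirac_apply' _ (measurableSet_singleton b), Measure.dirac_apply' _ (measurableSet_singleton b)]
  cases b <;> simp

lemma integral_cn (g : Bool → ℝ) : ∫ b, g b ∂cn = (g true + g false) / 2 := by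
  rw [integral_fintype (Integrable.of_finite)]
  simp only [Fintype.sum_bool, measureReal_def, cn_singleton, smul_eq_mul]
  rw [ENNReal.toReal_inv]
  norm_num
  ring

/-- the law of the sequence of tosses -/
noncomputable def PP : Measure (ℕ → Bool) := Measure.infinitePi (fun _ : ℕ => cn)

instance : IsProbabilityMeasure PP := by unfold PP; infer_instance

/-- the law of `K` tosses -/
noncomputable def nu (K : ℕ) : Measure (Fin K → Bool) := Measure.pi (fun _ => cn)

instance (K : ℕ) : IsProbabilityMeasure (nu K) := by unfold nu; infer_instance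

lemma nu_singleton (K : ℕ) (e : Fin K → Bool) : nu K {e} = (2⁻¹ : ENNReal) ^ K := by
  unfold nu
  rw [Measure.pi_singleton]
  simp [cn_singleton]

lemma nu_av (K : ℕ) (g : (Fin K → Bool) → ℝ) : ∫ e, g e ∂(nu K) = (∑ e, g e) / 2 ^ K := by
  rw [integral_fintype (Integrable.of_finite), Finset.sum_div]
  apply sum_congr rfl
  intro e _
  rw [measureReal_def, nu_singleton, smul_eq_mul, ENNReal.toReal_pow, ENNReal.toReal_inv]
  rw [div_eq_inv_mul, ← inv_pow]
  norm_num

lemma PP_inj {ι : Type} [Fintype ι] (f : ι → ℕ) (hf : Function.Injective f) :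
    PP.map (fun ω i => ω (f i)) = Measure.pi (fun _ : ι => cn) := by
  unfold PP
  rw [Measure.map_infinitePi_infinitePi_of_inj (P := fun _ : ℕ => cn) hf, Measure.infinitePi_eq_pi]

lemma PP_restrict (L : ℕ) : PP.map (fun ω (i : Fin L) => ω i) = nu L :=
  PP_inj (fun i : Fin L => (i : ℕ)) Fin.val_injective

/-- averages over words as integrals -/
lemma PP_av (L : ℕ) (g : (Fin L → Bool) → ℝ) : ∫ ω, g (fun i : Fin L => ω i) ∂PP = (∑ e, g e) / 2 ^ L := by
  rw [← nu_av, ← PP_restrict, integral_map]
  · exact (measurable_pi_iff.2 fun i => measurable_pi_apply _).aemeasurable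
  · exact (measurable_of_finite g).aestronglyMeasurable

lemma PP_block (m K : ℕ) (hK : 1 ≤ K) :
    PP.map (fun ω (i : Fin m) (k : Fin K) => ω (i * K + k)) = Measure.pi (fun _ : Fin m => nu K) := by
  have hinj : Function.Injective (fun p : Fin m × Fin K => (p.1 : ℕ) * K + p.2) := by
    rintro ⟨i, k⟩ ⟨i', k'⟩ h
    simp only at h
    have h1 : (i : ℕ) = i' := by
      have e1 : ((i : ℕ) * K + k) / K = i := by
        rw [mul_comm, Nat.mul_add_div hK, Nat.div_eq_of_lt k.2, add_zero]
      have e2 : ((i' : ℕ) * K + k') / K = i' := by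
        rw [mul_comm, Nat.mul_add_div hK, Nat.div_eq_of_lt k'.2, add_zero]
      rw [← e1, ← e2, h]
    rw [h1] at h
    have h2 : (k : ℕ) = k' := by omega
    rw [Prod.mk.injEq]
    exact ⟨Fin.ext h1, Fin.ext h2⟩
  have h := PP_inj _ hinj
  have hm1 : Measurable (fun (ω : ℕ → Bool) (i : Fin m) (k : Fin K) => ω (i * K + k)) :=
    measurable_pi_iff.2 fun i => measurable_pi_iff.2 fun k => measurable_pi_apply _
  have hm2 : Measurable (fun (ω : ℕ → Bool) (p : Fin m × Fin K) => ω (p.1 * K + p.2)) :=
    measurable_pi_iff.2 fun p => measurable_pi_apply _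
  apply Measure.ext_of_singleton
  intro w
  rw [Measure.map_apply hm1 (measurableSet_singleton _), Measure.pi_singleton]
  have e1 : (fun (ω : ℕ → Bool) (i : Fin m) (k : Fin K) => ω (i * K + k)) ⁻¹' {w} =
      (fun (ω : ℕ → Bool) (p : Fin m × Fin K) => ω (p.1 * K + p.2)) ⁻¹' {fun p => w p.1 p.2} := by
    ext ω
    simp only [Set.mem_preimage, Set.mem_singleton_iff]
    constructor
    · intro h
      funext p
      rw [← h]
    · intro h
      funext i k
      exact congrFun h (i, k)
  rw [e1, ← Measure.map_apply hm2 (measurableSet_singleton _), h, Measure.pi_singleton]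
  simp only [nu_singleton, cn_singleton]
  rw [prod_const, prod_const, card_univ, card_univ, Fintype.card_prod, Fintype.card_fin, Fintype.card_fin, ← pow_mul, mul_comm]

/-- the walk -/
noncomputable def Wlk (j : ℕ) (ω : ℕ → Bool) : ℝ := ∑ k ∈ range j, Pool.Agent.H46.CO.sg (ω k)

lemma meas_sg : Measurable Pool.Agent.H46.CO.sg := measurable_of_finite _

lemma meas_Wlk (j : ℕ) : Measurable (Wlk j) := by
  unfold Wlk
  exact Finset.measurable_sum _ fun k _ => meas_sg.comp (measurable_pi_apply k)

lemma wk_Wlk {L j : ℕ} (hj : j ≤ L) (ω : ℕ → Bool) : wk (fun i : Fin L => ω i) j = Wlk j ω := by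
  unfold wk Wlk
  rw [Fin.sum_univ_eq_sum_range (fun i => if i < j then Pool.Agent.H46.CO.sg (ω i) else 0) L, ← Finset.sum_filter]
  apply sum_congr _ fun _ _ => rfl
  ext k
  simp only [mem_filter, mem_range]
  omega

lemma Wlk_add (i j : ℕ) (ω : ℕ → Bool) : Wlk (i + j) ω = Wlk i ω + ∑ k ∈ range j, Pool.Agent.H46.CO.sg (ω (i + k)) := by
  unfold Wlk
  rw [Finset.sum_range_add]

/-! ### the central limit theorem -/

lemma indepX : iIndepFun (fun k (ω : ℕ → Bool) => Pool.Agent.H46.CO.sg (ω k)) PP := by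
  unfold PP
  exact iIndepFun_infinitePi (X := fun _ b => Pool.Agent.H46.CO.sg b) (fun _ => meas_sg)

lemma map_evalX (i : ℕ) : PP.map (fun ω => ω i) = cn := by
  unfold PP
  exact Measure.infinitePi_map_eval (μ := fun _ : ℕ => cn) i

lemma identX (i : ℕ) : IdentDistrib (fun ω : ℕ → Bool => Pool.Agent.H46.CO.sg (ω i)) (fun ω => Pool.Agent.H46.CO.sg (ω 0)) PP PP := by
  refine ⟨(meas_sg.comp (measurable_pi_apply i)).aemeasurable, (meas_sg.comp (measurable_pi_apply 0)).aemeasurable, ?_⟩
  have e : ∀ i, PP.map (fun ω : ℕ → Bool => Pool.Agent.H46.CO.sg (ω i)) = cn.map Pool.Agent.H46.CO.sg := by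
    intro i
    rw [← map_evalX i, Measure.map_map meas_sg (measurable_pi_apply i)]
    rfl
  rw [e, e]

lemma meanX : ∫ ω, Pool.Agent.H46.CO.sg (ω 0) ∂PP = 0 := by
  have h : ∫ b, Pool.Agent.H46.CO.sg b ∂cn = 0 := by
    rw [integral_cn]
    simp [Pool.Agent.H46.CO.sg]
  rw [← h, ← map_evalX 0, integral_map (measurable_pi_apply 0).aemeasurable meas_sg.aestronglyMeasurable]

lemma varX : ∫ ω, ((fun ω : ℕ → Bool => Pool.Agent.H46.CO.sg (ω 0)) ^ 2) ω ∂PP = 1 := by
  have h : ∫ b, (Pool.Agent.H46.CO.sg b) ^ 2 ∂cn = 1 := by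
    rw [integral_cn]
    simp [Pool.Agent.H46.CO.sg]
  rw [← h, ← map_evalX 0, integral_map (measurable_pi_apply 0).aemeasurable (meas_sg.pow_const 2).aestronglyMeasurable]
  rfl

/-- the law of the end of the walk -/
noncomputable def lam (K : ℕ) : ProbabilityMeasure ℝ :=
  ⟨(nu K).map (fun e => (Real.sqrt K)⁻¹ * wk e K), Measure.isProbabilityMeasure_map (measurable_of_finite _).aemeasurable⟩

/-- the normal law -/
noncomputable def gam : ProbabilityMeasure ℝ := ⟨gaussianReal 0 1, inferInstance⟩

lemma lam_tendsto : Tendsto lam atTop (𝓝 gam) := by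
  have h := (tendstoInDistribution_inv_sqrt_mul_sum (X := fun k (ω : ℕ → Bool) => Pool.Agent.H46.CO.sg (ω k)) (P := PP)
    (Y := (id : ℝ → ℝ)) (P' := gaussianReal 0 1) HasLaw.id meanX varX indepX identX).tendsto
  have e2 : (⟨(gaussianReal 0 1).map id, Measure.isProbabilityMeasure_map aemeasurable_id⟩ : ProbabilityMeasure ℝ) = gam := by
    apply Subtype.ext
    show (gaussianReal 0 1).map id = gaussianReal 0 1
    exact Measure.map_id
  rw [← e2]
  refine h.congr fun n => ?_
  apply Subtype.ext
  show PP.map (fun ω : ℕ → Bool => (Real.sqrt n)⁻¹ * ∑ k ∈ range n, Pool.Agent.H46.CO.sg (ω k)) =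
    (nu n).map (fun e => (Real.sqrt n)⁻¹ * wk e n)
  have hm : Measurable (fun (ω : ℕ → Bool) (i : Fin n) => ω i) := measurable_pi_iff.2 fun i => measurable_pi_apply _
  have hm' : Measurable (fun e : Fin n → Bool => (Real.sqrt n)⁻¹ * wk e n) := measurable_of_finite _
  rw [← PP_restrict, Measure.map_map hm' hm]
  congr 1
  funext ω
  simp only [Function.comp_apply]
  rw [wk_Wlk le_rfl]
  rfl

/-- the normalised increments of the walk over the blocks of length `K` -/
noncomputable def blk (m K : ℕ) (ω : ℕ → Bool) : Fin m → ℝ :=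
  fun i => (Real.sqrt K)⁻¹ * (Wlk (i * K + K) ω - Wlk (i * K) ω)

lemma meas_blk (m K : ℕ) : Measurable (blk m K) :=
  measurable_pi_iff.2 fun i => ((meas_Wlk _).sub (meas_Wlk _)).const_mul _

lemma blk_law (m K : ℕ) (hK : 1 ≤ K) :
    PP.map (blk m K) = (ProbabilityMeasure.pi (fun _ : Fin m => lam K)).toMeasure := by
  rw [ProbabilityMeasure.toMeasure_pi]
  show PP.map (blk m K) = Measure.pi (fun _ : Fin m => (nu K).map (fun e => (Real.sqrt K)⁻¹ * wk e K))
  have hm : Measurable (fun (ω : ℕ → Bool) (i : Fin m) (k : Fin K) => ω (i * K + k)) :=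
    measurable_pi_iff.2 fun i => measurable_pi_iff.2 fun k => measurable_pi_apply _
  have hm' : Measurable (fun (x : Fin m → Fin K → Bool) (i : Fin m) => (Real.sqrt K)⁻¹ * wk (x i) K) := measurable_of_finite _
  rw [← Measure.pi_map_pi (fun _ => (measurable_of_finite _).aemeasurable), ← PP_block m K hK, Measure.map_map hm' hm]
  congr 1
  funext ω i
  simp only [Function.comp_apply]
  unfold blk
  rw [Wlk_add, add_sub_cancel_left]
  congr 1
  have h := wk_Wlk (L := K) le_rfl (fun k => ω (i * K + k))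
  rw [h]
  rfl

/-- **convergence of the blocks** -/
lemma blk_tendsto (m : ℕ) (G : BoundedContinuousFunction (Fin m → ℝ) ℝ) :
    Tendsto (fun K : ℕ => ∫ ω, G (blk m K ω) ∂PP) atTop (𝓝 (∫ x, G x ∂(Measure.pi fun _ : Fin m => gaussianReal 0 1))) := by
  have h1 : Tendsto (fun K => ProbabilityMeasure.pi (fun _ : Fin m => lam K)) atTop (𝓝 (ProbabilityMeasure.pi (fun _ : Fin m => gam))) := by
    have hc := ProbabilityMeasure.continuous_pi (α := fun _ : Fin m => ℝ)
    have h2 : Tendsto (fun K => (fun _ : Fin m => lam K)) atTop (𝓝 (fun _ : Fin m => gam)) :=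
      tendsto_pi_nhds.2 fun _ => lam_tendsto
    exact (hc.tendsto _).comp h2
  have h3 := (ProbabilityMeasure.tendsto_iff_forall_integral_tendsto.1 h1) G
  refine h3.congr' ?_
  filter_upwards [eventually_ge_atTop 1] with K hK
  rw [← blk_law m K hK, integral_map (meas_blk m K).aemeasurable G.continuous.aestronglyMeasurable]

end Pool.Agent.H60.IP
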