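import Pool.Agent.H60.IP.Don1
import Mathlib.Probability.BrownianMotion.Basic

/-!
# Step functions, Lipschitz functionals, Brownian motion
-/

set_option autoImplicit false

namespace Pool.Agent.H60.IP

open Finset Filter Topology MeasureTheory ProbabilityTheory
open scoped NNReal

/-- step functions -/
noncomputable def stp (m : ℕ) (x : Fin m → ℝ) (t : ℝ) : ℝ :=
  (√(m : ℝ))⁻¹ * ∑ i : Fin m, if ((i : ℕ) : ℝ) + 1 ≤ t * m then x i else 0

/-- bounded Lipschitz functionals for the maximum norm on `[0, ∞)` -/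
def LF (F : (ℝ → ℝ) → ℝ) : Prop :=
  (∀ f, |F f| ≤ 1) ∧ ∀ (f g : ℝ → ℝ) (r : ℝ), (∀ t, 0 ≤ t → |f t - g t| ≤ r) → |F f - F g| ≤ r

lemma inv_sqrt_le (m : ℕ) : (√(m : ℝ))⁻¹ ≤ 1 := by
  rcases Nat.eq_zero_or_pos m with h | h
  · rw [h]; simp
  · apply inv_le_one_of_one_le₀
    rw [Real.one_le_sqrt]
    exact_mod_cast h

lemma stp_dist (m : ℕ) (x y : Fin m → ℝ) (t : ℝ) : |stp m x t - stp m y t| ≤ m * dist x y := by
  unfold stp
  rw [← mul_sub, ← sum_sub_distrib, abs_mul, abs_of_nonneg (by positivity : 0 ≤ (√(m : ℝ))⁻¹)]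
  have h1 : |∑ i : Fin m, ((if ((i : ℕ) : ℝ) + 1 ≤ t * m then x i else 0) - (if ((i : ℕ) : ℝ) + 1 ≤ t * m then y i else 0))| ≤
      ∑ i : Fin m, dist x y := by
    refine (abs_sum_le_sum_abs _ _).trans (sum_le_sum fun i _ => ?_)
    split_ifs
    · rw [← Real.dist_eq]
      exact dist_le_pi_dist x y i
    · rw [sub_zero, abs_zero]
      exact dist_nonneg
  rw [sum_const, card_univ, Fintype.card_fin, nsmul_eq_mul] at h1
  have h2 := inv_sqrt_le m
  have h3 : 0 ≤ (√(m : ℝ))⁻¹ := by positivity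
  have h4 : 0 ≤ (m : ℝ) * dist x y := by positivity
  calc (√(m : ℝ))⁻¹ * |∑ i : Fin m, ((if ((i : ℕ) : ℝ) + 1 ≤ t * m then x i else 0) - (if ((i : ℕ) : ℝ) + 1 ≤ t * m then y i else 0))|
      ≤ 1 * (m * dist x y) := mul_le_mul h2 h1 (abs_nonneg _) zero_le_one
    _ = m * dist x y := one_mul _

lemma G_cont {F : (ℝ → ℝ) → ℝ} (hF : LF F) (m : ℕ) : Continuous (fun x : Fin m → ℝ => F (stp m x)) := by
  rw [Metric.continuous_iff]
  intro y ε hε
  refine ⟨ε / (m + 1), by positivity, fun x hx => ?_⟩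
  have h1 := hF.2 (stp m x) (stp m y) (m * dist x y) (fun t _ => stp_dist m x y t)
  rw [Real.dist_eq]
  refine lt_of_le_of_lt h1 ?_
  rw [lt_div_iff₀ (by positivity)] at hx
  have h2 : 0 ≤ dist x y := dist_nonneg
  linarith

/-- the bounded continuous function attached to a functional -/
noncomputable def Gb {F : (ℝ → ℝ) → ℝ} (hF : LF F) (m : ℕ) : BoundedContinuousFunction (Fin m → ℝ) ℝ :=
  BoundedContinuousFunction.ofNormedAddCommGroup (fun x => F (stp m x)) (G_cont hF m) 1 (fun x => by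
    rw [Real.norm_eq_abs]; exact hF.1 _)

lemma Gb_apply {F : (ℝ → ℝ) → ℝ} (hF : LF F) (m : ℕ) (x : Fin m → ℝ) : Gb hF m x = F (stp m x) := rfl

/-- telescoping -/
lemma tele (u : ℕ → ℝ) (m : ℕ) {t : ℝ} (ht : 0 ≤ t) :
    ∑ i : Fin m, (if ((i : ℕ) : ℝ) + 1 ≤ t * m then u ((i : ℕ) + 1) - u i else 0) = u (min ⌊t * m⌋₊ m) - u 0 := by
  rw [Fin.sum_univ_eq_sum_range (fun i => if ((i : ℕ) : ℝ) + 1 ≤ t * m then u (i + 1) - u i else 0) m, ← Finset.sum_filter]
  have e : (range m).filter (fun i : ℕ => ((i : ℕ) : ℝ) + 1 ≤ t * m) = range (min ⌊t * m⌋₊ m) := by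
    ext i
    rw [mem_filter, mem_range, mem_range, lt_min_iff]
    have h1 : ((i : ℕ) : ℝ) + 1 ≤ t * m ↔ i < ⌊t * m⌋₊ := by
      rw [← Nat.succ_le_iff, Nat.le_floor_iff (by positivity)]
      push_cast
      rfl
    rw [h1, and_comm]
  rw [e, Finset.sum_range_sub]

lemma stp_blk (m K : ℕ) (ω : ℕ → Bool) {t : ℝ} (ht : 0 ≤ t) :
    stp m (blk m K ω) t = (√(m : ℝ))⁻¹ * ((√(K : ℝ))⁻¹ * Wlk (min ⌊t * m⌋₊ m * K) ω) := by
  unfold stp blk
  congr 1
  have h1 := tele (fun i => (√(K : ℝ))⁻¹ * Wlk (i * K) ω) m ht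
  have h2 : (√(K : ℝ))⁻¹ * Wlk (0 * K) ω = 0 := by simp [Wlk]
  simp only [h2, sub_zero] at h1
  rw [← h1]
  apply sum_congr rfl
  intro i _
  split_ifs
  · rw [add_mul, one_mul]
    ring
  · rfl

/-! ### Brownian motion -/

variable {Ω : Type} [MeasurableSpace Ω] {P : Measure Ω} {B : ℝ≥0 → Ω → ℝ}

/-- normalised increments -/
noncomputable def bmx (B : ℝ≥0 → Ω → ℝ) (m : ℕ) (ω : Ω) : Fin m → ℝ :=
  fun i => √(m : ℝ) * (B (((i : ℕ) + 1 : ℕ) / (m : ℝ≥0)) ω - B ((i : ℕ) / (m : ℝ≥0)) ω)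

lemma bmx_law (hB : IsBrownianReal B P) {m : ℕ} (hm : 1 ≤ m) :
    AEMeasurable (bmx B m) P ∧ P.map (bmx B m) = Measure.pi (fun _ : Fin m => gaussianReal 0 1) := by
  have hm0 : (0 : ℝ) < m := by exact_mod_cast hm
  have hmono : Monotone (fun i : ℕ => (i : ℝ≥0) / (m : ℝ≥0)) := by
    intro i j hij
    show (i : ℝ≥0) / (m : ℝ≥0) ≤ (j : ℝ≥0) / (m : ℝ≥0)
    exact div_le_div_of_nonneg_right (by exact_mod_cast hij) (by positivity)
  have hind := (hB.toIsPreBrownianReal.hasIndepIncrements.nat hmono).precomp (Fin.val_injective (n := m))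
  have hind2 : iIndepFun (fun (i : Fin m) ω => bmx B m ω i) P := by
    have := hind.comp (fun _ x => √(m : ℝ) * x) (fun _ => measurable_const.mul measurable_id)
    exact this
  have hlaw : ∀ i : Fin m, HasLaw (fun ω => bmx B m ω i) (gaussianReal 0 1) P := by
    intro i
    have h1 := hB.toIsPreBrownianReal.hasLaw_sub (((i : ℕ) + 1 : ℕ) / (m : ℝ≥0)) ((i : ℕ) / (m : ℝ≥0))
    have h2 := gaussianReal_const_mul h1 (√(m : ℝ))
    have e : gaussianReal (√(m : ℝ) * 0) (NNReal.mk (√(m : ℝ) ^ 2) (sq_nonneg _) * nndist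
        ((((i : ℕ) + 1 : ℕ) / (m : ℝ≥0) : ℝ≥0) : ℝ) (((i : ℕ) / (m : ℝ≥0) : ℝ≥0) : ℝ)) = gaussianReal 0 1 := by
      rw [mul_zero]
      congr 1
      apply NNReal.eq
      rw [NNReal.coe_mul, coe_nndist, Real.dist_eq]
      push_cast
      show √(m : ℝ) ^ 2 * |((i : ℕ) + 1 : ℝ) / m - (i : ℕ) / m| = 1
      rw [Real.sq_sqrt hm0.le, ← sub_div, add_sub_cancel_left, abs_of_pos (by positivity)]
      field_simp
    rw [← e]
    exact h2
  have haem : ∀ i : Fin m, AEMeasurable (fun ω => bmx B m ω i) P := fun i => (hlaw i).aemeasurable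
  refine ⟨aemeasurable_pi_iff.2 haem, ?_⟩
  have h3 := hind2.map_fun_eq_pi_map haem
  show P.map (fun ω i => bmx B m ω i) = _
  rw [h3]
  congr 1
  funext i
  exact (hlaw i).map_eq

omit [MeasurableSpace Ω] in
lemma stp_bmx {m : ℕ} (hm : 1 ≤ m) (ω : Ω) {t : ℝ} (ht : 0 ≤ t) :
    stp m (bmx B m ω) t = B ((min ⌊t * m⌋₊ m : ℕ) / (m : ℝ≥0)) ω - B 0 ω := by
  have hm0 : (0 : ℝ) < √(m : ℝ) := Real.sqrt_pos.2 (by exact_mod_cast hm)
  unfold stp bmx
  have h1 := tele (fun i => B ((i : ℕ) / (m : ℝ≥0)) ω) m ht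
  simp only [Nat.cast_zero, zero_div] at h1
  rw [← h1, mul_sum]
  apply sum_congr rfl
  intro i _
  split_ifs
  · rw [← mul_assoc, inv_mul_cancel₀ hm0.ne', one_mul]
  · rw [mul_zero]

/-- **the step functions converge to the path** -/
lemma bm_tendsto (hB : IsBrownianReal B P) {F : (ℝ → ℝ) → ℝ} (hF : LF F) :
    Tendsto (fun m : ℕ => ∫ x, Gb hF m x ∂(Measure.pi fun _ : Fin m => gaussianReal 0 1)) atTop
      (𝓝 (∫ ω, F (fun t => B (Real.toNNReal (min t 1)) ω) ∂P)) := by
  have hprob : IsProbabilityMeasure P := hB.toIsPreBrownianReal.isGaussianProcess.isProbabilityMeasure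
  have h1 : Tendsto (fun m : ℕ => ∫ ω, Gb hF m (bmx B m ω) ∂P) atTop (𝓝 (∫ ω, F (fun t => B (Real.toNNReal (min t 1)) ω) ∂P)) := by
    apply tendsto_integral_filter_of_dominated_convergence (fun _ => (1 : ℝ))
    · filter_upwards [eventually_ge_atTop 1] with m hm
      exact ((Gb hF m).continuous.aestronglyMeasurable).comp_aemeasurable (bmx_law hB hm).1
    · refine Eventually.of_forall fun m => ae_of_all _ fun ω => ?_
      rw [Real.norm_eq_abs]
      exact hF.1 _
    · exact integrable_const _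
    · filter_upwards [hB.cont, hB.toIsPreBrownianReal.eval_zero_ae_eq_zero] with ω hc h0
      -- uniform continuity on `[0, 1]`
      have huc : UniformContinuousOn (fun s : ℝ≥0 => B s ω) (Set.Icc 0 1) :=
        isCompact_Icc.uniformContinuousOn_of_continuous hc.continuousOn
      rw [Metric.uniformContinuousOn_iff] at huc
      rw [Metric.tendsto_atTop]
      intro ε hε
      obtain ⟨d, hd, huc⟩ := huc (ε / 2) (by positivity)
      obtain ⟨M, hM⟩ := exists_nat_gt (1 / d)
      refine ⟨M + 1, fun m hm => ?_⟩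
      have hm1 : 1 ≤ m := by omega
      have hm0 : (0 : ℝ) < m := by exact_mod_cast hm1
      have hmd : 1 / (m : ℝ) < d := by
        have h2 : (M : ℝ) ≤ m := by exact_mod_cast (show M ≤ m by omega)
        rw [div_lt_iff₀ hm0]
        rw [div_lt_iff₀ hd] at hM
        nlinarith
      have hle : |F (stp m (bmx B m ω)) - F (fun t => B (Real.toNNReal (min t 1)) ω)| ≤ ε / 2 := by
        apply hF.2
        intro t ht
        have h0' : B 0 ω = 0 := h0
        rw [stp_bmx hm1 ω ht, h0', sub_zero]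
        have h5 := huc ((min ⌊t * m⌋₊ m : ℕ) / (m : ℝ≥0)) (by
          refine ⟨by positivity, ?_⟩
          rw [div_le_one (by exact_mod_cast hm1)]
          exact_mod_cast min_le_right _ _) (Real.toNNReal (min t 1)) (by
          refine ⟨by positivity, ?_⟩
          rw [Real.toNNReal_le_one]
          exact min_le_right _ _) (by
          rw [NNReal.dist_eq, Real.coe_toNNReal _ (le_min ht zero_le_one)]
          refine lt_of_le_of_lt ?_ hmd
          push_cast
          rcases le_or_gt 1 t with h6 | h6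
          · rw [min_eq_right h6]
            have h7 : (m : ℝ) ≤ (⌊t * m⌋₊ : ℝ) := by
              have : m ≤ ⌊t * m⌋₊ := Nat.le_floor (by nlinarith)
              exact_mod_cast this
            rw [min_eq_right h7, div_self hm0.ne', sub_self, abs_zero]
            positivity
          · rw [min_eq_left h6.le]
            have h7 := Nat.floor_le (show 0 ≤ t * m by positivity)
            have h8 := Nat.lt_floor_add_one (t * m)
            have h9 : (⌊t * m⌋₊ : ℝ) ≤ m := by nlinarith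
            rw [min_eq_left h9, abs_le]
            have e1 : t = t * m / m := by field_simp
            have e2 : (⌊t * m⌋₊ : ℝ) / m - t = ((⌊t * m⌋₊ : ℝ) - t * m) / m := by
              rw [sub_div, ← e1]
            rw [e2]
            constructor
            · rw [le_div_iff₀ hm0, neg_mul, one_div, inv_mul_cancel₀ hm0.ne']
              linarith
            · rw [div_le_div_iff_of_pos_right hm0]
              linarith)
        rw [Real.dist_eq] at h5
        exact h5.le
      rw [Real.dist_eq]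
      exact lt_of_le_of_lt hle (by linarith)
  refine h1.congr' ?_
  filter_upwards [eventually_ge_atTop 1] with m hm
  obtain ⟨h2, h3⟩ := bmx_law hB hm
  rw [← h3, integral_map h2 (Gb hF m).continuous.aestronglyMeasurable]

end Pool.Agent.H60.IP
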