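import Pool.Agent.H60.IP.Don2

/-!
# Donsker's theorem for the simple random walk
-/

set_option autoImplicit false

namespace Pool.Agent.H60.IP

open Pool.Agent.H46.CO Finset Filter Topology MeasureTheory ProbabilityTheory
open scoped NNReal

lemma wk_min {L : ℕ} (e : Fin L → Bool) (j : ℕ) : wk e j = wk e (min j L) := by
  unfold wk
  apply sum_congr rfl
  intro i _
  have h : ((i : ℕ) < j) ↔ ((i : ℕ) < min j L) := by
    have := i.2
    omega
  by_cases h1 : (i : ℕ) < j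
  · rw [if_pos h1, if_pos (h.1 h1)]
  · rw [if_neg h1, if_neg (fun h2 => h1 (h.2 h2))]

lemma wk_abs {L : ℕ} (e : Fin L → Bool) (j : ℕ) : |wk e j| ≤ j := by
  rcases le_or_gt j L with h | h
  · have h1 : ∀ i j : ℕ, i ≤ j → j ≤ L → |wk e j - wk e i| ≤ (j - i : ℕ) := by
      intro i j hij hj
      have e1 : wk e j - wk e i = ∑ x : Fin L, if i ≤ (x : ℕ) ∧ (x : ℕ) < j then Pool.Agent.H46.CO.sg (e x) else 0 := by
        unfold wk
        rw [← sum_sub_distrib]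
        apply sum_congr rfl
        intro x _
        by_cases h1 : (x : ℕ) < i
        · rw [if_pos (by omega), if_pos h1, if_neg (by omega), sub_self]
        · by_cases h2 : (x : ℕ) < j
          · rw [if_pos h2, if_neg h1, if_pos ⟨by omega, h2⟩, sub_zero]
          · rw [if_neg h2, if_neg h1, if_neg (by omega), sub_zero]
      rw [e1]
      refine (abs_sum_le_sum_abs _ _).trans ?_
      have h2 : ∀ x ∈ (univ : Finset (Fin L)), |if i ≤ (x : ℕ) ∧ (x : ℕ) < j then Pool.Agent.H46.CO.sg (e x) else 0| ≤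
          if i ≤ (x : ℕ) ∧ (x : ℕ) < j then (1 : ℝ) else 0 := by
        intro x _
        split_ifs
        · rw [sg_abs]
        · rw [abs_zero]
      refine (sum_le_sum h2).trans ?_
      rw [Fin.sum_univ_eq_sum_range (fun x => if i ≤ x ∧ x < j then (1 : ℝ) else 0) L, ← sum_filter, sum_const, nsmul_eq_mul, mul_one]
      have h3 : (range L).filter (fun x => i ≤ x ∧ x < j) ⊆ Ico i j := by
        intro x hx
        rw [mem_filter] at hx
        rw [mem_Ico]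
        exact hx.2
      have h4 := card_le_card h3
      rw [Nat.card_Ico] at h4
      exact_mod_cast h4
    have := h1 0 j (Nat.zero_le _) h
    rwa [wk_zero, sub_zero, Nat.sub_zero] at this
  · rw [wk_min, min_eq_right h.le]
    have h1 : |wk e L| ≤ L := by
      unfold wk
      refine (abs_sum_le_sum_abs _ _).trans ?_
      have h2 : ∀ x ∈ (univ : Finset (Fin L)), |if (x : ℕ) < L then Pool.Agent.H46.CO.sg (e x) else 0| ≤ (1 : ℝ) := by
        intro x _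
        rw [if_pos x.2, sg_abs]
      refine (sum_le_sum h2).trans ?_
      rw [sum_const, card_univ, Fintype.card_fin, nsmul_eq_mul, mul_one]
    have h2 : (L : ℝ) ≤ j := by exact_mod_cast h.le
    linarith

lemma scale_err {q L : ℝ} (hq : 0 < q) (hqL : q ≤ L) : q * |1 / √L - 1 / √q| ≤ (L - q) / √L := by
  have hL : 0 < L := lt_of_lt_of_le hq hqL
  have h1 : 0 < √q := Real.sqrt_pos.2 hq
  have h2 : 0 < √L := Real.sqrt_pos.2 hL
  have h3 : √q ≤ √L := Real.sqrt_le_sqrt hqL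
  have h4 := Real.mul_self_sqrt hq.le
  have h5 := Real.mul_self_sqrt hL.le
  obtain ⟨a, ha⟩ : ∃ a, a = √q := ⟨_, rfl⟩
  obtain ⟨b, hb⟩ : ∃ b, b = √L := ⟨_, rfl⟩
  rw [← ha] at h1 h3 h4 ⊢
  rw [← hb] at h2 h3 h5 ⊢
  rw [← h4, ← h5]
  have h6 : 1 / b - 1 / a = -((b - a) / (a * b)) := by field_simp; ring
  rw [h6, abs_neg, abs_of_nonneg (div_nonneg (by linarith) (by positivity))]
  have h7 : a * a * ((b - a) / (a * b)) = a * (b - a) / b := by field_simp
  rw [h7]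
  apply div_le_div_of_nonneg_right _ h2.le
  nlinarith

lemma idx {m L : ℕ} (hm : 1 ≤ m) (hK : m ≤ L / m) {t : ℝ} (ht : 0 ≤ t) :
    min ⌊t * m⌋₊ m * (L / m) ≤ min ⌊t * L⌋₊ L ∧ min ⌊t * L⌋₊ L ≤ min ⌊t * m⌋₊ m * (L / m) + 2 * (L / m) := by
  obtain ⟨K, hKd⟩ : ∃ K, K = L / m := ⟨_, rfl⟩
  rw [← hKd] at hK ⊢
  have h1 : m * K ≤ L := by rw [hKd]; exact Nat.mul_div_le L m
  have h2 : L < m * K + m := by rw [hKd]; exact Nat.lt_mul_div_succ L (by omega)
  have hm0 : (0 : ℝ) < m := by exact_mod_cast hm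
  have hmK : (m : ℝ) ≤ K := by exact_mod_cast hK
  have h1' : (m : ℝ) * K ≤ L := by exact_mod_cast h1
  have h2' : (L : ℝ) ≤ m * K + m := by exact_mod_cast h2.le
  rcases le_or_gt 1 t with h3 | h3
  · have h4 : m ≤ ⌊t * m⌋₊ := Nat.le_floor (by nlinarith)
    have h5 : L ≤ ⌊t * L⌋₊ := Nat.le_floor (by have : (0 : ℝ) ≤ L := Nat.cast_nonneg _; nlinarith)
    rw [min_eq_right h4, min_eq_right h5]
    omega
  · have hL0 : (0 : ℝ) ≤ L := Nat.cast_nonneg _
    have h4 : ⌊t * m⌋₊ ≤ m := by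
      have h5 := Nat.floor_le (show 0 ≤ t * m by positivity)
      have h6 : (⌊t * m⌋₊ : ℝ) ≤ m := by nlinarith
      exact_mod_cast h6
    have h5 : ⌊t * L⌋₊ ≤ L := by
      have h5 := Nat.floor_le (show 0 ≤ t * L by positivity)
      have h6 : (⌊t * L⌋₊ : ℝ) ≤ L := by nlinarith
      exact_mod_cast h6
    rw [min_eq_left h4, min_eq_left h5]
    have h6 := Nat.floor_le (show 0 ≤ t * m by positivity)
    have h7 := Nat.lt_floor_add_one (t * m)
    have h8 := Nat.floor_le (show 0 ≤ t * L by positivity)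
    have hK0 : (0 : ℝ) ≤ K := Nat.cast_nonneg _
    constructor
    · apply Nat.le_floor
      push_cast
      calc (⌊t * m⌋₊ : ℝ) * K ≤ t * m * K := mul_le_mul_of_nonneg_right h6 hK0
        _ = t * (m * K) := by ring
        _ ≤ t * L := mul_le_mul_of_nonneg_left h1' ht
    · have h9 : (⌊t * L⌋₊ : ℝ) ≤ (⌊t * m⌋₊ : ℝ) * K + 2 * K := by
        calc (⌊t * L⌋₊ : ℝ) ≤ t * L := h8
          _ ≤ t * (m * K + m) := mul_le_mul_of_nonneg_left h2' ht
          _ = t * m * K + t * m := by ring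
          _ ≤ (⌊t * m⌋₊ + 1) * K + K := by
            have h10 := mul_le_mul_of_nonneg_right h7.le hK0
            have h11 : t * m ≤ K := by nlinarith
            linarith
          _ = (⌊t * m⌋₊ : ℝ) * K + 2 * K := by ring
      exact_mod_cast h9

/-- the functional of a walk -/
noncomputable def Fw (F : (ℝ → ℝ) → ℝ) {L : ℕ} (e : Fin L → Bool) : ℝ := F (fun t => wk e ⌊t * L⌋₊ / √(L : ℝ))

/-- the walk and its step function -/
lemma walk_stp {F : (ℝ → ℝ) → ℝ} (hF : LF F) {m L : ℕ} (hm : 1 ≤ m) (hK : m ≤ L / m) {η : ℝ} (ω : ℕ → Bool)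
    (h : ¬ Osc (2 * (L / m)) (η * √(L : ℝ)) (fun i : Fin L => ω i)) :
    |Fw F (fun i : Fin L => ω i) - F (stp m (blk m (L / m) ω))| ≤ m / √(L : ℝ) + 2 * η := by
  apply hF.2
  intro t ht
  obtain ⟨K, hKd⟩ : ∃ K, K = L / m := ⟨_, rfl⟩
  obtain ⟨h1, h2⟩ := idx hm hK ht
  rw [← hKd] at hK h h1 h2 ⊢
  have h3 : m * K ≤ L := by rw [hKd]; exact Nat.mul_div_le L m
  have h4 : L < m * K + m := by rw [hKd]; exact Nat.lt_mul_div_succ L (by omega)
  have hK1 : 1 ≤ K := hm.trans hK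
  have hq0 : (0 : ℝ) < (m : ℝ) * K := by
    have : 0 < m * K := Nat.mul_pos hm hK1
    exact_mod_cast this
  have hqL : (m : ℝ) * K ≤ L := by exact_mod_cast h3
  have hL0 : (0 : ℝ) < L := lt_of_lt_of_le hq0 hqL
  have hsL : 0 < √(L : ℝ) := Real.sqrt_pos.2 hL0
  rw [stp_blk m K ω ht, wk_min]
  obtain ⟨l, hl⟩ : ∃ l, l = min ⌊t * m⌋₊ m := ⟨_, rfl⟩
  obtain ⟨j, hj⟩ : ∃ j, j = min ⌊t * L⌋₊ L := ⟨_, rfl⟩
  rw [← hl, ← hj] at h1 h2
  rw [← hl, ← hj]
  have hjL : j ≤ L := by rw [hj]; exact min_le_right _ _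
  have hlm : l ≤ m := by rw [hl]; exact min_le_right _ _
  rw [← wk_Wlk (h1.trans hjL)]
  obtain ⟨e, he⟩ : ∃ e : Fin L → Bool, e = fun i : Fin L => ω i := ⟨_, rfl⟩
  rw [← he] at h ⊢
  have h5 := modulus (by omega) h h1 hjL (by omega)
  have h6 := wk_abs e (l * K)
  have h7 : ((l * K : ℕ) : ℝ) ≤ m * K := by
    push_cast
    exact mul_le_mul_of_nonneg_right (by exact_mod_cast hlm) (Nat.cast_nonneg _)
  have e1 : (√(m : ℝ))⁻¹ * ((√(K : ℝ))⁻¹ * wk e (l * K)) = wk e (l * K) * (1 / √((m : ℝ) * K)) := by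
    rw [Real.sqrt_mul (Nat.cast_nonneg _), one_div, mul_inv]
    ring
  have e2 : wk e j / √(L : ℝ) - (√(m : ℝ))⁻¹ * ((√(K : ℝ))⁻¹ * wk e (l * K)) =
      (wk e j - wk e (l * K)) / √(L : ℝ) + wk e (l * K) * (1 / √(L : ℝ) - 1 / √((m : ℝ) * K)) := by
    rw [e1]
    ring
  rw [e2]
  refine (abs_add_le _ _).trans ?_
  rw [abs_div, abs_of_pos hsL, abs_mul]
  have h8 : |wk e j - wk e (l * K)| / √(L : ℝ) ≤ 2 * η := by
    rw [div_le_iff₀ hsL]
    linarith
  have h9 : |wk e (l * K)| * |1 / √(L : ℝ) - 1 / √((m : ℝ) * K)| ≤ m / √(L : ℝ) := by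
    calc |wk e (l * K)| * |1 / √(L : ℝ) - 1 / √((m : ℝ) * K)| ≤ (m * K) * |1 / √(L : ℝ) - 1 / √((m : ℝ) * K)| :=
          mul_le_mul_of_nonneg_right (h6.trans h7) (abs_nonneg _)
      _ ≤ (L - m * K) / √(L : ℝ) := scale_err hq0 hqL
      _ ≤ m / √(L : ℝ) := by
        apply div_le_div_of_nonneg_right _ hsL.le
        have : (L : ℝ) ≤ m * K + m := by exact_mod_cast h4.le
        linarith
  linarith

lemma osc_prob {m L : ℕ} (hm : 1 ≤ m) (hK : m ≤ L / m) {η : ℝ} (hη : 0 < η) :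
    np L (Osc (2 * (L / m)) (η * √(L : ℝ))) / 2 ^ L ≤ 2 * (m + 1) * Real.exp (-(η ^ 2 * m / 8)) := by
  obtain ⟨K, hKd⟩ : ∃ K, K = L / m := ⟨_, rfl⟩
  rw [← hKd] at hK ⊢
  have h3 : m * K ≤ L := by rw [hKd]; exact Nat.mul_div_le L m
  have h4 : L < m * K + m := by rw [hKd]; exact Nat.lt_mul_div_succ L (by omega)
  have hK1 : 1 ≤ K := hm.trans hK
  have hK0 : (0 : ℝ) < K := by exact_mod_cast hK1
  have hm0 : (0 : ℝ) < m := by exact_mod_cast hm
  have hq0 : (0 : ℝ) < (m : ℝ) * K := by positivity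
  have hqL : (m : ℝ) * K ≤ L := by exact_mod_cast h3
  have hL0 : (0 : ℝ) < L := lt_of_lt_of_le hq0 hqL
  have hsL : 0 < √(L : ℝ) := Real.sqrt_pos.2 hL0
  have h5 := np_osc (Λ := 2 * K) (by omega) (c := η * √(L : ℝ)) (by positivity) L
  rw [div_le_iff₀ (by positivity)]
  refine h5.trans ?_
  have h6 : (L : ℝ) / ((2 * K : ℕ) : ℝ) + 1 ≤ m + 1 := by
    have h7 : (L : ℝ) ≤ m * K + m := by exact_mod_cast h4.le
    have h8 : (m : ℝ) ≤ m * K := by
      have : (1 : ℝ) ≤ K := by exact_mod_cast hK1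
      nlinarith
    push_cast
    have : (L : ℝ) / (2 * K) ≤ m := by
      rw [div_le_iff₀ (by positivity)]
      linarith
    linarith
  have h7 : Real.exp (-((η * √(L : ℝ)) ^ 2 / (4 * ((2 * K : ℕ) : ℝ)))) ≤ Real.exp (-(η ^ 2 * m / 8)) := by
    apply Real.exp_le_exp.2
    apply neg_le_neg
    rw [mul_pow, Real.sq_sqrt hL0.le]
    push_cast
    rw [le_div_iff₀ (by positivity)]
    have : η ^ 2 * (m * K) ≤ η ^ 2 * L := mul_le_mul_of_nonneg_left hqL (by positivity)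
    linarith
  calc ((L : ℝ) / ((2 * K : ℕ) : ℝ) + 1) * (2 ^ L * (2 * Real.exp (-((η * √(L : ℝ)) ^ 2 / (4 * ((2 * K : ℕ) : ℝ))))))
      ≤ (m + 1) * (2 ^ L * (2 * Real.exp (-(η ^ 2 * m / 8)))) := by
        apply mul_le_mul h6 _ (by positivity) (by positivity)
        apply mul_le_mul_of_nonneg_left _ (by positivity)
        linarith
    _ = 2 * (m + 1) * Real.exp (-(η ^ 2 * m / 8)) * 2 ^ L := by ring

/-- the average over the walks and the integral of the step functions -/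
lemma av_stp {F : (ℝ → ℝ) → ℝ} (hF : LF F) {m L : ℕ} (hm : 1 ≤ m) (hK : m ≤ L / m) {η : ℝ} (hη : 0 < η) :
    |(∑ e : Fin L → Bool, Fw F e) / 2 ^ L - ∫ ω, Gb hF m (blk m (L / m) ω) ∂PP| ≤
      m / √(L : ℝ) + 2 * η + 4 * (m + 1) * Real.exp (-(η ^ 2 * m / 8)) := by
  classical
  rw [← PP_av L (Fw F)]
  have hmr : Measurable (fun (ω : ℕ → Bool) (i : Fin L) => ω i) := measurable_pi_iff.2 fun i => measurable_pi_apply _
  have hbd : ∀ (g : (Fin L → Bool) → ℝ), Integrable (fun ω : ℕ → Bool => g (fun i : Fin L => ω i)) PP := by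
    intro g
    have h1 : AEStronglyMeasurable (fun ω : ℕ → Bool => g (fun i : Fin L => ω i)) PP :=
      ((measurable_of_finite g).comp hmr).aestronglyMeasurable
    obtain ⟨C, hC⟩ : ∃ C : ℝ, ∀ e, ‖g e‖ ≤ C := by
      refine ⟨∑ e, ‖g e‖, fun e => ?_⟩
      exact single_le_sum (f := fun e => ‖g e‖) (fun _ _ => norm_nonneg _) (mem_univ e)
    exact Integrable.of_bound h1 C (ae_of_all _ fun ω => hC _)
  have hint1 := hbd (Fw F)
  have hint2 : Integrable (fun ω => Gb hF m (blk m (L / m) ω)) PP := by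
    apply Integrable.of_bound (((Gb hF m).continuous.measurable.comp (meas_blk m (L / m))).aestronglyMeasurable) 1
    exact ae_of_all _ fun ω => by rw [Real.norm_eq_abs]; exact hF.1 _
  rw [← integral_sub hint1 hint2]
  obtain ⟨h, hh⟩ : ∃ h : (Fin L → Bool) → ℝ, h = fun e => if Osc (2 * (L / m)) (η * √(L : ℝ)) e then 2 else 0 := ⟨_, rfl⟩
  have h1 : ∀ ω : ℕ → Bool, ‖Fw F (fun i : Fin L => ω i) - Gb hF m (blk m (L / m) ω)‖ ≤
      (m / √(L : ℝ) + 2 * η) + h (fun i : Fin L => ω i) := by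
    intro ω
    rw [Real.norm_eq_abs, Gb_apply, hh]
    by_cases h2 : Osc (2 * (L / m)) (η * √(L : ℝ)) (fun i : Fin L => ω i)
    · simp only [if_pos h2]
      have h3 := abs_sub (Fw F (fun i : Fin L => ω i)) (F (stp m (blk m (L / m) ω)))
      have h4 : |Fw F (fun i : Fin L => ω i)| ≤ 1 := hF.1 _
      have h5 := hF.1 (stp m (blk m (L / m) ω))
      have h6 : 0 ≤ m / √(L : ℝ) + 2 * η := by positivity
      linarith
    · simp only [if_neg h2]
      rw [add_zero]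
      exact walk_stp hF hm hK ω h2
  have h2 := norm_integral_le_of_norm_le (((integrable_const (μ := PP) (m / √(L : ℝ) + 2 * η)).add (hbd h))) (ae_of_all _ h1)
  rw [Real.norm_eq_abs] at h2
  refine h2.trans ?_
  have h3 : ∫ ω : ℕ → Bool, ((m / √(L : ℝ) + 2 * η) + h (fun i : Fin L => ω i)) ∂PP =
      (m / √(L : ℝ) + 2 * η) + 2 * (np L (Osc (2 * (L / m)) (η * √(L : ℝ))) / 2 ^ L) := by
    rw [integral_add (integrable_const _) (hbd h), integral_const, PP_av, hh]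
    have h4 : ∑ e : Fin L → Bool, (if Osc (2 * (L / m)) (η * √(L : ℝ)) e then (2 : ℝ) else 0) =
        2 * np L (Osc (2 * (L / m)) (η * √(L : ℝ))) := by
      rw [← sum_filter, sum_const, nsmul_eq_mul, mul_comm, np_eq_card (Q := Osc (2 * (L / m)) (η * √(L : ℝ))) fun e => Iff.rfl]
    rw [h4]
    simp
    ring
  have h4 := osc_prob hm hK hη
  have e3 : (∫ ω : ℕ → Bool, ((fun _ : ℕ → Bool => m / √(L : ℝ) + 2 * η) + fun ω : ℕ → Bool => h (fun i : Fin L => ω i)) ω ∂PP) =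
      ∫ ω : ℕ → Bool, ((m / √(L : ℝ) + 2 * η) + h (fun i : Fin L => ω i)) ∂PP := rfl
  rw [e3, h3]
  linarith

variable {Ω : Type} [MeasurableSpace Ω] {P : Measure Ω} {B : ℝ≥0 → Ω → ℝ}

/-- **Donsker's theorem** -/
theorem donsker (hB : IsBrownianReal B P) {F : (ℝ → ℝ) → ℝ} (hF : LF F) :
    Tendsto (fun L : ℕ => (∑ e : Fin L → Bool, Fw F e) / 2 ^ L) atTop
      (𝓝 (∫ ω, F (fun t => B (Real.toNNReal (min t 1)) ω) ∂P)) := by
  rw [Metric.tendsto_atTop]
  intro ε hε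
  obtain ⟨η, hηd⟩ : ∃ η : ℝ, η = ε / 16 := ⟨_, rfl⟩
  have hη : 0 < η := by rw [hηd]; positivity
  obtain ⟨c, hc⟩ : ∃ c : ℝ, c = η ^ 2 / 8 := ⟨_, rfl⟩
  have hc0 : 0 < c := by rw [hc]; positivity
  have h1 := (bm_tendsto hB hF).eventually (Metric.ball_mem_nhds _ (show 0 < ε / 4 by positivity))
  obtain ⟨m, ⟨hm1, hm2⟩, hm3⟩ := ((h1.and (eventually_ge_atTop 1)).and
    ((tendsto_natCast_atTop_atTop (R := ℝ)).eventually_ge_atTop (128 / (c ^ 2 * ε)))).exists
  have hm0 : (0 : ℝ) < m := by exact_mod_cast hm2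
  have hexp : 4 * (m + 1) * Real.exp (-(η ^ 2 * m / 8)) ≤ ε / 8 := by
    have e1 : η ^ 2 * m / 8 = c * m := by rw [hc]; ring
    rw [e1, Real.exp_neg]
    have h2 := Real.quadratic_le_exp_of_nonneg (show 0 ≤ c * m by positivity)
    have h3 : (c * m) ^ 2 / 2 ≤ Real.exp (c * m) := by
      have : 0 ≤ c * m := by positivity
      linarith
    have h4 : (Real.exp (c * m))⁻¹ ≤ ((c * m) ^ 2 / 2)⁻¹ := inv_anti₀ (by positivity) h3
    have h5 : 4 * ((m : ℝ) + 1) * (Real.exp (c * m))⁻¹ ≤ 4 * (2 * m) * ((c * m) ^ 2 / 2)⁻¹ := by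
      apply mul_le_mul _ h4 (by positivity) (by positivity)
      have : (1 : ℝ) ≤ m := by exact_mod_cast hm2
      linarith
    refine h5.trans ?_
    have h6 : 4 * (2 * (m : ℝ)) * ((c * m) ^ 2 / 2)⁻¹ = 16 / (c ^ 2 * m) := by
      field_simp
      ring
    rw [h6, div_le_iff₀ (by positivity)]
    rw [div_le_iff₀ (by positivity)] at hm3
    nlinarith
  have hK : Tendsto (fun L : ℕ => L / m) atTop atTop := Nat.tendsto_div_const_atTop (by omega)
  have h2 := ((blk_tendsto m (Gb hF m)).comp hK).eventually (Metric.ball_mem_nhds _ (show 0 < ε / 4 by positivity))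
  have hsq : Tendsto (fun L : ℕ => √(L : ℝ)) atTop atTop := Real.tendsto_sqrt_atTop.comp tendsto_natCast_atTop_atTop
  obtain ⟨L0, hL0⟩ := eventually_atTop.1 ((h2.and (hK.eventually_ge_atTop m)).and (hsq.eventually_ge_atTop (16 * m / ε)))
  refine ⟨L0, fun L hL => ?_⟩
  obtain ⟨⟨h3, h4⟩, h5⟩ := hL0 L hL
  have h6 := av_stp hF hm2 h4 hη
  have hs0 : 0 < √(L : ℝ) := lt_of_lt_of_le (by positivity) h5
  have h7 : (m : ℝ) / √(L : ℝ) ≤ ε / 16 := by
    rw [div_le_iff₀ hs0]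
    rw [div_le_iff₀ hε] at h5
    linarith
  rw [Real.dist_eq] at h3 hm1 ⊢
  simp only [Function.comp_apply] at h3
  rw [abs_le] at h6
  rw [abs_lt] at h3 hm1 ⊢
  constructor <;> linarith [h6.1, h6.2, h3.1, h3.2, hm1.1, hm1.2]

end Pool.Agent.H60.IP
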