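import Pool.Agent.H60.IP.Don3

/-!
# From the sets of paths to the functionals of paths
-/

set_option autoImplicit false

namespace Pool.Agent.H60.IP

open Pool.Agent.H320R2.PD Pool.Agent.H499R2.ND Pool.Agent.H46.CO Finset Filter Topology

open Pool.Agent.H319R2.Lln (mu)

open Classical in
/-- sum over the basin -/
noncomputable def SB (N : ℕ) (h : ℕ → ℝ) : ℝ := ∑ n ∈ (Icc 1 N).filter (fun n => Bas n), h n

lemma SB_mono {N : ℕ} {g h : ℕ → ℝ} (hgh : ∀ n, 1 ≤ n → n ≤ N → Bas n → g n ≤ h n) : SB N g ≤ SB N h := by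
  classical
  unfold SB
  apply sum_le_sum
  intro n hn
  rw [mem_filter, mem_Icc] at hn
  exact hgh n hn.1.1 hn.1.2 hn.2

lemma SB_congr {N : ℕ} {g h : ℕ → ℝ} (hgh : ∀ n, 1 ≤ n → n ≤ N → Bas n → g n = h n) : SB N g = SB N h :=
  le_antisymm (SB_mono fun n h1 h2 h3 => (hgh n h1 h2 h3).le) (SB_mono fun n h1 h2 h3 => (hgh n h1 h2 h3).ge)

lemma SB_add (N : ℕ) (g h : ℕ → ℝ) : SB N (fun n => g n + h n) = SB N g + SB N h := by
  unfold SB
  rw [sum_add_distrib]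

lemma SB_mul (N : ℕ) (c : ℝ) (h : ℕ → ℝ) : SB N (fun n => c * h n) = c * SB N h := by
  unfold SB
  rw [mul_sum]

lemma SB_sum (N M : ℕ) (h : ℕ → ℕ → ℝ) : SB N (fun n => ∑ k ∈ range M, h k n) = ∑ k ∈ range M, SB N (h k) := by
  unfold SB
  rw [sum_comm]

open Classical in
lemma SB_ite (N : ℕ) (Q : ℕ → Prop) : SB N (fun n => if Q n then 1 else 0) = cnt (fun n => Bas n ∧ Q n) N := by
  unfold SB
  rw [cnt_eq, ← sum_filter, filter_filter, sum_const, nsmul_eq_mul, mul_one]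

lemma SB_one (N : ℕ) : SB N (fun _ => 1) = cnt Bas N := by
  classical
  unfold SB
  rw [cnt_eq, sum_const, nsmul_eq_mul, mul_one]

lemma SB_const (N : ℕ) {c : ℝ} (hc : 0 ≤ c) : SB N (fun _ => c) ≤ c * N := by
  have h1 : SB N (fun _ => c) = c * SB N (fun _ => 1) := by
    rw [← SB_mul]
    simp
  rw [h1, SB_one]
  exact mul_le_mul_of_nonneg_left (cnt_le _ _) hc

open Classical in
lemma layer_a {M : ℕ} (hM : 1 ≤ M) {v : ℝ} (hv : v ≤ 1) : v ≤ (∑ k ∈ range M, if (k : ℝ) / M < v then (1 : ℝ) else 0) / M := by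
  have hM0 : (0 : ℝ) < M := by exact_mod_cast hM
  rw [le_div_iff₀ hM0, ← sum_filter, sum_const, nsmul_eq_mul, mul_one]
  have h1 : range ⌈v * M⌉₊ ⊆ (range M).filter (fun k : ℕ => (k : ℝ) / M < v) := by
    intro k hk
    rw [mem_range, Nat.lt_ceil] at hk
    rw [mem_filter, mem_range, div_lt_iff₀ hM0]
    refine ⟨?_, hk⟩
    have h2 : (k : ℝ) < M := by nlinarith
    exact_mod_cast h2
  have h2 := card_le_card h1
  rw [card_range] at h2
  exact (Nat.le_ceil _).trans (by exact_mod_cast h2)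

open Classical in
lemma layer_b {M : ℕ} (hM : 1 ≤ M) {v : ℝ} (hv : 0 ≤ v) : (∑ k ∈ range M, if (k : ℝ) / M < v then (1 : ℝ) else 0) / M ≤ v + 1 / M := by
  have hM0 : (0 : ℝ) < M := by exact_mod_cast hM
  rw [div_le_iff₀ hM0, ← sum_filter, sum_const, nsmul_eq_mul, mul_one, add_mul, one_div, inv_mul_cancel₀ hM0.ne']
  have h1 : (range M).filter (fun k : ℕ => (k : ℝ) / M < v) ⊆ range ⌈v * M⌉₊ := by
    intro k hk
    rw [mem_filter, mem_range, div_lt_iff₀ hM0] at hk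
    rw [mem_range, Nat.lt_ceil]
    exact hk.2
  have h2 := card_le_card h1
  rw [card_range] at h2
  have h3 : (((range M).filter (fun k : ℕ => (k : ℝ) / M < v)).card : ℝ) ≤ ⌈v * M⌉₊ := by exact_mod_cast h2
  exact h3.trans (Nat.ceil_lt_add_one (by positivity)).le

/-- the rescaled trajectory -/
noncomputable def Yn (N n : ℕ) (t : ℝ) : ℝ :=
  sd (min ⌊t * (Ln N : ℕ)⌋₊ (st n)) n / (Real.log 3 / 2 * √((Ln N : ℕ) : ℝ))

/-- the functional of a path -/
noncomputable def Ph (F : (ℝ → ℝ) → ℝ) (L : ℕ) (f : ℕ → ℝ) : ℝ := F (fun t => f (min ⌊t * L⌋₊ L) / √(L : ℝ))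

/-- the average over the walks -/
noncomputable def Aw (F : (ℝ → ℝ) → ℝ) (L : ℕ) : ℝ := (∑ e : Fin L → Bool, Fw F e) / 2 ^ L

lemma Ph_wk (F : (ℝ → ℝ) → ℝ) {L : ℕ} (e : Fin L → Bool) : Ph F L (wk e) = Fw F e := by
  unfold Ph Fw
  congr 1
  funext t
  rw [wk_min e ⌊t * L⌋₊]

lemma Ph_lip {F : (ℝ → ℝ) → ℝ} (hF : LF F) {L : ℕ} (hL : 1 ≤ L) {f g : ℕ → ℝ} {r : ℝ} (h : ∀ j ≤ L, |f j - g j| ≤ r) :
    |Ph F L f - Ph F L g| ≤ r / √(L : ℝ) := by
  have hs : 0 < √(L : ℝ) := Real.sqrt_pos.2 (by exact_mod_cast hL)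
  apply hF.2
  intro t _
  rw [← sub_div, abs_div, abs_of_pos hs]
  exact div_le_div_of_nonneg_right (h _ (min_le_right _ _)) hs.le

lemma Pw_eq (L : ℕ) (S : Set (ℕ → ℝ)) [DecidablePred (fun e : Fin L → Bool => wk e ∈ S)] :
    Pw L S = (∑ e : Fin L → Bool, if wk e ∈ S then (1 : ℝ) else 0) / 2 ^ L := by
  unfold Pw
  congr 1
  rw [np_eq_card (Q := fun e : Fin L → Bool => wk e ∈ S) fun e => Iff.rfl, card_filter]
  push_cast
  rfl

/-- **the upper bound for the functionals of the parity path** -/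
lemma up_path {δ : ℝ} (hδ0 : 0 ≤ δ) (hδ1 : δ ≤ 1) {ε : ℝ} (hε : 0 < ε) {N L : ℕ} (hL : 1 ≤ L) {r : ℝ} (hr : r ≤ ε * √(L : ℝ))
    (hup : ∀ 𝒜 : Set (ℕ → ℝ), cnt (fun n => Bas n ∧ pth n ∈ 𝒜) N ≤ (δ * Pw L (Nb L 𝒜 r) + ε) * N)
    {F : (ℝ → ℝ) → ℝ} (hF : LF F) (hF0 : ∀ f, 0 ≤ F f) :
    SB N (fun n => Ph F L (pth n)) ≤ (δ * Aw F L + 3 * ε) * N := by
  classical
  have hN : (0 : ℝ) ≤ N := Nat.cast_nonneg _
  have hs : 0 < √(L : ℝ) := Real.sqrt_pos.2 (by exact_mod_cast hL)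
  obtain ⟨M, hMd⟩ := exists_nat_gt (1 / ε)
  have hM0 : (0 : ℝ) < M := lt_trans (by positivity) hMd
  have hM : 1 ≤ M := by exact_mod_cast hM0
  have hMε : 1 / (M : ℝ) ≤ ε := by
    rw [div_le_iff₀ hM0]
    rw [div_lt_iff₀ hε] at hMd
    linarith
  -- layers
  have h1 : SB N (fun n => Ph F L (pth n)) ≤
      1 / M * ∑ k ∈ range M, cnt (fun n => Bas n ∧ (k : ℝ) / M < Ph F L (pth n)) N := by
    have h2 : SB N (fun n => Ph F L (pth n)) ≤
        SB N (fun n => 1 / M * ∑ k ∈ range M, if (k : ℝ) / M < Ph F L (pth n) then (1 : ℝ) else 0) := by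
      apply SB_mono
      intro n _ _ _
      have h3 := layer_a hM (v := Ph F L (pth n)) ((le_abs_self _).trans (hF.1 _))
      rw [div_eq_inv_mul] at h3
      rw [one_div]
      exact h3
    refine h2.trans (le_of_eq ?_)
    rw [SB_mul, SB_sum]
    congr 1
    apply sum_congr rfl
    intro k _
    rw [SB_ite]
  have h2 : ∀ k ∈ range M, cnt (fun n => Bas n ∧ (k : ℝ) / M < Ph F L (pth n)) N ≤
      (δ * Pw L {g | (k : ℝ) / M < Ph F L g + ε} + ε) * N := by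
    intro k _
    refine (hup {f | (k : ℝ) / M < Ph F L f}).trans (mul_le_mul_of_nonneg_right ?_ hN)
    have h3 : Pw L (Nb L {f | (k : ℝ) / M < Ph F L f} r) ≤ Pw L {g | (k : ℝ) / M < Ph F L g + ε} := by
      apply Pw_mono
      rintro e ⟨f, hf, hfe⟩
      have h4 := Ph_lip hF hL hfe
      have h5 : r / √(L : ℝ) ≤ ε := by
        rw [div_le_iff₀ hs]
        exact hr
      have h6 := (abs_le.1 (h4.trans h5)).2
      have h7 : (k : ℝ) / M < Ph F L f := hf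
      show (k : ℝ) / M < Ph F L (wk e) + ε
      linarith
    have := mul_le_mul_of_nonneg_left h3 hδ0
    linarith
  have h3 := sum_le_sum h2
  have h4 : ∑ k ∈ range M, (δ * Pw L {g | (k : ℝ) / M < Ph F L g + ε} + ε) * N =
      (δ * (∑ k ∈ range M, Pw L {g | (k : ℝ) / M < Ph F L g + ε}) + M * ε) * N := by
    rw [← sum_mul, sum_add_distrib, ← mul_sum, sum_const, card_range, nsmul_eq_mul]
  rw [h4] at h3
  have h5 : 1 / M * ∑ k ∈ range M, Pw L {g | (k : ℝ) / M < Ph F L g + ε} ≤ Aw F L + 2 * ε := by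
    have h6 : ∀ k ∈ range M, Pw L {g | (k : ℝ) / M < Ph F L g + ε} =
        (∑ e : Fin L → Bool, if (k : ℝ) / M < Fw F e + ε then (1 : ℝ) else 0) / 2 ^ L := by
      intro k _
      rw [Pw_eq]
      congr 1
      apply sum_congr rfl
      intro e _
      simp only [Set.mem_ofPred_eq, Ph_wk]
    rw [sum_congr rfl h6, ← sum_div, sum_comm]
    have h7 : ∑ e : Fin L → Bool, ∑ k ∈ range M, (if (k : ℝ) / M < Fw F e + ε then (1 : ℝ) else 0) ≤
        ∑ e : Fin L → Bool, M * (Fw F e + 2 * ε) := by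
      apply sum_le_sum
      intro e _
      have h8 := layer_b hM (v := Fw F e + ε) (by have := hF0 (fun t => wk e ⌊t * L⌋₊ / √(L : ℝ)); unfold Fw; linarith)
      rw [div_le_iff₀ hM0] at h8
      nlinarith
    have h8 : ∑ e : Fin L → Bool, (M : ℝ) * (Fw F e + 2 * ε) = M * (∑ e : Fin L → Bool, Fw F e) + M * (2 * ε) * 2 ^ L := by
      rw [← mul_sum, sum_add_distrib, sum_const, card_univ, Fintype.card_fun, Fintype.card_bool, Fintype.card_fin, nsmul_eq_mul]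
      push_cast
      ring
    rw [h8] at h7
    unfold Aw
    have h9 : (0 : ℝ) < 2 ^ L := by positivity
    rw [one_div, ← div_eq_inv_mul, div_div, div_le_iff₀ (by positivity)]
    refine h7.trans (le_of_eq ?_)
    field_simp
  calc SB N (fun n => Ph F L (pth n)) ≤ 1 / M * ∑ k ∈ range M, cnt (fun n => Bas n ∧ (k : ℝ) / M < Ph F L (pth n)) N := h1
    _ ≤ 1 / M * ((δ * (∑ k ∈ range M, Pw L {g | (k : ℝ) / M < Ph F L g + ε}) + M * ε) * N) :=
        mul_le_mul_of_nonneg_left h3 (by positivity)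
    _ = (δ * (1 / M * ∑ k ∈ range M, Pw L {g | (k : ℝ) / M < Ph F L g + ε}) + ε) * N := by
        field_simp
    _ ≤ (δ * (Aw F L + 2 * ε) + ε) * N := by
        apply mul_le_mul_of_nonneg_right _ hN
        have := mul_le_mul_of_nonneg_left h5 hδ0
        linarith
    _ ≤ (δ * Aw F L + 3 * ε) * N := by
        apply mul_le_mul_of_nonneg_right _ hN
        nlinarith

lemma Ln_large : Tendsto Ln atTop atTop := by
  have hlim : Tendsto (fun N : ℕ => Real.log (N : ℝ)) atTop atTop := Real.tendsto_log_atTop.comp tendsto_natCast_atTop_atTop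
  have hl : 0 < Real.log (4 / 3) := Real.log_pos (by norm_num)
  have h1 : Tendsto (fun N : ℕ => 2 * Real.log (N : ℝ) / Real.log (4 / 3)) atTop atTop :=
    (hlim.const_mul_atTop (by norm_num)).atTop_div_const hl
  exact tendsto_nat_floor_atTop.comp h1

lemma Ln_sqrt : ∀ᶠ N : ℕ in atTop, √(Real.log N) ≤ √((Ln N : ℕ) : ℝ) ∧ √(Real.log N) ≤ Real.log 3 / 2 * √((Ln N : ℕ) : ℝ) := by
  have hlim : Tendsto (fun N : ℕ => Real.log (N : ℝ)) atTop atTop := Real.tendsto_log_atTop.comp tendsto_natCast_atTop_atTop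
  have hmu := mu_pos'
  have hmb := mu_bounds
  filter_upwards [eventually_ge_atTop 1, hlim.eventually_ge_atTop 1] with N hN1 hN
  have h1 := (abs_le.1 (Ln_mu hN1)).1
  have h2 : 4 * Real.log N ≤ ((Ln N : ℕ) : ℝ) := by
    by_contra hcon
    push Not at hcon
    have h3 : ((Ln N : ℕ) : ℝ) * mu ≤ 4 * Real.log N * mu := mul_le_mul_of_nonneg_right hcon.le hmu.le
    nlinarith
  have h3 : √(4 * Real.log N) ≤ √((Ln N : ℕ) : ℝ) := Real.sqrt_le_sqrt h2
  have h4 : √(4 * Real.log N) = 2 * √(Real.log N) := by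
    rw [Real.sqrt_mul (by norm_num), show (4 : ℝ) = 2 ^ 2 by norm_num, Real.sqrt_sq (by norm_num)]
  rw [h4] at h3
  have h5 : 1 ≤ Real.log 3 := by
    rw [Real.le_log_iff_exp_le (by norm_num)]
    have := Real.exp_one_lt_d9
    linarith
  have h6 := Real.sqrt_nonneg (Real.log N)
  constructor
  · linarith
  · nlinarith

/-- **the upper bound for the functionals of the rescaled trajectory** -/
lemma up_traj {δ : ℝ} (hδ0 : 0 ≤ δ) (hδ1 : δ ≤ 1) (hδ : Tendsto (fun X : ℝ => G Bz X / X) atTop (𝓝 δ)) {ε : ℝ} (hε : 0 < ε)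
    (hε1 : ε ≤ 1) : ∀ᶠ N : ℕ in atTop, ∀ F : (ℝ → ℝ) → ℝ, LF F → (∀ f, 0 ≤ F f) →
      SB N (fun n => F (Yn N n)) ≤ (δ * Aw F (Ln N) + 5 * ε) * N := by
  classical
  filter_upwards [upper hδ0 hδ1 hδ hε hε1, sizes hε hε1, Ln_large.eventually_ge_atTop 1, Ln_sqrt] with N hu hs hL hsq F hF hF0
  obtain ⟨L, hLd⟩ : ∃ L, L = Ln N := ⟨_, rfl⟩
  obtain ⟨R, hR⟩ : ∃ R, R = √(Real.log N) := ⟨_, rfl⟩
  have hY : ∀ n, Yn N n = fun t : ℝ => sd (min ⌊t * (L : ℕ)⌋₊ (st n)) n / (Real.log 3 / 2 * √((L : ℕ) : ℝ)) := by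
    intro n
    rw [hLd]
    rfl
  simp only [hY]
  rw [← hLd] at hu hs hL hsq ⊢
  rw [← hR] at hu hs hsq
  have hN : (0 : ℝ) ≤ N := Nat.cast_nonneg _
  have hl3 : 0 < Real.log 3 := Real.log_pos (by norm_num)
  have hsL : 0 < √(L : ℝ) := Real.sqrt_pos.2 (by exact_mod_cast hL)
  have hR0 : 0 ≤ R := by rw [hR]; exact Real.sqrt_nonneg _
  have h1 := up_path hδ0 hδ1 hε hL (r := ε * R) (mul_le_mul_of_nonneg_left hsq.1 hε.le) hu hF hF0
  obtain ⟨Ex, hEx⟩ : ∃ Ex : ℕ → Prop, Ex = fun n => ¬ ((∀ j, |pth n j - pth n (min j L)| ≤ ε * R) ∧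
      (∀ j ≤ st n, |Real.log ((Tn^[j] n : ℕ) : ℝ) - (Real.log n - j / 2 * Real.log (4 / 3) + Real.log 3 / 2 * pth n (min j L))| ≤ ε * R) ∧
      |st n / 2 * Real.log (4 / 3) - (Real.log n + Real.log 3 / 2 * pth n L)| ≤ ε * R) := ⟨_, rfl⟩
  have h2 : SB N (fun n => F (fun t : ℝ => sd (min ⌊t * (L : ℕ)⌋₊ (st n)) n / (Real.log 3 / 2 * √((L : ℕ) : ℝ)))) ≤
      SB N (fun n => Ph F L (pth n) + (ε + if Ex n then 1 else 0)) := by
    apply SB_mono
    intro n hn1 hnN hB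
    by_cases hE : Ex n
    · rw [if_pos hE]
      have h3 := (le_abs_self _).trans (hF.1 (fun t : ℝ => sd (min ⌊t * (L : ℕ)⌋₊ (st n)) n / (Real.log 3 / 2 * √((L : ℕ) : ℝ))))
      have h4 : 0 ≤ Ph F L (pth n) := hF0 _
      linarith
    · rw [if_neg hE, add_zero]
      rw [hEx] at hE
      simp only [not_not] at hE
      have h3 : |F (fun t : ℝ => sd (min ⌊t * (L : ℕ)⌋₊ (st n)) n / (Real.log 3 / 2 * √((L : ℕ) : ℝ))) - Ph F L (pth n)| ≤ ε := by
        apply hF.2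
        intro t ht
        obtain ⟨j, hj⟩ : ∃ j, j = min ⌊t * (L : ℕ)⌋₊ (st n) := ⟨_, rfl⟩
        have h4 := hE.2.1 j (by rw [hj]; exact min_le_right _ _)
        have h5 : pth n (min j L) = pth n (min ⌊t * (L : ℕ)⌋₊ L) := by
          unfold pth
          rw [hj]
          congr 1
          omega
        rw [h5] at h4
        have e1 : sd j n / (Real.log 3 / 2 * √(L : ℝ)) - pth n (min ⌊t * (L : ℕ)⌋₊ L) / √(L : ℝ) =
            (Real.log ((Tn^[j] n : ℕ) : ℝ) - (Real.log n - j / 2 * Real.log (4 / 3) + Real.log 3 / 2 * pth n (min ⌊t * (L : ℕ)⌋₊ L))) /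
              (Real.log 3 / 2 * √(L : ℝ)) := by
          unfold sd
          field_simp
          ring
        rw [← hj, e1, abs_div, abs_of_pos (by positivity : 0 < Real.log 3 / 2 * √(L : ℝ)), div_le_iff₀ (by positivity)]
        exact h4.trans (mul_le_mul_of_nonneg_left hsq.2 hε.le)
      have := (abs_le.1 h3).2
      linarith
  rw [SB_add, SB_add] at h2
  have h3 := SB_const N hε.le
  have h4 : SB N (fun n => if Ex n then 1 else 0) ≤ ε * N := by
    rw [SB_ite, hEx]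
    exact hs
  linarith

lemma Aw_lin (F : (ℝ → ℝ) → ℝ) (a b : ℝ) (L : ℕ) : Aw (fun f => a + b * F f) L = a + b * Aw F L := by
  unfold Aw
  have h1 : ∀ e : Fin L → Bool, Fw (fun f => a + b * F f) e = a + b * Fw F e := fun e => rfl
  simp only [h1]
  rw [sum_add_distrib, ← mul_sum, sum_const, card_univ, Fintype.card_fun, Fintype.card_bool, Fintype.card_fin, nsmul_eq_mul]
  push_cast
  field_simp

lemma LF_lin {F : (ℝ → ℝ) → ℝ} (hF : LF F) {b : ℝ} (hb : |b| ≤ 1 / 2) : LF (fun f => 1 / 2 + b * F f) := by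
  constructor
  · intro f
    have h1 := hF.1 f
    have h2 : |b * F f| ≤ 1 / 2 := by
      rw [abs_mul]
      nlinarith [abs_nonneg b, abs_nonneg (F f)]
    rw [abs_le] at h2 ⊢
    constructor <;> linarith
  · intro f g r h
    have h1 := hF.2 f g r h
    have h2 : 1 / 2 + b * F f - (1 / 2 + b * F g) = b * (F f - F g) := by ring
    rw [h2, abs_mul]
    have h3 := abs_nonneg (F f - F g)
    nlinarith [abs_nonneg b]

/-- **functionals of the rescaled trajectories and of the walks, uniformly in the functional** -/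
theorem functionals {δ : ℝ} (hδ0 : 0 ≤ δ) (hδ1 : δ ≤ 1) (hδ : Tendsto (fun X : ℝ => G Bz X / X) atTop (𝓝 δ)) (hD : Dn Bas δ)
    {ε : ℝ} (hε : 0 < ε) : ∀ᶠ N : ℕ in atTop, ∀ F : (ℝ → ℝ) → ℝ, LF F →
      |SB N (fun n => F (Yn N n)) - δ * Aw F (Ln N) * N| ≤ ε * N := by
  obtain ⟨e, he⟩ : ∃ e : ℝ, e = min (ε / 16) 1 := ⟨_, rfl⟩
  have he0 : 0 < e := by rw [he]; exact lt_min (by positivity) one_pos
  have he1 : e ≤ 1 := by rw [he]; exact min_le_right _ _
  have heε : 16 * e ≤ ε := by have := min_le_left (ε / 16) 1; rw [he]; linarith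
  have hD2 : ∀ᶠ N : ℕ in atTop, dist (cnt Bas N / N) δ < e := Metric.tendsto_nhds.1 hD e he0
  filter_upwards [up_traj hδ0 hδ1 hδ he0 he1, hD2, eventually_ge_atTop 1] with N hN hB hN1 F hF
  have hN0 : (0 : ℝ) < N := by exact_mod_cast hN1
  rw [Real.dist_eq, abs_lt] at hB
  have hB1 : (δ - e) * N ≤ cnt Bas N := by
    have := hB.1
    rw [← le_div_iff₀ hN0]
    linarith
  have hB2 : cnt Bas N ≤ (δ + e) * N := by
    have := hB.2
    rw [← div_le_iff₀ hN0]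
    linarith
  have h1 := hN (fun f => 1 / 2 + 1 / 2 * F f) (LF_lin hF (by rw [abs_of_pos (by norm_num)])) (fun f => by
    have := (abs_le.1 (hF.1 f)).1
    linarith)
  have h2 := hN (fun f => 1 / 2 + (-1 / 2) * F f) (LF_lin hF (by rw [abs_of_neg (by norm_num)]; norm_num)) (fun f => by
    have := (abs_le.1 (hF.1 f)).2
    linarith)
  rw [SB_add, SB_mul, Aw_lin] at h1 h2
  have h3 : SB N (fun _ => 1 / 2) = 1 / 2 * cnt Bas N := by
    rw [← SB_one, ← SB_mul]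
    simp
  rw [h3] at h1 h2
  rw [abs_le]
  constructor
  · nlinarith
  · nlinarith

end Pool.Agent.H60.IP
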