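import Pool.Agent.H60.IP.Cmp

/-!
# Error bounds for stages of an arbitrary small proportion
-/

set_option autoImplicit false

namespace Pool.Agent.H60.IP

open Pool.Agent.H320R2.PD Pool.Agent.H499R2.ND Pool.Agent.H46.CO Finset

lemma exp_neg_le_inv {x : ℝ} (hx : 0 < x) : Real.exp (-x) ≤ 1 / x := by
  have h1 := Real.add_one_le_exp x
  rw [Real.exp_neg, inv_eq_one_div]
  apply one_div_le_one_div_of_le hx
  linarith

/-- the error of a stage of length at least `θ log A` -/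
theorem err_th (θ : ℝ) (hθ : 0 < θ) : ∃ C : ℝ, 0 < C ∧ ∀ A : ℝ, 0 < A → 1000 ≤ Real.log A →
    1 / θ ^ 2 ≤ Real.log A → ∀ k m m' : ℕ, (m : ℝ) ^ 2 ≤ Real.log A → θ * Real.log A ≤ k →
    (k : ℝ) ≤ Real.log A / 2 → m' = ⌊Real.sqrt (0.8 * Real.log A)⌋₊ → Err 1 A k m m' ≤ C / Real.log A := by
  obtain ⟨Cm, hCm, hmix⟩ := mix 4
  refine ⟨2 * (Cm * (16 + 1 / θ ^ 4)) + 38400 / θ + 40, by positivity, ?_⟩
  intro A hA ht htθ k m m' hm hk2 hk1 hm'
  set t := Real.log A with htdef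
  have htpos : 0 < t := by linarith
  have hexpA : Real.exp t = A := Real.exp_log hA
  have hkpos : (0 : ℝ) < k := lt_of_lt_of_le (by positivity) hk2
  have hk1N : 1 ≤ k := by
    have : 0 < k := by exact_mod_cast hkpos
    exact this
  set r := Real.sqrt t with hr
  have hrsq : r ^ 2 = t := Real.sq_sqrt htpos.le
  have hr30 : 30 ≤ r := by
    apply Real.le_sqrt_of_sq_le; linarith
  have hrθ : 1 / θ ≤ r := by
    apply Real.le_sqrt_of_sq_le
    rw [div_pow, one_pow]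
    exact htθ
  have hrθ' : 1 ≤ θ * r := by
    rw [div_le_iff₀ hθ] at hrθ
    linarith
  have hmr : (m : ℝ) ≤ r := Real.le_sqrt_of_sq_le hm
  have hs8 : Real.sqrt (0.8 * t) ≥ 0.8 * r := by
    apply Real.le_sqrt_of_sq_le
    rw [mul_pow, hrsq]; linarith
  have hs8' : Real.sqrt (0.8 * t) ≤ r := Real.sqrt_le_sqrt (by linarith)
  have hm'1 : r / 2 ≤ m' := by
    rw [hm']; linarith [Nat.lt_floor_add_one (Real.sqrt (0.8 * t))]
  have hm'2 : (m' : ℝ) ≤ r := by
    rw [hm']; exact (Nat.floor_le (Real.sqrt_nonneg _)).trans hs8'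
  have hm'pos : 1 ≤ m' := by
    have : (1 : ℝ) ≤ m' := by linarith
    exact_mod_cast this
  have hrk : r ≤ k := by
    have h1 : r ≤ θ * t := by
      rw [← hrsq]
      nlinarith
    linarith
  have hm'k : m' ≤ k := by
    have : (m' : ℝ) ≤ k := by linarith
    exact_mod_cast this
  have hsmall : (2 : ℝ) ^ (41 * k / 20) * (2 * 3 ^ m / A) ≤ 2 * Real.exp (-(t / 5)) := by
    have h1 := pow_tm_le htpos.le hk1
    have h2 := pow_m_le ht hm
    have h3 : (2 : ℝ) ^ (41 * k / 20) * (2 * 3 ^ m / A)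
        ≤ Real.exp (0.7106 * t) * (2 * Real.exp (0.05 * t) / Real.exp t) := by
      rw [← hexpA]
      apply mul_le_mul h1 _ (by positivity) (Real.exp_pos _).le
      apply div_le_div_of_nonneg_right _ (Real.exp_pos _).le
      linarith
    have h4 : Real.exp (0.7106 * t) * (2 * Real.exp (0.05 * t) / Real.exp t)
        = 2 * Real.exp (0.7106 * t + 0.05 * t - t) := by
      rw [Real.exp_sub, Real.exp_add]; ring
    rw [h4] at h3
    refine h3.trans ?_
    apply mul_le_mul_of_nonneg_left _ (by norm_num)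
    apply Real.exp_le_exp.2
    linarith
  have hexpsmall : Real.exp (-(t / 5)) ≤ 1 / (t / 5) := exp_neg_le_inv (by positivity)
  have hexps2 : Real.exp (-(t / 5)) ≤ 1 / 2 := by
    refine hexpsmall.trans ?_
    apply one_div_le_one_div_of_le (by norm_num)
    linarith
  have hsmall1 : (2 : ℝ) ^ (41 * k / 20) * (2 * 3 ^ m / A) ≤ 1 := by linarith
  have h3mA : 0 ≤ (2 * 3 ^ m / A : ℝ) := by positivity
  have hone : (2 * 3 ^ m / A : ℝ) ≤ 2 * Real.exp (-(t / 5)) := by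
    have : (1 : ℝ) ≤ 2 ^ (41 * k / 20) := one_le_pow₀ (by norm_num)
    nlinarith
  -- mixing
  have hδ := hmix k m m' (3 * k) hk1N hm'pos hm'k (le_refl _)
  set δ := ∑ T ∈ range (k * (3 * k) + 1), dev (FWT (3 * k) k T) wwt (fun w => (Wo w : ℤ)) (k + m) m'
    with hδdef
  have hδnn : 0 ≤ δ := sum_nonneg fun _ _ => sum_nonneg fun _ _ => abs_nonneg _
  have hrpos : 0 < r := by linarith
  have hδ2 : δ ≤ (Cm * (16 + 1 / θ ^ 4)) / t := by
    have e1 : ((k : ℝ) + m) ≤ t := by nlinarith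
    have e2 : (1 / (m' : ℝ)) ^ 4 ≤ (2 / r) ^ 4 := by
      apply pow_le_pow_left₀ (by positivity)
      rw [div_le_div_iff₀ (by exact_mod_cast hm'pos) hrpos]
      linarith
    have e3 : ((m : ℝ) / k) ^ 4 ≤ (1 / (θ * r)) ^ 4 := by
      apply pow_le_pow_left₀ (by positivity)
      rw [div_le_div_iff₀ hkpos (by positivity)]
      have : (m : ℝ) * (θ * r) ≤ r * (θ * r) := mul_le_mul_of_nonneg_right hmr (by positivity)
      have h2 : r * (θ * r) = θ * t := by rw [← hrsq]; ring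
      linarith
    have e4 : t * (Cm * ((2 / r) ^ 4 + (1 / (θ * r)) ^ 4)) = (Cm * (16 + 1 / θ ^ 4)) / t := by
      have h4 : r ^ 4 = t ^ 2 := by
        rw [show (4 : ℕ) = 2 * 2 by norm_num, pow_mul, hrsq]
      rw [div_pow, div_pow, mul_pow, h4]
      field_simp
      ring
    calc δ ≤ (k + m) * (Cm * ((1 / (m' : ℝ)) ^ 4 + ((m : ℝ) / k) ^ 4)) := hδ
      _ ≤ t * (Cm * ((2 / r) ^ 4 + (1 / (θ * r)) ^ 4)) := by
          apply mul_le_mul e1 _ (by positivity) htpos.le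
          apply mul_le_mul_of_nonneg_left _ hCm.le
          linarith
      _ = _ := e4
  -- mass
  have hmass := mass_GW k
  have hmass2 : Real.exp (-(k / 12800 : ℝ)) ≤ 12800 / (θ * t) := by
    refine (exp_neg_le_inv (by positivity)).trans ?_
    rw [one_div_div]
    exact div_le_div_of_nonneg_left (by norm_num) (by positivity) hk2
  unfold Err
  rw [← hδdef]
  have f1 : (1 + 2 ^ (41 * k / 20) * (2 * 3 ^ m / A)) * δ ≤ 2 * δ :=
    mul_le_mul_of_nonneg_right (by linarith) hδnn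
  have f2 : (1 + (|((1 : ℤ) : ℝ)| + 2) * 2 ^ (41 * k / 20)) * (2 * 3 ^ m / A)
      ≤ 8 * Real.exp (-(t / 5)) := by
    have e0 : |((1 : ℤ) : ℝ)| = 1 := by norm_num
    rw [e0]
    calc (1 + ((1 : ℝ) + 2) * 2 ^ (41 * k / 20)) * (2 * 3 ^ m / A)
        = (2 * 3 ^ m / A) + 3 * (2 ^ (41 * k / 20) * (2 * 3 ^ m / A)) := by ring
      _ ≤ 2 * Real.exp (-(t / 5)) + 3 * (2 * Real.exp (-(t / 5))) := by linarith
      _ = _ := by ring
  have f3 : 8 * Real.exp (-(t / 5)) ≤ 8 * (1 / (t / 5)) := by linarith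
  have f4 : (1 : ℝ) / (t / 5) = 5 / t := by rw [one_div_div]
  rw [f4] at f3
  have f5 : (12800 : ℝ) / (θ * t) = 12800 / θ / t := by rw [div_div]
  rw [f5] at hmass2
  have f6 : (2 * (Cm * (16 + 1 / θ ^ 4)) + 38400 / θ + 40) / t =
      2 * ((Cm * (16 + 1 / θ ^ 4)) / t) + 3 * (12800 / θ / t) + 8 * (5 / t) := by
    field_simp
    ring
  rw [f6]
  linarith

end Pool.Agent.H60.IP
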