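import Pool.Agent.H60.IP.Glo

/-!
# Final forms
-/

set_option autoImplicit false

namespace Pool.Agent.H60.IP

open Pool.Agent.H320R2.PD Pool.Agent.H499R2.ND Pool.Agent.H46.CO Finset Filter Topology

open Pool.Agent.H319R2.Lln (mu)

/-- the probability that the random walk has a property -/
noncomputable def Pw (L : ℕ) (𝒜 : Set (ℕ → ℝ)) : ℝ := np L (fun e => wk e ∈ 𝒜) / 2 ^ L

/-- the neighbourhood -/
def Nb (L : ℕ) (𝒜 : Set (ℕ → ℝ)) (r : ℝ) : Set (ℕ → ℝ) := {g | Nr L 𝒜 r g}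

lemma Pw_nonneg (L : ℕ) (𝒜 : Set (ℕ → ℝ)) : 0 ≤ Pw L 𝒜 := div_nonneg (np_nonneg _ _) (by positivity)

lemma Pw_le (L : ℕ) (𝒜 : Set (ℕ → ℝ)) : Pw L 𝒜 ≤ 1 := by
  unfold Pw
  rw [div_le_one (by positivity)]
  exact np_le _ _

lemma Pw_mono {L : ℕ} {𝒜 ℬ : Set (ℕ → ℝ)} (h : ∀ e : Fin L → Bool, wk e ∈ 𝒜 → wk e ∈ ℬ) : Pw L 𝒜 ≤ Pw L ℬ := by
  unfold Pw
  apply div_le_div_of_nonneg_right _ (by positivity)
  exact np_mono h

lemma np_compl (L : ℕ) (P : (Fin L → Bool) → Prop) : np L (fun e => ¬ P e) + np L P = 2 ^ L := by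
  classical
  unfold np
  have h1 := Finset.card_filter_add_card_filter_not (s := (univ : Finset (Fin L → Bool))) P
  rw [card_univ, Fintype.card_fun, Fintype.card_bool, Fintype.card_fin] at h1
  have h2 : ((univ.filter fun e : Fin L → Bool => ¬ P e).card : ℝ) + ((univ.filter P).card : ℝ) = 2 ^ L := by
    rw [add_comm]
    exact_mod_cast h1
  convert h2

lemma Pw_compl (L : ℕ) (𝒜 : Set (ℕ → ℝ)) : Pw L 𝒜ᶜ = 1 - Pw L 𝒜 := by
  unfold Pw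
  have h1 := np_compl L (fun e => wk e ∈ 𝒜)
  have h2 : np L (fun e => wk e ∈ 𝒜ᶜ) = np L (fun e => ¬ wk e ∈ 𝒜) := rfl
  rw [h2, eq_sub_iff_add_eq, ← add_div, h1, div_self (by positivity)]

lemma cnt_compl (P Q : ℕ → Prop) (N : ℕ) : cnt (fun n => P n ∧ ¬ Q n) N + cnt (fun n => P n ∧ Q n) N = cnt P N := by
  classical
  rw [cnt_eq, cnt_eq, cnt_eq]
  have h1 := Finset.card_filter_add_card_filter_not (s := (Icc 1 N).filter P) Q
  rw [filter_filter, filter_filter] at h1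
  rw [add_comm]
  exact_mod_cast h1

/-- **the upper bound** -/
theorem upper {δ : ℝ} (hδ0 : 0 ≤ δ) (hδ1 : δ ≤ 1) (hδ : Tendsto (fun X : ℝ => G Bz X / X) atTop (𝓝 δ)) {ε : ℝ} (hε : 0 < ε)
    (hε1 : ε ≤ 1) : ∀ᶠ N : ℕ in atTop, ∀ 𝒜 : Set (ℕ → ℝ), cnt (fun n => Bas n ∧ pth n ∈ 𝒜) N ≤
      (δ * Pw (Ln N) (Nb (Ln N) 𝒜 (ε * √(Real.log N))) + ε) * N := by
  obtain ⟨A1, hA1, hw⟩ := window hδ0 hδ1 hδ (show 0 < ε / 4 by positivity) (by linarith)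
  obtain ⟨b0, c, hc0, hg⟩ := glob hε hε1 A1
  filter_upwards [hg] with N hN 𝒜
  obtain ⟨hN1, hNb, hNA, hNQ⟩ := hN
  obtain ⟨L, hL⟩ : ∃ L, L = Ln N := ⟨_, rfl⟩
  rw [← hL] at hNA ⊢
  have hP0 := Pw_nonneg L (Nb L 𝒜 (ε * √(Real.log N)))
  have hP1 := Pw_le L (Nb L 𝒜 (ε * √(Real.log N)))
  refine hNQ (fun n => Bas n ∧ pth n ∈ 𝒜) _ (by positivity) (mul_le_one₀ hδ1 hP0 hP1) ?_
  intro b hb A hAc hAN
  obtain ⟨g1, g2, g3, g4⟩ := hNA A hAc hAN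
  obtain ⟨w1, _⟩ := hw A g1 L g3
  have hw2 := w1 {f | ∃ g ∈ 𝒜, ∀ j, |f j - g j| ≤ 2 * b}
  have hb' : (b : ℝ) ≤ b0 := by exact_mod_cast hb.le
  have h1 : PB {x : ℤ | 0 < x ∧ (fun n => Bas n ∧ pth n ∈ 𝒜) (2 ^ b * x.toNat)} A 0
      (δ * (np L (fun e => Nr L {f | ∃ g ∈ 𝒜, ∀ j, |f j - g j| ≤ 2 * b} (ε / 4 * √(Real.log A)) (wk e)) / 2 ^ L) + ε / 4) := by
    refine PB_sub ?_ hw2
    rintro x _ _ ⟨hx, hB, hp⟩
    have hx1 : 1 ≤ x.toNat := by omega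
    refine ⟨by omega, Bas_pow hB hx1, pth (2 ^ b * x.toNat), hp, fun j => ?_⟩
    rw [abs_sub_comm]
    exact pth_pow hx1 (Bas_pow hB hx1) j
  refine PB_mono (by linarith) ?_ h1
  have h2 : np L (fun e => Nr L {f | ∃ g ∈ 𝒜, ∀ j, |f j - g j| ≤ 2 * b} (ε / 4 * √(Real.log A)) (wk e)) ≤
      np L (fun e => wk e ∈ Nb L 𝒜 (ε * √(Real.log N))) := by
    apply np_mono
    rintro e ⟨f, ⟨g, hg, hfg⟩, hf⟩
    refine ⟨g, hg, fun j hj => ?_⟩
    have h3 := hfg j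
    have h4 := hf j hj
    have h5 : g j - wk e j = (f j - wk e j) - (f j - g j) := by ring
    rw [h5]
    have h6 := abs_sub (f j - wk e j) (f j - g j)
    have h7 : ε / 4 * √(Real.log A) ≤ ε / 4 * √(Real.log N) := mul_le_mul_of_nonneg_left g4 (by positivity)
    have h8 : 0 ≤ ε / 4 * √(Real.log N) := by positivity
    linarith
  have h3 : np L (fun e => Nr L {f | ∃ g ∈ 𝒜, ∀ j, |f j - g j| ≤ 2 * b} (ε / 4 * √(Real.log A)) (wk e)) / 2 ^ L ≤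
      Pw L (Nb L 𝒜 (ε * √(Real.log N))) := div_le_div_of_nonneg_right h2 (by positivity)
  have h4 := mul_le_mul_of_nonneg_left h3 hδ0
  linarith

/-- **the late part of the path** -/
theorem late {ε : ℝ} (hε : 0 < ε) (hε1 : ε ≤ 1) : ∀ᶠ N : ℕ in atTop,
    cnt (fun n => Bas n ∧ ∃ j, Ln N ≤ j ∧ j ≤ st n ∧ ε * √(Real.log N) < |dn j n - dn (Ln N) n|) N ≤ ε * N := by
  obtain ⟨δ, hδ0, hδ1, _, _, hδ⟩ := Bz_dens
  obtain ⟨A1, hA1, hw⟩ := window hδ0.le hδ1 hδ (show 0 < ε / 4 by positivity) (by linarith)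
  obtain ⟨b0, c, hc0, hg⟩ := glob hε hε1 A1
  filter_upwards [hg] with N hN
  obtain ⟨hN1, hNb, hNA, hNQ⟩ := hN
  obtain ⟨L, hL⟩ : ∃ L, L = Ln N := ⟨_, rfl⟩
  rw [← hL] at hNA ⊢
  have h0 := hNQ (fun n => Bas n ∧ ∃ j, L ≤ j ∧ j ≤ st n ∧ ε * √(Real.log N) < |dn j n - dn L n|) 0 le_rfl zero_le_one (by
    intro b hb A hAc hAN
    obtain ⟨g1, g2, g3, g4⟩ := hNA A hAc hAN
    obtain ⟨_, w2⟩ := hw A g1 L g3
    have hb' : (b : ℝ) ≤ b0 := by exact_mod_cast hb.le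
    have hb0 : (0 : ℝ) ≤ b := Nat.cast_nonneg _
    rw [zero_add]
    refine PB_sub ?_ w2
    rintro x _ _ ⟨hx, hB, j, hj1, hj2, hj3⟩
    have hx1 : 1 ≤ x.toNat := by omega
    have hBx := Bas_pow hB hx1
    rw [st_pow hx1 hBx] at hj2
    obtain ⟨m, hm⟩ : ∃ m, m = x.toNat := ⟨_, rfl⟩
    have h7 : ε / 4 * √(Real.log A) ≤ ε / 4 * √(Real.log N) := mul_le_mul_of_nonneg_left g4 (by positivity)
    refine ⟨by omega, hBx, ?_⟩
    rw [← hm] at hj2 hj3 ⊢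
    rcases lt_or_ge j (b + L) with h1 | h1
    · exfalso
      have h2 := dn_lip L j (2 ^ b * m) hj1
      have h3 : (j : ℝ) ≤ b + L := by exact_mod_cast h1.le
      linarith
    · obtain ⟨i, rfl⟩ : ∃ i, j = b + i := ⟨j - b, by omega⟩
      refine ⟨i, by omega, by omega, ?_⟩
      have h2 := dn_pow_sub b m L i
      have h3 := dn_lip L (b + L) (2 ^ b * m) (by omega)
      have h4 : dn (b + i) (2 ^ b * m) - dn L (2 ^ b * m) = (dn i m - dn L m) + (dn (b + L) (2 ^ b * m) - dn L (2 ^ b * m)) := by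
        rw [← h2]
        ring
      rw [h4] at hj3
      have h5 := abs_add_le (dn i m - dn L m) (dn (b + L) (2 ^ b * m) - dn L (2 ^ b * m))
      push_cast at h3
      linarith)
  rwa [zero_add] at h0

/-- **the sizes, the late part and the total stopping time, from the path up to the time `Ln N`** -/
theorem sizes {ε : ℝ} (hε : 0 < ε) (hε1 : ε ≤ 1) : ∀ᶠ N : ℕ in atTop,
    cnt (fun n => Bas n ∧ ¬ ((∀ j, |pth n j - pth n (min j (Ln N))| ≤ ε * √(Real.log N)) ∧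
      (∀ j ≤ st n, |Real.log ((Tn^[j] n : ℕ) : ℝ) - (Real.log n - j / 2 * Real.log (4 / 3) + Real.log 3 / 2 * pth n (min j (Ln N)))| ≤
        ε * √(Real.log N)) ∧
      |st n / 2 * Real.log (4 / 3) - (Real.log n + Real.log 3 / 2 * pth n (Ln N))| ≤ ε * √(Real.log N))) N ≤ ε * N := by
  obtain ⟨K₀, hK₀, hs⟩ := size_basin
  have hlim : Tendsto (fun N : ℕ => Real.log (N : ℝ)) atTop atTop := Real.tendsto_log_atTop.comp tendsto_natCast_atTop_atTop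
  obtain ⟨T, hT⟩ := ev_sqrt K₀ (show 0 < ε / 2 by positivity)
  have hl3 : 0 < Real.log 3 := Real.log_pos (by norm_num)
  have hl3' : Real.log 3 / 2 ≤ 1 := by
    have := Real.log_le_sub_one_of_pos (show (0 : ℝ) < 3 by norm_num)
    linarith
  filter_upwards [late (show 0 < ε / 2 by positivity) (by linarith), hlim.eventually_ge_atTop T] with N hN hNT
  have hK := hT _ hNT
  obtain ⟨R, hR⟩ : ∃ R, R = √(Real.log N) := ⟨_, rfl⟩
  have hR0 : 0 ≤ R := by rw [hR]; exact Real.sqrt_nonneg _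
  obtain ⟨L, hL⟩ : ∃ L, L = Ln N := ⟨_, rfl⟩
  rw [← hR] at hN hK ⊢
  rw [← hL] at hN ⊢
  refine le_trans (cnt_mono N ?_) (hN.trans (by have : (0 : ℝ) ≤ N := Nat.cast_nonneg _; nlinarith))
  rintro n hn hnN ⟨hB, hneg⟩
  refine ⟨hB, ?_⟩
  by_contra hcon
  push Not at hcon
  apply hneg
  have hst := st_spec hB
  obtain ⟨t, ht⟩ : ∃ t, t = st n := ⟨_, rfl⟩
  have hpt : ∀ j, pth n j = dn (min j t) n := fun j => by rw [ht]; rfl
  rw [← ht] at hst hcon ⊢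
  have hpath : ∀ j, |pth n j - pth n (min j L)| ≤ ε / 2 * R := by
    intro j
    rw [hpt, hpt]
    rcases le_or_gt (min j t) L with h1 | h1
    · have h2 : min (min j L) t = min j t := by omega
      rw [h2, sub_self, abs_zero]
      positivity
    · have h2 : min (min j L) t = L := by omega
      rw [h2]
      exact hcon _ h1.le (min_le_right _ _)
  have hsize : ∀ j ≤ t, |Real.log ((Tn^[j] n : ℕ) : ℝ) - (Real.log n - j / 2 * Real.log (4 / 3) + Real.log 3 / 2 * pth n (min j L))| ≤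
      ε * R := by
    intro j hj
    have h1 := hs n t j hn hst hj
    have h2 := hpath j
    have h3 : pth n j = dn j n := by rw [hpt, min_eq_left hj]
    rw [h3] at h2
    unfold sd at h1
    have h4 : Real.log ((Tn^[j] n : ℕ) : ℝ) - (Real.log n - j / 2 * Real.log (4 / 3) + Real.log 3 / 2 * pth n (min j L)) =
        (Real.log ((Tn^[j] n : ℕ) : ℝ) - (Real.log n - j / 2 * Real.log (4 / 3)) - Real.log 3 / 2 * dn j n) +
        Real.log 3 / 2 * (dn j n - pth n (min j L)) := by ring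
    rw [h4]
    refine (abs_add_le _ _).trans ?_
    rw [abs_mul, abs_of_pos (by positivity : 0 < Real.log 3 / 2)]
    have h5 : Real.log 3 / 2 * |dn j n - pth n (min j L)| ≤ 1 * (ε / 2 * R) := mul_le_mul hl3' h2 (abs_nonneg _) zero_le_one
    linarith
  refine ⟨fun j => (hpath j).trans (by nlinarith), hsize, ?_⟩
  have h1 := hsize t le_rfl
  rw [hst.1, Nat.cast_one, Real.log_one] at h1
  have h2 : pth n (min t L) = pth n L := by
    rw [hpt, hpt]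
    congr 1
    omega
  rw [h2] at h1
  have h3 : 0 - (Real.log n - t / 2 * Real.log (4 / 3) + Real.log 3 / 2 * pth n L) =
      t / 2 * Real.log (4 / 3) - (Real.log n + Real.log 3 / 2 * pth n L) := by ring
  rwa [h3] at h1

/-- **the lower bound** -/
theorem lower {δ : ℝ} (hδ0 : 0 ≤ δ) (hδ1 : δ ≤ 1) (hδ : Tendsto (fun X : ℝ => G Bz X / X) atTop (𝓝 δ)) (hD : Dn Bas δ) {ε : ℝ}
    (hε : 0 < ε) (hε1 : ε ≤ 1) : ∀ᶠ N : ℕ in atTop, ∀ 𝒜 : Set (ℕ → ℝ), (δ * Pw (Ln N) 𝒜 - ε) * N ≤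
      cnt (fun n => Bas n ∧ pth n ∈ Nb (Ln N) 𝒜 (ε * √(Real.log N))) N := by
  have hD2 : ∀ᶠ N : ℕ in atTop, δ - ε / 2 < cnt Bas N / N := hD.eventually (lt_mem_nhds (by linarith))
  filter_upwards [upper hδ0 hδ1 hδ (show 0 < ε / 2 by positivity) (by linarith), hD2, eventually_ge_atTop 1] with N hN hB hN1 𝒜
  have hN0 : (0 : ℝ) < N := by exact_mod_cast hN1
  rw [lt_div_iff₀ hN0] at hB
  obtain ⟨L, hL⟩ : ∃ L, L = Ln N := ⟨_, rfl⟩
  rw [← hL] at hN ⊢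
  obtain ⟨ℬ, hℬ⟩ : ∃ ℬ, ℬ = Nb L 𝒜 (ε * √(Real.log N)) := ⟨_, rfl⟩
  have h1 := hN ℬᶜ
  have h2 : Pw L (Nb L ℬᶜ (ε / 2 * √(Real.log N))) ≤ 1 - Pw L 𝒜 := by
    rw [← Pw_compl]
    apply Pw_mono
    rintro e ⟨g, hg, hge⟩ hmem
    apply hg
    rw [hℬ]
    refine ⟨wk e, hmem, fun j hj => ?_⟩
    rw [abs_sub_comm]
    refine (hge j hj).trans ?_
    apply mul_le_mul_of_nonneg_right _ (Real.sqrt_nonneg _)
    linarith
  have h3 := cnt_compl Bas (fun n => pth n ∈ ℬ) N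
  have h4 : cnt (fun n => Bas n ∧ pth n ∈ ℬᶜ) N = cnt (fun n => Bas n ∧ ¬ pth n ∈ ℬ) N := rfl
  rw [h4] at h1
  rw [← hℬ]
  have h5 := mul_le_mul_of_nonneg_left h2 hδ0
  have h6 : (δ * Pw L (Nb L ℬᶜ (ε / 2 * √(Real.log N))) + ε / 2) * N ≤ (δ * (1 - Pw L 𝒜) + ε / 2) * N :=
    mul_le_mul_of_nonneg_right (by linarith) hN0.le
  nlinarith

end Pool.Agent.H60.IP
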