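import Pool.Agent.H60.IP.Lev

/-!
# From windows to all integers up to `N`: parameters
-/

set_option autoImplicit false

namespace Pool.Agent.H60.IP

open Pool.Agent.H320R2.PD Pool.Agent.H499R2.ND Pool.Agent.H46.CO Finset Filter Topology

open Pool.Agent.H319R2.Lln (mu)

/-- the number of steps -/
noncomputable def Ln (N : ℕ) : ℕ := ⌊2 * Real.log N / Real.log (4 / 3)⌋₊

lemma log43_mu : Real.log (4 / 3) = 2 * mu := Pool.Agent.H499R2.ND.log43

lemma Ln_mu {N : ℕ} (hN : 1 ≤ N) : |Ln N * mu - Real.log N| ≤ mu := by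
  have hmu := mu_pos'
  have hl : 0 ≤ Real.log N := Real.log_nonneg (by exact_mod_cast hN)
  have e : 2 * Real.log N / Real.log (4 / 3) = Real.log N / mu := by
    rw [log43_mu]
    field_simp
  unfold Ln
  rw [e]
  have h1 := Nat.floor_le (show 0 ≤ Real.log N / mu by positivity)
  have h2 := Nat.lt_floor_add_one (Real.log N / mu)
  rw [le_div_iff₀ hmu] at h1
  rw [div_lt_iff₀ hmu] at h2
  rw [abs_le]
  constructor <;> linarith

lemma PB_above {S : Set ℤ} {A r : ℝ} (hA : 0 ≤ A) (hr : 0 ≤ r) (h : ∀ x ∈ S, A ≤ (x : ℝ) → False) : PB S A 0 r := by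
  intro u v _
  have e : cls S A (2 * A) 0 u v = ∅ := by
    rw [Finset.eq_empty_iff_forall_notMem]
    intro x hx
    rw [mem_cls] at hx
    exact h x hx.2.2.1 hx.1.1
  rw [e, card_empty, Nat.cast_zero]
  positivity

/-- the parameters of the passage -/
theorem glob {ε : ℝ} (hε : 0 < ε) (hε1 : ε ≤ 1) (A1 : ℝ) : ∃ (b0 : ℕ) (c : ℝ), 0 < c ∧ ∀ᶠ N : ℕ in atTop, 1 ≤ N ∧
    (2 * b0 ≤ ε / 4 * √(Real.log N)) ∧
    (∀ A : ℝ, c * N ≤ A → A ≤ N → A1 ≤ A ∧ 1 ≤ A ∧ |Ln N * mu - Real.log A| ≤ √(Real.log A) ∧ √(Real.log A) ≤ √(Real.log N)) ∧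
    ∀ (Q : ℕ → Prop) (ρ : ℝ), 0 ≤ ρ → ρ ≤ 1 →
      (∀ b < b0, ∀ A : ℝ, c * N ≤ A → A ≤ N → PB {x : ℤ | 0 < x ∧ Q (2 ^ b * x.toNat)} A 0 (ρ + ε / 4)) →
      cnt Q N ≤ (ρ + ε) * N := by
  have hmu := mu_pos'
  obtain ⟨b0, hb0⟩ := exists_pow_lt_of_lt_one (by positivity : 0 < ε / 8) (by norm_num : (1 / 2 : ℝ) < 1)
  obtain ⟨c, hc⟩ : ∃ c : ℝ, c = ε / (32 * (b0 + 1)) := ⟨_, rfl⟩
  have hb0' : (0 : ℝ) ≤ b0 := Nat.cast_nonneg _
  have hc0 : 0 < c := by rw [hc]; positivity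
  have hc1 : c ≤ 1 := by
    rw [hc, div_le_one (by positivity)]
    linarith
  have hcb : 2 * c * b0 ≤ ε / 16 := by
    have h1 : c * (32 * (b0 + 1)) = ε := by
      rw [hc]
      field_simp
    nlinarith
  have hlim : Tendsto (fun N : ℕ => Real.log (N : ℝ)) atTop atTop := Real.tendsto_log_atTop.comp tendsto_natCast_atTop_atTop
  obtain ⟨T, hT⟩ := ev_sqrt (2 * b0) (show 0 < ε / 4 by positivity)
  refine ⟨b0, c, hc0, ?_⟩
  filter_upwards [eventually_ge_atTop 1, hlim.eventually_ge_atTop T, hlim.eventually_ge_atTop ((mu - Real.log c) ^ 2 - Real.log c),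
    (tendsto_natCast_atTop_atTop (R := ℝ)).eventually_ge_atTop (max A1 1 / c),
    (tendsto_natCast_atTop_atTop (R := ℝ)).eventually_ge_atTop (16 * b0 / ε)] with N hN1 hNT hNc hNA hNb
  have hN0 : (0 : ℝ) < N := by exact_mod_cast hN1
  have hlc : Real.log c ≤ 0 := Real.log_nonpos hc0.le hc1
  refine ⟨hN1, hT _ hNT, ?_, ?_⟩
  · intro A hA1 hA2
    have hcN : 0 < c * N := by positivity
    have hA0 : 0 < A := by linarith
    rw [div_le_iff₀ hc0] at hNA
    have h1 : max A1 1 ≤ A := by linarith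
    have hlA1 : Real.log N + Real.log c ≤ Real.log A := by
      rw [← Real.log_mul hN0.ne' hc0.ne', mul_comm]
      exact Real.log_le_log hcN hA1
    have hlA2 : Real.log A ≤ Real.log N := Real.log_le_log hA0 hA2
    refine ⟨(le_max_left _ _).trans h1, (le_max_right _ _).trans h1, ?_, Real.sqrt_le_sqrt hlA2⟩
    have h2 : mu - Real.log c ≤ √(Real.log A) := Real.le_sqrt_of_sq_le (by linarith)
    have h3 := Ln_mu hN1
    rw [abs_le] at h3 ⊢
    constructor <;> linarith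
  · intro Q ρ hρ hρ1 h
    have h1 : cnt Q N ≤ cnt (fun n => (fun n => n ≤ N ∧ Q n) (2 ^ 0 * n)) N := by
      apply cnt_mono
      intro n _ hn hQ
      simp only [pow_zero, one_mul]
      exact ⟨hn, hQ⟩
    have h2 := lev (Q := fun n => n ≤ N ∧ Q n) (r := ρ + ε / 4) (A0 := c * N) (by positivity) (by positivity) b0 0 N (by
      intro b _ hb A hA
      rcases le_or_gt A N with hAN | hAN
      · refine PB_sub ?_ (h b (by omega) A hA hAN)
        rintro x _ _ ⟨hx, hx2⟩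
        exact ⟨hx, hx2.2⟩
      · apply PB_above (by linarith) (by positivity)
        rintro x ⟨hx, hx2, _⟩ hxA
        have h3 : x.toNat ≤ 2 ^ b * x.toNat := Nat.le_mul_of_pos_left _ (by positivity)
        have h4 : ((x.toNat : ℕ) : ℤ) = x := Int.toNat_of_nonneg hx.le
        have h5 : ((x.toNat : ℕ) : ℝ) = x := by exact_mod_cast h4
        have h6 : ((x.toNat : ℕ) : ℝ) ≤ N := by exact_mod_cast h3.trans hx2
        linarith)
    have h3 : (N : ℝ) / 2 ^ b0 ≤ ε / 8 * N := by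
      have : (N : ℝ) / 2 ^ b0 = (1 / 2) ^ b0 * N := by
        rw [one_div, inv_pow, div_eq_inv_mul]
      rw [this]
      exact mul_le_mul_of_nonneg_right hb0.le (Nat.cast_nonneg _)
    refine h1.trans (h2.trans ?_)
    rw [div_le_iff₀ hε] at hNb
    have h4 : b0 * ((ρ + ε / 4) / 2 + 2 * (c * N) + 1) ≤ 2 * b0 + ε / 16 * N := by
      have h5 : b0 * ((ρ + ε / 4) / 2 + 2 * (c * N) + 1) = b0 * ((ρ + ε / 4) / 2 + 1) + 2 * c * b0 * N := by ring
      rw [h5]
      have h6 : b0 * ((ρ + ε / 4) / 2 + 1) ≤ b0 * 2 := mul_le_mul_of_nonneg_left (by linarith) hb0'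
      have h7 : 2 * c * b0 * N ≤ ε / 16 * N := mul_le_mul_of_nonneg_right hcb hN0.le
      linarith
    nlinarith

end Pool.Agent.H60.IP
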