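import Pool.Agent.H60.IP.Prm

/-!
# From windows of odd integers to all integers up to `N`
-/

set_option autoImplicit false

namespace Pool.Agent.H60.IP

open Pool.Agent.H320R2.PD Pool.Agent.H499R2.ND Pool.Agent.H46.CO Finset Filter Topology

/-- a bound in all windows above `A0`, for the first `b0` powers of `2` -/
lemma lev {Q : ℕ → Prop} {r A0 : ℝ} (hr : 0 ≤ r) (hA0 : 0 < A0) (b0 : ℕ) : ∀ (b N : ℕ),
    (∀ b', b ≤ b' → b' < b + b0 → ∀ A : ℝ, A0 ≤ A → PB {x : ℤ | 0 < x ∧ Q (2 ^ b' * x.toNat)} A 0 r) →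
    cnt (fun n => Q (2 ^ b * n)) N ≤ r * N + b0 * (r / 2 + 2 * A0 + 1) + N / 2 ^ b0 := by
  induction b0 with
  | zero =>
    intro b N _
    have h1 := cnt_le (fun n => Q (2 ^ b * n)) N
    have h2 : 0 ≤ r * N := by positivity
    rw [pow_zero, div_one]
    push_cast
    linarith
  | succ b0 ih =>
    intro b N h
    have h1 := n_split (fun n => Q (2 ^ b * n)) N
    obtain ⟨n, hn⟩ := pow_unbounded_of_one_lt ((N : ℝ) + 1) (by norm_num : (1 : ℝ) < 2)
    have h2 := n_odd_count hr hA0 (h b le_rfl (by omega)) n ((N : ℝ) + 1) (by positivity) hn.le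
    have h3 := ih (b + 1) (N / 2) (fun b' hb1 hb2 => h b' (by omega) (by omega))
    have h4 : ((N / 2 : ℕ) : ℝ) ≤ (N : ℝ) / 2 := Nat.cast_div_le
    have h5 : (fun n => Q (2 ^ b * (2 * n))) = (fun n => Q (2 ^ (b + 1) * n)) := by
      funext n
      rw [pow_succ, mul_assoc]
    rw [h5] at h1
    have h6 : ((N / 2 : ℕ) : ℝ) / 2 ^ b0 ≤ (N : ℝ) / 2 ^ (b0 + 1) := by
      rw [pow_succ, mul_comm ((2 : ℝ) ^ b0) 2, ← div_div]
      exact div_le_div_of_nonneg_right h4 (by positivity)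
    have h7 : r * ((N / 2 : ℕ) : ℝ) ≤ r * ((N : ℝ) / 2) := mul_le_mul_of_nonneg_left h4 hr
    push_cast
    linarith

/-! ### even starts -/

lemma Tn_two_mul (n : ℕ) : Tn (2 * n) = n := by
  unfold Tn
  rw [if_pos (by omega)]
  omega

lemma Tn_pow (b : ℕ) : ∀ m j : ℕ, j ≤ b → Tn^[j] (2 ^ b * m) = 2 ^ (b - j) * m := by
  induction b with
  | zero =>
    intro m j hj
    rw [Nat.le_zero.1 hj]
    simp
  | succ b ih =>
    intro m j hj
    rcases j with _ | j
    · simp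
    · rw [Function.iterate_succ_apply, show 2 ^ (b + 1) * m = 2 * (2 ^ b * m) by rw [pow_succ]; ring, Tn_two_mul, ih m j (by omega),
        show b + 1 - (j + 1) = b - j by omega]

lemma Tn_pow_add (b m j : ℕ) : Tn^[b + j] (2 ^ b * m) = Tn^[j] m := by
  rw [Nat.add_comm b j, Function.iterate_add_apply, Tn_pow b m b le_rfl, Nat.sub_self, pow_zero, one_mul]

lemma Bas_pow {b m : ℕ} (h : Bas (2 ^ b * m)) (hm : 1 ≤ m) : Bas m := by
  obtain ⟨k, hk⟩ := h
  rcases le_total b k with h1 | h1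
  · obtain ⟨i, rfl⟩ : ∃ i, k = b + i := ⟨k - b, by omega⟩
    rw [Tn_pow_add] at hk
    exact ⟨i, hk⟩
  · rw [Tn_pow b m k h1] at hk
    have h2 : m = 1 := Nat.eq_one_of_mul_eq_one_left hk
    exact ⟨0, h2⟩

lemma TST_pow {b m t : ℕ} (hm : 1 ≤ m) (h : TST m t) : TST (2 ^ b * m) (b + t) := by
  constructor
  · rw [Tn_pow_add]
    exact h.1
  · intro j hj
    rcases lt_or_ge j b with h1 | h1
    · rw [Tn_pow b m j h1.le]
      have h2 : 2 ≤ 2 ^ (b - j) := by
        calc 2 = 2 ^ 1 := by norm_num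
          _ ≤ 2 ^ (b - j) := Nat.pow_le_pow_right (by norm_num) (by omega)
      nlinarith
    · obtain ⟨i, rfl⟩ : ∃ i, j = b + i := ⟨j - b, by omega⟩
      rw [Tn_pow_add]
      exact h.2 i (by omega)

lemma st_pow {b m : ℕ} (hm : 1 ≤ m) (h : Bas m) : st (2 ^ b * m) = b + st m :=
  st_eq (TST_pow hm (st_spec h))

lemma dn_abs (j n : ℕ) : |dn j n| ≤ j := dv_abs j n

lemma dn_lip (i j n : ℕ) (h : i ≤ j) : |dn j n - dn i n| ≤ j - i := by
  obtain ⟨d, rfl⟩ : ∃ d, j = i + d := ⟨j - i, by omega⟩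
  rw [dn_add, add_sub_cancel_left]
  refine (dn_abs d _).trans ?_
  push_cast
  linarith

lemma dn_pow (b m i : ℕ) (hm : 1 ≤ m) : |dn (b + i) (2 ^ b * m) - dn i m| ≤ b := by
  rw [dn_add, Tn_pow b m b le_rfl, Nat.sub_self, pow_zero, one_mul, add_sub_cancel_right]
  exact dn_abs b _

/-- the increments agree -/
lemma dn_pow_sub (b m i j : ℕ) : dn (b + j) (2 ^ b * m) - dn (b + i) (2 ^ b * m) = dn j m - dn i m := by
  rw [dn_add, dn_add, Tn_pow b m b le_rfl, Nat.sub_self, pow_zero, one_mul]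
  ring

lemma pth_pow {b m : ℕ} (hm : 1 ≤ m) (h : Bas m) (j : ℕ) : |pth (2 ^ b * m) j - pth m j| ≤ 2 * b := by
  unfold pth
  rw [st_pow hm h]
  obtain ⟨t, ht⟩ : ∃ t, t = st m := ⟨_, rfl⟩
  rw [← ht]
  rcases le_or_gt (min j (b + t)) b with h1 | h1
  · have h2 := dn_abs (min j (b + t)) (2 ^ b * m)
    have h3 := dn_abs (min j t) m
    have h4 : min j t ≤ min j (b + t) := by omega
    have h5 : ((min j (b + t) : ℕ) : ℝ) ≤ b := by exact_mod_cast h1
    have h6 : ((min j t : ℕ) : ℝ) ≤ b := by exact_mod_cast h4.trans h1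
    have h7 := abs_sub (dn (min j (b + t)) (2 ^ b * m)) (dn (min j t) m)
    linarith
  · obtain ⟨i, hi⟩ : ∃ i, min j (b + t) = b + i := ⟨min j (b + t) - b, by omega⟩
    rw [hi]
    have h2 := dn_pow b m i hm
    have h3 : i ≤ min j t := by omega
    have h4 : min j t ≤ i + b := by omega
    have h5 := dn_lip i (min j t) m h3
    have h6 : ((min j t : ℕ) : ℝ) ≤ i + b := by exact_mod_cast h4
    have h7 : dn (b + i) (2 ^ b * m) - dn (min j t) m = (dn (b + i) (2 ^ b * m) - dn i m) - (dn (min j t) m - dn i m) := by ring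
    rw [h7]
    have h8 := abs_sub (dn (b + i) (2 ^ b * m) - dn i m) (dn (min j t) m - dn i m)
    linarith

end Pool.Agent.H60.IP
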