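import Pool.Agent.H60.IP.Err

/-!
# The parameters at a large scale
-/

set_option autoImplicit false

namespace Pool.Agent.H60.IP

open Pool.Agent.H320R2.PD Pool.Agent.H499R2.ND Pool.Agent.H46.CO Finset

open Pool.Agent.H319R2.Lln (mu)

lemma good_sum {k : ℕ} {a : ℝ} : ∀ {p : List ℕ}, Good k a p → |(p.sum : ℝ) - 2 * k * p.length| ≤ p.length * a := by
  intro p
  induction p with
  | nil => intro _; simp
  | cons T p ih =>
    intro h
    have h1 := h T (by simp)
    have h2 := ih fun T' hT' => h T' (by simp [hT'])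
    rw [List.sum_cons, List.length_cons, Nat.cast_add, Nat.cast_add, Nat.cast_one]
    have e : (T : ℝ) + p.sum - 2 * k * (p.length + 1) = (T - 2 * k) + (p.sum - 2 * k * p.length) := by ring
    rw [e]
    refine (abs_add_le _ _).trans ?_
    linarith

lemma log_sc {A : ℝ} (hA : 0 < A) (k : ℕ) (p : List ℕ) :
    Real.log (sc A k p) = Real.log A - (((p.sum : ℝ) - 2 * k * p.length) * Real.log 2 + 2 * k * p.length * mu) := by
  unfold sc
  rw [Real.log_div (by positivity) (by positivity), Real.log_mul (by positivity) (by positivity), Real.log_pow, Real.log_pow,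
    Pool.Agent.H319R2.Lln.mu_eq]
  push_cast
  ring

/-- the length of a stage -/
noncomputable def kap (η : ℝ) (J : ℕ) : ℝ := (1 - η) / (2 * mu * J)

theorem par_ex (η : ℝ) (hη : 0 < η) (hη1 : η ≤ 1 / 4) (J : ℕ) (hJ : 10 / η ≤ J) (N : ℕ) (hN : 20 ≤ N) (hNη : 10 / η ≤ N)
    (ε : ℝ) (hε : 0 < ε) : ∃ L0 : ℝ, ∀ A : ℝ, 0 < A → L0 ≤ Real.log A → ∀ k : ℕ, k = ⌊kap η J * Real.log A⌋₊ →
      Par A k (k / N) J ε ∧ (kap η J / 2 * Real.log A ≤ k ∧ (k : ℝ) ≤ kap η J * Real.log A) ∧
      (∀ p : List ℕ, p.length = J → Good k (k / N) p → Real.log (sc A k p) ≤ 2 * η * Real.log A) ∧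
      (∀ p : List ℕ, p.length ≤ J → Good k (k / N) p → 3 / 4 * η * Real.log A ≤ Real.log (sc A k p)) := by
  have hmu := mu_pos'
  have hmb := mu_bounds
  have hJ0 : (0 : ℝ) < J := lt_of_lt_of_le (by positivity) hJ
  have hNR : (20 : ℝ) ≤ N := by exact_mod_cast hN
  obtain ⟨κ, hκ⟩ : ∃ κ : ℝ, κ = kap η J := ⟨_, rfl⟩
  rw [← hκ]
  have hκJ : 2 * mu * J * κ = 1 - η := by
    rw [hκ]
    unfold kap
    field_simp
  have hκ0 : 0 < κ := by
    rw [hκ]
    unfold kap
    apply div_pos <;> [linarith; positivity]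
  have hηJ : 10 ≤ η * J := by
    rw [div_le_iff₀ hη] at hJ
    linarith
  have hηN : 10 ≤ η * N := by
    rw [div_le_iff₀ hη] at hNη
    linarith
  -- `0.28 J κ ≤ 1`
  have hκ1 : 0.28 * (J * κ) ≤ 1 := by
    have h1 : 0.28 * (J * κ) ≤ 2 * mu * (J * κ) := by
      apply mul_le_mul_of_nonneg_right _ (by positivity)
      linarith
    have h2 : 2 * mu * (J * κ) = 1 - η := by rw [← hκJ]; ring
    linarith
  have hκη : 2.8 * κ ≤ η := by
    have h1 : 0.28 * (10 * κ) ≤ 0.28 * ((η * J) * κ) := by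
      apply mul_le_mul_of_nonneg_left _ (by norm_num)
      exact mul_le_mul_of_nonneg_right hηJ hκ0.le
    have h2 : 0.28 * ((η * J) * κ) = η * (0.28 * (J * κ)) := by ring
    have h3 : η * (0.28 * (J * κ)) ≤ η * 1 := mul_le_mul_of_nonneg_left hκ1 hη.le
    linarith
  obtain ⟨C, hC, herr⟩ := err_th (κ / 4) (by positivity)
  refine ⟨4000 / η + 2 / κ + 8 / κ ^ 2 + 64 / (η * κ ^ 2) + 8 * C / (η * ε) + 400 * (N : ℝ) ^ 2 / (κ * ε) + J / η, ?_⟩
  intro A hA hLA k hk
  obtain ⟨t, ht⟩ : ∃ t : ℝ, t = Real.log A := ⟨_, rfl⟩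
  rw [← ht] at hLA hk ⊢
  have p1 : 0 ≤ 4000 / η := by positivity
  have p2 : 0 ≤ 2 / κ := by positivity
  have p3 : 0 ≤ 8 / κ ^ 2 := by positivity
  have p4 : 0 ≤ 64 / (η * κ ^ 2) := by positivity
  have p5 : 0 ≤ 8 * C / (η * ε) := by positivity
  have p6 : 0 ≤ 400 * (N : ℝ) ^ 2 / (κ * ε) := by positivity
  have p7 : 0 ≤ J / η := by positivity
  have q1 : 4000 ≤ η * t := by
    have : 4000 / η ≤ t := by linarith
    rw [div_le_iff₀ hη] at this
    linarith
  have q2 : 2 ≤ κ * t := by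
    have : 2 / κ ≤ t := by linarith
    rw [div_le_iff₀ hκ0] at this
    linarith
  have q3 : 8 ≤ κ ^ 2 * t := by
    have : 8 / κ ^ 2 ≤ t := by linarith
    rw [div_le_iff₀ (by positivity)] at this
    linarith
  have q4 : 64 ≤ η * κ ^ 2 * t := by
    have : 64 / (η * κ ^ 2) ≤ t := by linarith
    rw [div_le_iff₀ (by positivity)] at this
    linarith
  have q5 : 8 * C ≤ η * ε * t := by
    have : 8 * C / (η * ε) ≤ t := by linarith
    rw [div_le_iff₀ (by positivity)] at this
    linarith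
  have q6 : 400 * (N : ℝ) ^ 2 ≤ κ * ε * t := by
    have : 400 * (N : ℝ) ^ 2 / (κ * ε) ≤ t := by linarith
    rw [div_le_iff₀ (by positivity)] at this
    linarith
  have q7 : (J : ℝ) ≤ η * t := by
    have : J / η ≤ t := by linarith
    rw [div_le_iff₀ (by positivity)] at this
    linarith
  have ht0 : 0 < t := by
    by_contra hcon
    push Not at hcon
    have : η * t ≤ 0 := mul_nonpos_of_nonneg_of_nonpos hη.le hcon
    linarith
  have hk1 : (k : ℝ) ≤ κ * t := by rw [hk]; exact Nat.floor_le (by positivity)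
  have hk2 : κ / 2 * t ≤ k := by
    have : κ * t - 1 < k := by rw [hk]; exact Nat.sub_one_lt_floor _
    linarith
  have hk2' : κ * t - 1 ≤ k := by rw [hk]; exact (Nat.sub_one_lt_floor _).le
  have hkpos : (0 : ℝ) < k := lt_of_lt_of_le (by positivity) hk2
  have hk1N : 1 ≤ k := by
    have : 0 < k := by exact_mod_cast hkpos
    exact this
  have hN0 : (0 : ℝ) < N := by linarith
  have ha0 : (0 : ℝ) < k / N := by positivity
  have hak : (k : ℝ) / N ≤ k / 20 := div_le_div_of_nonneg_left hkpos.le (by norm_num) hNR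
  have hl2 := Real.log_two_lt_d9
  have hl2' := Real.log_two_gt_d9
  -- the deviation
  have hdev : ∀ p : List ℕ, p.length ≤ J → Good k (k / N) p →
      |((p.sum : ℝ) - 2 * k * p.length) * Real.log 2| ≤ η / 4 * t := by
    intro p hp hg
    have h1 := good_sum hg
    rw [abs_mul, abs_of_pos (by linarith : 0 < Real.log 2)]
    have h2 : (p.length : ℝ) * (k / N) ≤ J * (κ * t / N) := by
      apply mul_le_mul (by exact_mod_cast hp) _ ha0.le hJ0.le
      exact div_le_div_of_nonneg_right hk1 hN0.le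
    have h3 : J * (κ * t / N) ≤ η / 2.8 * t := by
      have h4 : J * (κ * t / N) = (J * κ) * t / N := by ring
      rw [h4, div_le_iff₀ hN0]
      have h5 : 2.8 * ((J * κ) * t) ≤ (η * N) * t := by
        apply le_trans _ (mul_le_mul_of_nonneg_right hηN ht0.le)
        have : 2.8 * (J * κ * t) = 10 * (0.28 * (J * κ)) * t := by ring
        rw [this]
        apply mul_le_mul_of_nonneg_right _ ht0.le
        linarith
      have h6 : η / 2.8 * t * N = (η * N * t) / 2.8 := by ring
      rw [h6, le_div_iff₀ (by norm_num)]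
      linarith
    have h7 : |(p.sum : ℝ) - 2 * k * p.length| ≤ η / 2.8 * t := h1.trans (h2.trans h3)
    calc |(p.sum : ℝ) - 2 * k * p.length| * Real.log 2 ≤ η / 2.8 * t * 0.7 :=
          mul_le_mul h7 (by linarith) (by linarith) (by positivity)
      _ = η / 4 * t := by ring
  have hlow : ∀ p : List ℕ, p.length ≤ J → Good k (k / N) p → 3 / 4 * η * t ≤ Real.log (sc A k p) := by
    intro p hp hg
    have h1 := abs_le.1 (hdev p hp hg)
    rw [log_sc hA, ← ht]
    have h2 : 2 * (k : ℝ) * p.length * mu ≤ (1 - η) * t := by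
      have h3 : (k : ℝ) * p.length ≤ (κ * t) * J := by
        apply mul_le_mul hk1 (by exact_mod_cast hp) (Nat.cast_nonneg _) (by positivity)
      calc 2 * (k : ℝ) * p.length * mu = 2 * mu * (k * p.length) := by ring
        _ ≤ 2 * mu * ((κ * t) * J) := mul_le_mul_of_nonneg_left h3 (by positivity)
        _ = (2 * mu * J * κ) * t := by ring
        _ = (1 - η) * t := by rw [hκJ]
    linarith
  have hup : ∀ p : List ℕ, p.length ≤ J → Good k (k / N) p → Real.log (sc A k p) ≤ 2 * t := by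
    intro p hp hg
    have h1 := abs_le.1 (hdev p hp hg)
    rw [log_sc hA, ← ht]
    have h2 : 0 ≤ 2 * (k : ℝ) * p.length * mu := by positivity
    have h3 : η / 4 * t ≤ 1 * t := mul_le_mul_of_nonneg_right (by linarith) ht0.le
    linarith
  refine ⟨⟨hA, hk1N, ha0, hak, ?_, ?_, ?_⟩, ⟨hk2, hk1⟩, ?_, hlow⟩
  · intro p hp hg
    have h1 := hlow p hp hg
    refine ⟨by linarith, ?_⟩
    have h2 : κ * t ≤ η / 2.8 * t := by
      apply mul_le_mul_of_nonneg_right _ ht0.le
      rw [le_div_iff₀ (by norm_num)]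
      linarith
    have h3 : η / 2.8 * t ≤ 3 / 8 * η * t := by
      have : η / 2.8 * t = (1 / 2.8) * (η * t) := by ring
      rw [this]
      have : 3 / 8 * η * t = 3 / 8 * (η * t) := by ring
      rw [this]
      apply mul_le_mul_of_nonneg_right _ (by positivity)
      norm_num
    linarith
  · intro p hp hg
    have h1 := hup p hp hg
    apply Real.sqrt_le_iff.2
    refine ⟨hkpos.le, ?_⟩
    have h2 : (κ / 2 * t) ^ 2 ≤ (k : ℝ) ^ 2 := pow_le_pow_left₀ (by positivity) hk2 2
    have h3 : (κ / 2 * t) ^ 2 = (κ ^ 2 * t) * t / 4 := by ring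
    have h4 : 8 * t ≤ (κ ^ 2 * t) * t := mul_le_mul_of_nonneg_right q3 ht0.le
    nlinarith
  · intro p hp hg m m' hm hm'
    have h1 := hlow p hp.le hg
    have h2 := hup p hp.le hg
    have hs := sc_pos hA k p
    have hl0 : 0 < Real.log (sc A k p) := by nlinarith
    have h3 := herr (sc A k p) hs (by linarith) (by
      have h4 : 1 / (κ / 4) ^ 2 = 16 / κ ^ 2 := by field_simp; norm_num
      rw [h4, div_le_iff₀ (by positivity)]
      have h5 : 3 / 4 * η * t * κ ^ 2 ≤ Real.log (sc A k p) * κ ^ 2 := mul_le_mul_of_nonneg_right h1 (by positivity)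
      nlinarith) k m m' hm (by
      have h6 : κ / 4 * Real.log (sc A k p) ≤ κ / 4 * (2 * t) := mul_le_mul_of_nonneg_left h2 (by positivity)
      linarith) (by
      have h7 : κ * t ≤ η / 2.8 * t := by
        apply mul_le_mul_of_nonneg_right _ ht0.le
        rw [le_div_iff₀ (by norm_num)]
        linarith
      have h8 : η / 2.8 * t ≤ 3 / 8 * η * t := by
        have : η / 2.8 * t = (1 / 2.8) * (η * t) := by ring
        rw [this]
        have : 3 / 8 * η * t = 3 / 8 * (η * t) := by ring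
        rw [this]
        apply mul_le_mul_of_nonneg_right _ (by positivity)
        norm_num
      linarith) hm'
    have h9 : C / Real.log (sc A k p) ≤ ε / 2 := by
      rw [div_le_iff₀ hl0]
      have h10 : ε / 2 * (3 / 4 * η * t) ≤ ε / 2 * Real.log (sc A k p) := mul_le_mul_of_nonneg_left h1 (by positivity)
      nlinarith
    have h11 : 3 * Real.exp (-((k / N : ℝ) ^ 2 / (32 * k))) ≤ ε / 2 := by
      have e1 : (k / N : ℝ) ^ 2 / (32 * k) = k / (32 * (N : ℝ) ^ 2) := by field_simp
      rw [e1]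
      have h12 := exp_neg_le_inv (x := (k : ℝ) / (32 * (N : ℝ) ^ 2)) (by positivity)
      have h13 : 1 / ((k : ℝ) / (32 * (N : ℝ) ^ 2)) ≤ ε / 6 := by
        rw [one_div_div, div_le_iff₀ hkpos]
        have h14 : ε / 6 * (κ / 2 * t) ≤ ε / 6 * k := mul_le_mul_of_nonneg_left hk2 (by positivity)
        nlinarith
      linarith
    linarith
  · intro p hp hg
    have h1 := abs_le.1 (hdev p hp.le hg)
    rw [log_sc hA, ← ht, hp]
    have h2 : (1 - η) * t - 2 * mu * J ≤ 2 * (k : ℝ) * J * mu := by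
      have h3 : 2 * mu * J * (κ * t - 1) ≤ 2 * mu * J * k := mul_le_mul_of_nonneg_left hk2' (by positivity)
      have h4 : 2 * mu * J * (κ * t - 1) = (2 * mu * J * κ) * t - 2 * mu * J := by ring
      rw [h4, hκJ] at h3
      linarith
    have h5 : 2 * mu * J ≤ 0.3 * J := mul_le_mul_of_nonneg_right (by linarith) hJ0.le
    rw [hp] at h1
    linarith

end Pool.Agent.H60.IP
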