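import Pool.Agent.H60.IP.Win
import Pool.Agent.H60.IP.Scl

/-!
# The choice of the parameters
-/

set_option autoImplicit false

namespace Pool.Agent.H60.IP

open Pool.Agent.H320R2.PD Pool.Agent.H499R2.ND Pool.Agent.H46.CO Finset Filter Topology

open Pool.Agent.H319R2.Lln (mu)

lemma ev_lin (c d : ℝ) {e : ℝ} (he : 0 < e) : ∃ T : ℝ, ∀ t : ℝ, T ≤ t → c * √t + d ≤ e * t := by
  refine ⟨(2 * |c| / e) ^ 2 + 2 * |d| / e, fun t ht => ?_⟩
  have h1 : 0 ≤ (2 * |c| / e) ^ 2 := sq_nonneg _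
  have h2 : 0 ≤ 2 * |d| / e := by positivity
  have ht0 : 0 ≤ t := by linarith
  have h3 : 2 * |c| / e ≤ √t := Real.le_sqrt_of_sq_le (by linarith)
  have h4 : 2 * |d| / e ≤ t := by linarith
  rw [div_le_iff₀ he] at h3 h4
  have h5 := Real.mul_self_sqrt ht0
  have h6 := Real.sqrt_nonneg t
  have h7 : c * √t ≤ |c| * √t := mul_le_mul_of_nonneg_right (le_abs_self c) h6
  have h8 : 2 * |c| * √t ≤ √t * e * √t := mul_le_mul_of_nonneg_right h3 h6
  have h9 : √t * e * √t = e * (√t * √t) := by ring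
  rw [h5] at h9
  have h10 := le_abs_self d
  linarith

lemma ev_sqrt (d : ℝ) {e : ℝ} (he : 0 < e) : ∃ T : ℝ, ∀ t : ℝ, T ≤ t → d ≤ e * √t := by
  refine ⟨(d / e) ^ 2, fun t ht => ?_⟩
  have h1 : d / e ≤ √t := Real.le_sqrt_of_sq_le ht
  rw [div_le_iff₀ he] at h1
  linarith

lemma kap_facts (η : ℝ) (hη : 0 < η) (hη1 : η ≤ 1 / 4) (J : ℕ) (hJ : 10 / η ≤ J) :
    0 < kap η J ∧ 2 * mu * J * kap η J = 1 - η ∧ 0.28 * (J * kap η J) ≤ 1 ∧ 2.8 * kap η J ≤ η := by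
  have hmu := mu_pos'
  have hmb := mu_bounds
  have hJ0 : (0 : ℝ) < J := lt_of_lt_of_le (by positivity) hJ
  obtain ⟨κ, hκ⟩ : ∃ κ : ℝ, κ = kap η J := ⟨_, rfl⟩
  rw [← hκ]
  have hκJ : 2 * mu * J * κ = 1 - η := by
    rw [hκ]
    unfold kap
    field_simp
  have hκ0 : 0 < κ := by
    rw [hκ]
    unfold kap
    apply div_pos <;> [linarith; positivity]
  have hηJ : 10 ≤ η * J := by
    rw [div_le_iff₀ hη] at hJ
    linarith
  have hκ1 : 0.28 * (J * κ) ≤ 1 := by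
    have h1 : 0.28 * (J * κ) ≤ 2 * mu * (J * κ) := by
      apply mul_le_mul_of_nonneg_right _ (by positivity)
      linarith
    have h2 : 2 * mu * (J * κ) = 1 - η := by rw [← hκJ]; ring
    linarith
  refine ⟨hκ0, hκJ, hκ1, ?_⟩
  have h1 : 0.28 * (10 * κ) ≤ 0.28 * ((η * J) * κ) := by
    apply mul_le_mul_of_nonneg_left _ (by norm_num)
    exact mul_le_mul_of_nonneg_right hηJ hκ0.le
  have h2 : 0.28 * ((η * J) * κ) = η * (0.28 * (J * κ)) := by ring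
  have h3 : η * (0.28 * (J * κ)) ≤ η * 1 := mul_le_mul_of_nonneg_left hκ1 hη.le
  linarith

lemma exp_neg_le_sq {x : ℝ} (hx : 0 < x) : Real.exp (-x) ≤ 2 / x ^ 2 := by
  have h1 := Real.quadratic_le_exp_of_nonneg hx.le
  rw [Real.exp_neg, inv_eq_one_div, div_le_div_iff₀ (Real.exp_pos x) (by positivity)]
  nlinarith

/-- the error of the oscillation of the random walk -/
lemma osc_err {e1 η ε t : ℝ} {L Λ : ℕ} (he : 0 < e1) (hη : 0 < η) (hη1 : η ≤ 1 / 4) (hηε : η ≤ ε * (e1 ^ 2 / 460) ^ 2 / 256)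
    (ht : 0 < t) (hΛ1 : 3 * η * t / mu ≤ Λ) (hΛ2 : (Λ : ℝ) ≤ 4 * η * t / mu) (hL : (L : ℝ) ≤ 2 * t / mu) :
    4 * ((L : ℝ) / Λ + 1) * Real.exp (-((e1 * √t / 2) ^ 2 / (4 * Λ))) ≤ ε / 16 := by
  have hmu := mu_pos'
  have hmb := mu_bounds
  obtain ⟨c, hc⟩ : ∃ c : ℝ, c = e1 ^ 2 / 460 := ⟨_, rfl⟩
  have hc0 : 0 < c := by rw [hc]; positivity
  rw [← hc] at hηε
  have hΛ0 : (0 : ℝ) < Λ := lt_of_lt_of_le (by positivity) hΛ1
  have h1 : c / η ≤ (e1 * √t / 2) ^ 2 / (4 * Λ) := by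
    rw [div_pow, mul_pow, Real.sq_sqrt ht.le, hc, div_le_div_iff₀ hη (by positivity)]
    rw [le_div_iff₀ hmu] at hΛ2
    have h2 : e1 ^ 2 / 460 * (4 * Λ) * mu ≤ e1 ^ 2 / 460 * 4 * (4 * η * t) := by
      have := mul_le_mul_of_nonneg_left hΛ2 (show 0 ≤ e1 ^ 2 / 460 * 4 by positivity)
      linarith
    have h3 : e1 ^ 2 / 460 * 4 * (4 * η * t) ≤ e1 ^ 2 * t / 2 ^ 2 * η * mu := by
      have h4 : 0 ≤ e1 ^ 2 * t * η := by positivity
      nlinarith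
    have h5 : e1 ^ 2 / 460 * (4 * Λ) * mu ≤ e1 ^ 2 * t / 2 ^ 2 * η * mu := h2.trans h3
    exact le_of_mul_le_mul_right h5 hmu
  have h2 : (L : ℝ) / Λ + 1 ≤ 1 / η := by
    have h3 : (L : ℝ) / Λ ≤ 2 / (3 * η) := by
      rw [div_le_div_iff₀ hΛ0 (by positivity)]
      rw [div_le_iff₀ hmu] at hΛ1
      rw [le_div_iff₀ hmu] at hL
      have h4 : (L : ℝ) * (3 * η) * mu ≤ 2 * Λ * mu := by nlinarith
      exact le_of_mul_le_mul_right h4 hmu
    have h5 : (1 : ℝ) ≤ 1 / (4 * η) := by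
      rw [le_div_iff₀ (by positivity)]
      linarith
    have h6 : 2 / (3 * η) + 1 / (4 * η) ≤ 1 / η := by
      have h7 : 2 / (3 * η) + 1 / (4 * η) = 11 / 12 * (1 / η) := by field_simp; norm_num
      rw [h7]
      have : 0 < 1 / η := by positivity
      linarith
    linarith
  have h3 : Real.exp (-((e1 * √t / 2) ^ 2 / (4 * Λ))) ≤ 2 * η ^ 2 / c ^ 2 := by
    have h4 : Real.exp (-((e1 * √t / 2) ^ 2 / (4 * Λ))) ≤ Real.exp (-(c / η)) := Real.exp_le_exp.2 (by linarith)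
    refine h4.trans ((exp_neg_le_sq (by positivity)).trans (le_of_eq ?_))
    field_simp
  calc 4 * ((L : ℝ) / Λ + 1) * Real.exp (-((e1 * √t / 2) ^ 2 / (4 * Λ))) ≤ 4 * (1 / η) * (2 * η ^ 2 / c ^ 2) := by
        apply mul_le_mul (by linarith) h3 (Real.exp_pos _).le (by positivity)
    _ = 8 * η / c ^ 2 := by field_simp; norm_num
    _ ≤ ε / 16 := by
        rw [div_le_iff₀ (by positivity)]
        nlinarith

lemma D_le {K e1 η t : ℝ} (hK : 4 ≤ K) (he : 0 < e1) (hη2 : η ≤ e1 ^ 2 / (8 * (160 * K) ^ 2)) (htp : 0 < t) :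
    160 * K * √(2 * η * t) ≤ e1 / 2 * √t := by
  have h1 : 2 * η * t ≤ (e1 / (320 * K) * √t) ^ 2 := by
    rw [mul_pow, Real.sq_sqrt htp.le]
    apply mul_le_mul_of_nonneg_right _ htp.le
    rw [le_div_iff₀ (by positivity)] at hη2
    rw [div_pow, le_div_iff₀ (by positivity)]
    nlinarith
  have h2 : √(2 * η * t) ≤ e1 / (320 * K) * √t := by
    rw [Real.sqrt_le_left (by positivity)]
    exact h1
  calc 160 * K * √(2 * η * t) ≤ 160 * K * (e1 / (320 * K) * √t) := mul_le_mul_of_nonneg_left h2 (by positivity)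
    _ = e1 / 2 * √t := by field_simp; norm_num

lemma JO_le {J J' k : ℕ} {κ t e1 ε a : ℝ} (he : 0 < e1) (hε : 0 < ε) (ht : 0 < t) (ha : a = e1 * √t) (hJ0 : (0 : ℝ) < J)
    (hJ'0 : (0 : ℝ) < J') (hJ'k : (J' : ℝ) ≤ 41 / 20 * k) (hk2 : (k : ℝ) ≤ κ * t) (hκ1 : 0.28 * (J * κ) ≤ 1)
    (hJ2 : 21600 / (e1 ^ 4 * ε) ≤ J) : J * (6 * Real.exp (-(a ^ 2 / (2 * J')))) ≤ ε / 8 := by
  have h1 : e1 ^ 2 * J / 15 ≤ a ^ 2 / (2 * J') := by
    rw [ha, mul_pow, Real.sq_sqrt ht.le, div_le_div_iff₀ (by norm_num) (by positivity)]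
    have h2 : (J' : ℝ) ≤ 41 / 20 * (κ * t) := hJ'k.trans (by linarith)
    have h3 : (J : ℝ) * (2 * J') ≤ J * (2 * (41 / 20 * (κ * t))) := mul_le_mul_of_nonneg_left (by linarith) hJ0.le
    have h4 : (J : ℝ) * (2 * (41 / 20 * (κ * t))) = 4.1 * (J * κ) * t := by ring
    have h5 : 4.1 * (J * κ) * t ≤ 15 * t := by
      apply mul_le_mul_of_nonneg_right _ ht.le
      linarith
    have h6 : (J : ℝ) * (2 * J') ≤ 15 * t := by linarith
    calc e1 ^ 2 * J * (2 * J') = e1 ^ 2 * (J * (2 * J')) := by ring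
      _ ≤ e1 ^ 2 * (15 * t) := mul_le_mul_of_nonneg_left h6 (by positivity)
      _ = e1 ^ 2 * t * 15 := by ring
  have h2 : Real.exp (-(a ^ 2 / (2 * J'))) ≤ 2 / (e1 ^ 2 * J / 15) ^ 2 :=
    (Real.exp_le_exp.2 (by linarith)).trans (exp_neg_le_sq (by positivity))
  have h3 : J * (6 * Real.exp (-(a ^ 2 / (2 * J')))) ≤ J * (6 * (2 / (e1 ^ 2 * J / 15) ^ 2)) := by
    apply mul_le_mul_of_nonneg_left _ hJ0.le
    linarith
  have h4 : J * (6 * (2 / (e1 ^ 2 * J / 15) ^ 2)) = 2700 / (e1 ^ 4 * J) := by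
    field_simp
    norm_num
  rw [h4] at h3
  refine h3.trans ?_
  rw [div_le_div_iff₀ (by positivity) (by norm_num)]
  rw [div_le_iff₀ (by positivity)] at hJ2
  linarith

lemma Jeps_le (J : ℕ) {ε : ℝ} (hε : 0 < ε) : ((J : ℝ) ^ 2 + 2 * J) * (ε / (16 * ((J : ℝ) + 1) ^ 2)) ≤ ε / 16 := by
  rw [← mul_div_assoc, div_le_div_iff₀ (by positivity) (by norm_num)]
  nlinarith

lemma coin_part {δ ε e1 η κ t a : ℝ} {k J L : ℕ} (hδ0 : 0 ≤ δ) (hδ1 : δ ≤ 1) (hε : 0 < ε) (hε1 : ε ≤ 1) (he1 : e1 = ε / 4)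
    (hη0 : 0 < η) (hη1 : η ≤ 1 / 4) (hη3 : η ≤ ε * (e1 ^ 2 / 460) ^ 2 / 256) (hκ0 : 0 < κ) (hκη : 2.8 * κ ≤ η)
    (htp : 0 < t) (ha : a = e1 * √t) (hk2 : (k : ℝ) ≤ κ * t) (hak : a ≤ k / 20 - 1) (hL2 : L * mu - t ≤ √t)
    (c6 : 2 ≤ ε / 2 * √t) (c8 : (1 + mu * J * e1) * √t + 2 * mu * J ≤ η * t) (c9 : 1 ≤ η * t) (c10 : √t ≤ t)
    (hkJ2 : (1 - η) * t - 2 * mu * J ≤ 2 * (k : ℝ) * J * mu)
    (hpL : ∀ p : List ℕ, p.length = J → Good k a p → p.sum ≤ L) (hLpos : 1 ≤ L) (𝒜 : Set (ℕ → ℝ)) :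
    (δ + ε / 16) * pr (TT k J L a 𝒜) k J [] ≤ δ * (np L (fun e => Nr L 𝒜 (ε * √t) (wk e)) / 2 ^ L) + 3 * (ε / 16) := by
  have hmu := mu_pos'
  have hmb := mu_bounds
  have he10 : 0 < e1 := by rw [he1]; positivity
  have hstp : 0 < √t := Real.sqrt_pos.2 htp
  have ha0 : 0 < a := by rw [ha]; positivity
  have hηt : 0 < η * t := by positivity
  obtain ⟨Λ, hΛ⟩ : ∃ Λ : ℕ, Λ = ⌊4 * η * t / mu⌋₊ := ⟨_, rfl⟩
  have hΛ2 : (Λ : ℝ) ≤ 4 * η * t / mu := by rw [hΛ]; exact Nat.floor_le (by positivity)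
  have hηmu : 1 ≤ η * t / mu := by
    rw [le_div_iff₀ hmu]
    linarith
  have hΛ1 : 3 * η * t / mu ≤ Λ := by
    have h1 : 4 * η * t / mu - 1 < Λ := by rw [hΛ]; exact Nat.sub_one_lt_floor _
    have h2 : 4 * η * t / mu = 3 * η * t / mu + η * t / mu := by ring
    linarith
  have h8 : η * t ≤ 3 * η * t / mu := by
    rw [le_div_iff₀ hmu]
    have h9 : η * t * mu ≤ η * t * 1 := mul_le_mul_of_nonneg_left (by linarith) hηt.le
    linarith
  have hΛN : 1 ≤ Λ := by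
    have h1 : (1 : ℝ) ≤ Λ := by linarith
    exact_mod_cast h1
  have hsum : ∀ p : List ℕ, p.length = J → Good k a p → |(p.sum : ℝ) - 2 * k * J| ≤ J * a := by
    intro p hp hg
    have := good_sum hg
    rw [hp] at this
    exact this
  have hcoin := coin (k := k) (r := J) (L := L) (Λ := Λ) (a := a) (b := a) ha0 (TT k J L a 𝒜) hLpos hΛN (by
    rintro p ⟨hp, hg, _⟩
    refine ⟨?_, hpL p hp hg, ?_⟩
    · intro T' hT'
      have h1 := (abs_le.1 (hg T' hT')).2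
      have h2 : (T' : ℝ) ≤ Λ := by
        refine le_trans ?_ hΛ1
        have h3 : (T' : ℝ) ≤ 41 / 20 * k := by linarith
        have h4 : 41 / 20 * (k : ℝ) ≤ 41 / 20 * (κ * t) := by linarith
        have h5 : 41 / 20 * (κ * t) ≤ η * t := by
          have h6 : 2.8 * κ * t ≤ η * t := mul_le_mul_of_nonneg_right hκη htp.le
          have h7 : 0 < κ * t := by positivity
          linarith
        linarith
      exact_mod_cast h2
    · have h1 := (abs_le.1 (hsum p hp hg)).1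
      have h2 : (L : ℝ) - p.sum ≤ Λ := by
        refine le_trans ?_ hΛ1
        rw [le_div_iff₀ hmu]
        have h3 : (2 * (k : ℝ) * J - J * a) * mu ≤ p.sum * mu := mul_le_mul_of_nonneg_right (by linarith) hmu.le
        have h4 : (2 * (k : ℝ) * J - J * a) * mu = 2 * k * J * mu - mu * J * e1 * √t := by rw [ha]; ring
        rw [h4] at h3
        linarith
      have h5 : (L : ℝ) ≤ p.sum + Λ := by linarith
      have h6 : L ≤ p.sum + Λ := by exact_mod_cast h5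
      omega) 𝒜 (by
    rintro p ⟨_, _, h⟩
    exact h)
  have hLt : (L : ℝ) ≤ 2 * t / mu := by
    rw [le_div_iff₀ hmu]
    linarith
  have herr := osc_err he10 hη0 hη1 hη3 htp hΛ1 hΛ2 hLt
  rw [← ha] at herr
  have h1 : np L (fun e => Nr L 𝒜 (a + a + 2) (wk e)) / 2 ^ L ≤ np L (fun e => Nr L 𝒜 (ε * √t) (wk e)) / 2 ^ L := by
    apply div_le_div_of_nonneg_right _ (by positivity)
    apply np_mono
    rintro e ⟨f, hf, h⟩
    refine ⟨f, hf, fun j hj => (h j hj).trans ?_⟩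
    rw [ha, he1]
    linarith
  have h2 : np L (fun e => Nr L 𝒜 (ε * √t) (wk e)) / 2 ^ L ≤ 1 := by
    rw [div_le_one (by positivity)]
    exact np_le _ _
  obtain ⟨q, hq⟩ : ∃ q : ℝ, q = np L (fun e => Nr L 𝒜 (ε * √t) (wk e)) / 2 ^ L := ⟨_, rfl⟩
  rw [← hq] at h1 h2 ⊢
  have hq0 : 0 ≤ q := by rw [hq]; exact div_nonneg (np_nonneg _ _) (by positivity)
  have h3 : pr (TT k J L a 𝒜) k J [] ≤ q + ε / 16 := by linarith
  refine (mul_le_mul_of_nonneg_left h3 (by positivity)).trans ?_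
  have h6 : δ * (ε / 16) ≤ 1 * (ε / 16) := mul_le_mul_of_nonneg_right hδ1 (by positivity)
  have h7 : ε / 16 * q ≤ ε / 16 * 1 := mul_le_mul_of_nonneg_left h2 (by positivity)
  have h8 : ε / 16 * (ε / 16) ≤ 1 * (ε / 16) := mul_le_mul_of_nonneg_right (by linarith) (by positivity)
  have h9 : (δ + ε / 16) * (q + ε / 16) = δ * q + δ * (ε / 16) + ε / 16 * q + ε / 16 * (ε / 16) := by ring
  rw [h9]
  linarith

/-- **one window, with the parameters** -/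
theorem window {δ : ℝ} (hδ0 : 0 ≤ δ) (hδ1 : δ ≤ 1) (hδ : Tendsto (fun X : ℝ => G Bz X / X) atTop (𝓝 δ)) {ε : ℝ} (hε : 0 < ε)
    (hε1 : ε ≤ 1) : ∃ A0 : ℝ, 1 < A0 ∧ ∀ A : ℝ, A0 ≤ A → ∀ L : ℕ, |L * mu - Real.log A| ≤ √(Real.log A) →
      (∀ 𝒜 : Set (ℕ → ℝ), PB {M : ℤ | 1 ≤ M ∧ Bas M.toNat ∧ pth M.toNat ∈ 𝒜} A 0
        (δ * (np L (fun e => Nr L 𝒜 (ε * √(Real.log A)) (wk e)) / 2 ^ L) + ε)) ∧
      PB {M : ℤ | 1 ≤ M ∧ Bas M.toNat ∧ ∃ j, L ≤ j ∧ j ≤ st M.toNat ∧ ε * √(Real.log A) < |dn j M.toNat - dn L M.toNat|} A 0 ε := by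
  have hmu := mu_pos'
  have hmb := mu_bounds
  obtain ⟨e1, he1⟩ : ∃ e1 : ℝ, e1 = ε / 4 := ⟨_, rfl⟩
  have he10 : 0 < e1 := by rw [he1]; positivity
  obtain ⟨C, hC, hall⟩ := all_scalesV
  obtain ⟨K, hK4, hKη⟩ := TG.exK hC (show 0 < ε / 8 by positivity)
  obtain ⟨y, hy, hy1000, hyη⟩ := TG.exy hC (show 0 < ε / 8 by positivity)
  obtain ⟨W, hW⟩ := before y
  obtain ⟨η, hη⟩ : ∃ η : ℝ, η = min (1 / 4) (min (e1 ^ 2 / (8 * (160 * K) ^ 2)) (ε * (e1 ^ 2 / 460) ^ 2 / 256)) := ⟨_, rfl⟩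
  have hη0 : 0 < η := by
    rw [hη]
    apply lt_min (by norm_num)
    apply lt_min <;> positivity
  have hη1 : η ≤ 1 / 4 := by rw [hη]; exact min_le_left _ _
  have hη2 : η ≤ e1 ^ 2 / (8 * (160 * K) ^ 2) := by rw [hη]; exact (min_le_right _ _).trans (min_le_left _ _)
  have hη3 : η ≤ ε * (e1 ^ 2 / 460) ^ 2 / 256 := by rw [hη]; exact (min_le_right _ _).trans (min_le_right _ _)
  obtain ⟨J, hJ⟩ := exists_nat_ge (10 / η + 21600 / (e1 ^ 4 * ε))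
  have hJ1 : 10 / η ≤ J := by
    have : 0 ≤ 21600 / (e1 ^ 4 * ε) := by positivity
    linarith
  have hJ2 : 21600 / (e1 ^ 4 * ε) ≤ J := by
    have : 0 ≤ 10 / η := by positivity
    linarith
  have hJ0 : (0 : ℝ) < J := lt_of_lt_of_le (by positivity) hJ1
  obtain ⟨N, hN⟩ := exists_nat_ge (10 / η + 20)
  have hN1 : 10 / η ≤ N := by linarith
  have hN2 : 20 ≤ N := by
    have h1 : 0 ≤ 10 / η := by positivity
    have : (20 : ℝ) ≤ N := by linarith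
    exact_mod_cast this
  have hN0 : (0 : ℝ) < N := by
    have : (20 : ℝ) ≤ N := by exact_mod_cast hN2
    linarith
  obtain ⟨ε₂, hε₂⟩ : ∃ ε₂ : ℝ, ε₂ = ε / (16 * ((J : ℝ) + 1) ^ 2) := ⟨_, rfl⟩
  have hε₂0 : 0 < ε₂ := by rw [hε₂]; positivity
  obtain ⟨L0, hL0⟩ := par_ex η hη0 hη1 J hJ1 N hN2 hN1 ε₂ hε₂0
  obtain ⟨Ac, hAc, hclass⟩ := class_Bz hδ (show 0 < ε / 16 by positivity)
  obtain ⟨hκ0, hκJ, hκ1, hκη⟩ := kap_facts η hη0 hη1 J hJ1
  obtain ⟨κ, hκ⟩ : ∃ κ : ℝ, κ = kap η J := ⟨_, rfl⟩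
  rw [← hκ] at hκ0 hκJ hκ1 hκη
  obtain ⟨T1, hT1⟩ := ev_lin e1 1 (show 0 < κ / 40 by positivity)
  obtain ⟨T2, hT2⟩ := ev_lin e1 0 (show 0 < κ / (2 * N) by positivity)
  obtain ⟨T3, hT3⟩ := ev_sqrt (W + 1) (show 0 < e1 / 2 by positivity)
  obtain ⟨T4, hT4⟩ := ev_lin 0 (Real.log (y / 2) + 1) (show 0 < 3 / 4 * η by positivity)
  obtain ⟨T5, hT5⟩ := ev_lin 0 (Real.log Ac) (show 0 < 3 / 4 * η by positivity)
  obtain ⟨T6, hT6⟩ := ev_sqrt 2 (show 0 < ε / 2 by positivity)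
  obtain ⟨T7, hT7⟩ := ev_lin (mu * J * e1 + 1) 0 hη0
  obtain ⟨T8, hT8⟩ := ev_lin (1 + mu * J * e1) (2 * mu * J) hη0
  obtain ⟨T9, hT9⟩ := ev_lin 0 1 (show 0 < η by positivity)
  obtain ⟨T10, hT10⟩ := ev_lin 1 0 (show (0 : ℝ) < 1 by norm_num)
  obtain ⟨T, hT⟩ : ∃ T : ℝ, T = |L0| + |T1| + |T2| + |T3| + |T4| + |T5| + |T6| + |T7| + |T8| + |T9| + |T10| + 1 := ⟨_, rfl⟩
  refine ⟨Real.exp T, ?_, ?_⟩
  · rw [← Real.exp_zero]
    apply Real.exp_lt_exp.2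
    rw [hT]
    positivity
  intro A hA L hL
  have hA0 : 0 < A := lt_of_lt_of_le (Real.exp_pos _) hA
  obtain ⟨t, ht⟩ : ∃ t : ℝ, t = Real.log A := ⟨_, rfl⟩
  have htT : T ≤ t := by
    rw [ht, Real.le_log_iff_exp_le hA0]
    exact hA
  rw [← ht] at hL ⊢
  have b0 := abs_nonneg L0
  have b1 := abs_nonneg T1
  have b2 := abs_nonneg T2
  have b3 := abs_nonneg T3
  have b4 := abs_nonneg T4
  have b5 := abs_nonneg T5
  have b6 := abs_nonneg T6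
  have b7 := abs_nonneg T7
  have b8 := abs_nonneg T8
  have b9 := abs_nonneg T9
  have b10 := abs_nonneg T10
  have htp : 0 < t := by linarith
  have c0 : L0 ≤ t := by linarith [le_abs_self L0]
  have c1 := hT1 t (by linarith [le_abs_self T1])
  have c2 := hT2 t (by linarith [le_abs_self T2])
  have c3 := hT3 t (by linarith [le_abs_self T3])
  have c4 := hT4 t (by linarith [le_abs_self T4])
  have c5 := hT5 t (by linarith [le_abs_self T5])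
  have c6 := hT6 t (by linarith [le_abs_self T6])
  have c7 := hT7 t (by linarith [le_abs_self T7])
  have c8 := hT8 t (by linarith [le_abs_self T8])
  have c9 := hT9 t (by linarith [le_abs_self T9])
  have c10 := hT10 t (by linarith [le_abs_self T10])
  rw [zero_mul, zero_add] at c4 c5 c9
  rw [add_zero] at c2 c7 c10
  rw [one_mul, one_mul] at c10
  obtain ⟨k, hk⟩ : ∃ k : ℕ, k = ⌊kap η J * Real.log A⌋₊ := ⟨_, rfl⟩
  obtain ⟨hPar, ⟨hk1, hk2⟩, hup, hlow⟩ := hL0 A hA0 (by rw [← ht]; exact c0) k hk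
  rw [← hκ, ← ht] at hk1 hk2
  rw [← ht] at hup hlow
  have hkN := hPar.hk
  have hkR : (1 : ℝ) ≤ k := by exact_mod_cast hkN
  have hst0 := Real.sqrt_nonneg t
  have hstp : 0 < √t := Real.sqrt_pos.2 htp
  obtain ⟨a, ha⟩ : ∃ a : ℝ, a = e1 * √t := ⟨_, rfl⟩
  have ha0 : 0 < a := by rw [ha]; positivity
  rw [← ha] at c1 c2
  have haG : a ≤ k / N := by
    refine c2.trans ?_
    rw [le_div_iff₀ hN0]
    have : κ / (2 * N) * t * N = κ / 2 * t := by field_simp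
    rw [this]
    exact hk1
  have hak : a ≤ k / 20 - 1 := by linarith
  obtain ⟨D, hD⟩ : ∃ D : ℝ, D = 160 * K * √(2 * η * t) := ⟨_, rfl⟩
  have hD0 : 0 ≤ D := by rw [hD]; positivity
  have hDle : D ≤ e1 / 2 * √t := by
    rw [hD]
    exact D_le hK4 he10 hη2 htp
  have hDa : D + W + 1 ≤ a := by rw [ha]; linarith
  obtain ⟨J', hJ'⟩ : ∃ J' : ℕ, J' = 41 * k / 20 := ⟨_, rfl⟩
  have hJ'1 : 1 ≤ J' := by omega
  have hJ'k : (J' : ℝ) ≤ 41 / 20 * k := by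
    have h1 : 20 * J' ≤ 41 * k := by omega
    have h2 : 20 * (J' : ℝ) ≤ 41 * k := by exact_mod_cast h1
    linarith
  have hJ'0 : (0 : ℝ) < J' := by exact_mod_cast hJ'1
  obtain ⟨δO, hδO⟩ : ∃ δO : ℝ, δO = 6 * Real.exp (-(a ^ 2 / (2 * J'))) := ⟨_, rfl⟩
  have hδO0 : 0 ≤ δO := by rw [hδO]; positivity
  have hJδO : J * δO ≤ ε / 8 := by
    rw [hδO]
    exact JO_le he10 hε htp ha hJ0 hJ'0 hJ'k hk2 hκ1 hJ2
  obtain ⟨δV, hδV⟩ : ∃ δV : ℝ, δV = ε / 8 := ⟨_, rfl⟩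
  have hJε : ((J : ℝ) ^ 2 + 2 * J) * ε₂ ≤ ε / 16 := by
    rw [hε₂]
    exact Jeps_le J hε
  have hPO : ∀ p : List ℕ, p.length < J → Good k (k / N) p → ∀ m : ℕ, (m : ℝ) ^ 2 ≤ Real.log (sc A k p) →
      PB (Out J' a) (sc A k p) m δO := by
    intro p hp hg m hm
    obtain ⟨g1, g2⟩ := hPar.big p hp.le hg
    rw [hδO]
    refine PB_out hJ'1 ha0.le (sc_pos hA0 k p) m ?_
    rw [hJ']
    exact small_pow rfl (sc_pos hA0 k p) g1 g2 hm
  have hPV : ∀ p : List ℕ, p.length = J → Good k (k / N) p → ∀ m : ℕ, (m : ℝ) ^ 2 ≤ Real.log (sc A k p) →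
      PB (Viol y D 0) (sc A k p) m δV := by
    intro p hp hg m hm
    have g1 := hup p hp hg
    have g2 := hlow p hp.le hg
    have hs := sc_pos hA0 k p
    have g3 : 0 < Real.log (sc A k p) := lt_of_lt_of_le (by positivity) g2
    have h1 := hall K (2 * η * t) y D hK4 hy hy1000 0 (sc A k p) (by
      rw [← Real.log_lt_log_iff (by positivity) hs]
      linarith) (by
      rw [abs_zero, zero_add, hD]
      apply mul_le_mul_of_nonneg_left _ (by positivity)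
      apply Real.sqrt_le_sqrt
      have h2 : √(2 * η * t * Real.log (sc A k p)) ≤ √(2 * η * t * (2 * η * t)) :=
        Real.sqrt_le_sqrt (mul_le_mul_of_nonneg_left g1 (by positivity))
      rw [Real.sqrt_mul_self (by positivity)] at h2
      exact h2) g1 m hm
    refine PB_mono hs ?_ h1
    have h4 : Real.log (sc A k p) / (2 * η * t) ≤ 1 := by
      rw [div_le_one (by positivity)]
      exact g1
    have h5 : 0 ≤ C * Real.exp (-(K ^ 2 / 32)) := by positivity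
    have h6 : C * Real.exp (-(K ^ 2 / 32)) * (Real.log (sc A k p) / (2 * η * t)) ≤ C * Real.exp (-(K ^ 2 / 32)) * 1 :=
      mul_le_mul_of_nonneg_left h4 h5
    rw [hδV]
    linarith
  have hPB : ∀ p : List ℕ, p.length = J → Good k (k / N) p → ∀ m : ℕ, (m : ℝ) ^ 2 ≤ Real.log (sc A k p) →
      PB Bz (sc A k p) m (δ + ε / 16) := by
    intro p hp hg m hm
    have g2 := hlow p hp.le hg
    have hs := sc_pos hA0 k p
    refine hclass (sc A k p) ?_ m hm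
    rw [← Real.log_le_log_iff hAc hs]
    linarith
  obtain ⟨w1, w2⟩ := win hPar hε₂0.le haG hak ha0.le hJ' hD0 hDa hW hδO0 (by rw [hδV]; positivity)
    (show 0 ≤ δ + ε / 16 by positivity) hPO hPV hPB
  -- the sums
  obtain ⟨hL1, hL2⟩ := abs_le.1 hL
  have hsum : ∀ p : List ℕ, p.length = J → Good k a p → |(p.sum : ℝ) - 2 * k * J| ≤ J * a := by
    intro p hp hg
    have := good_sum hg
    rw [hp] at this
    exact this
  have hkJ1 : 2 * (k : ℝ) * J * mu ≤ (1 - η) * t := by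
    have h1 : 2 * (k : ℝ) * J * mu ≤ 2 * (κ * t) * J * mu := by
      apply mul_le_mul_of_nonneg_right _ hmu.le
      apply mul_le_mul_of_nonneg_right _ hJ0.le
      linarith
    have h2 : 2 * (κ * t) * J * mu = (2 * mu * J * κ) * t := by ring
    rw [h2, hκJ] at h1
    exact h1
  have hk3 : κ * t - 1 ≤ k := by
    rw [hk, ← hκ, ← ht]
    exact (Nat.sub_one_lt_floor _).le
  have hkJ2 : (1 - η) * t - 2 * mu * J ≤ 2 * (k : ℝ) * J * mu := by
    have h3 : 2 * mu * J * (κ * t - 1) ≤ 2 * mu * J * k := mul_le_mul_of_nonneg_left hk3 (by positivity)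
    have h4 : 2 * mu * J * (κ * t - 1) = (2 * mu * J * κ) * t - 2 * mu * J := by ring
    rw [h4, hκJ] at h3
    linarith
  have hpL : ∀ p : List ℕ, p.length = J → Good k a p → p.sum ≤ L := by
    intro p hp hg
    have h1 := (abs_le.1 (hsum p hp hg)).2
    have h2 : (p.sum : ℝ) * mu ≤ L * mu := by
      have h3 : (p.sum : ℝ) * mu ≤ (2 * k * J + J * a) * mu := mul_le_mul_of_nonneg_right (by linarith) hmu.le
      have h4 : (2 * (k : ℝ) * J + J * a) * mu = 2 * k * J * mu + mu * J * e1 * √t := by rw [ha]; ring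
      rw [h4] at h3
      linarith
    have h5 : (p.sum : ℝ) ≤ L := le_of_mul_le_mul_right h2 hmu
    exact_mod_cast h5
  have hLpos : 1 ≤ L := by
    have h3 : η * t ≤ 1 / 4 * t := mul_le_mul_of_nonneg_right hη1 htp.le
    have h4 : 0 ≤ mu * J * e1 * √t := by positivity
    have h2 : √t < t := by linarith
    have h1 : 0 < (L : ℝ) * mu := by linarith
    have h2 : (0 : ℝ) < L := pos_of_mul_pos_left h1 hmu.le
    exact_mod_cast h2
  constructor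
  · intro 𝒜
    refine PB_mono hA0 ?_ (w1 L 𝒜)
    have h1 := coin_part hδ0 hδ1 hε hε1 he1 hη0 hη1 hη3 hκ0 hκη htp ha hk2 hak hL2 c6 c8 c9 c10 hkJ2 hpL hLpos 𝒜
    rw [hδV]
    linarith
  · refine PB_mono hA0 ?_ (PB_sub ?_ (w2 L hpL))
    · rw [hδV]
      linarith
    · rintro M _ _ ⟨hM1, hB, j, hj1, hj2, hj3⟩
      refine ⟨hM1, hB, j, hj1, hj2, lt_of_le_of_lt ?_ hj3⟩
      rw [ha, he1]
      have : 0 ≤ ε * √t := by positivity
      linarith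

end Pool.Agent.H60.IP
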