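import Pool.Agent.H60.IP.Coin

/-!
# One window: the law of the whole path
-/

set_option autoImplicit false

namespace Pool.Agent.H60.IP

open Pool.Agent.H320R2.PD Pool.Agent.H499R2.ND Pool.Agent.H46.CO Finset Filter Topology

open Pool.Agent.H319R2.Lln (mu)

/-- the integers that reach `1` -/
def Bz : Set ℤ := NS Bas

/-- the total stopping time -/
noncomputable def st (n : ℕ) : ℕ := sInf {k | Tn^[k] n = 1}

/-- the walk of a trajectory, stopped at the total stopping time -/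
noncomputable def pth (n : ℕ) (j : ℕ) : ℝ := dn (min j (st n)) n

lemma st_spec {n : ℕ} (h : Bas n) : TST n (st n) := by
  refine ⟨Nat.sInf_mem h, fun j hj hj1 => ?_⟩
  exact absurd (Nat.sInf_le (show j ∈ {k | Tn^[k] n = 1} from hj1)) (by unfold st at hj; omega)

lemma st_eq {n t : ℕ} (h : TST n t) : st n = t := TST_unique (st_spec ⟨t, h.1⟩) h

/-- the density of the basin -/
lemma Bz_dens : ∃ δ : ℝ, 0 < δ ∧ δ ≤ 1 ∧ (δ = 1 ↔ ∀ n : ℕ, 1 ≤ n → Bas n) ∧ Dn Bas δ ∧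
    Tendsto (fun X : ℝ => G Bz X / X) atTop (𝓝 δ) := by
  obtain ⟨δ, h1, h2, h3, h4⟩ := Bas_density
  have hs : (1 : ℤ) = 1 ∨ (1 : ℤ) = -1 := Or.inl rfl
  obtain ⟨l, _, _, hl⟩ := dens_side odd_one isCoprime_one_left hs (NS_inv (P := Bas) fun n _ => Bas_inv n)
  have h5 : Dn Bas l := by
    refine (HD_ncard hs hl).congr fun N => ?_
    rw [NS_ncard]
    rfl
  have e : l = δ := tendsto_nhds_unique h5 h4
  refine ⟨δ, h1, h2, h3, h4, ?_⟩
  unfold HD at hl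
  rw [e] at hl
  refine hl.congr fun X => ?_
  unfold Bz
  simp only [one_mul]
  rfl

lemma Bz_AI : Pool.Agent.H499R2.LT.AI 1 ∅ Bz := fun x _ => NS_inv (P := Bas) (fun n _ => Bas_inv n) x

lemma SpW_empty : Pool.Agent.H499R2.LT.SpW ∅ := by
  intro B
  refine ⟨0, le_rfl, fun A hA _ => ⟨fun m _ u v _ => ?_, ?_⟩⟩
  · have : cls ∅ A (2 * A) m u v = ∅ := by
      ext x
      rw [mem_cls]
      simp
    rw [this]
    simp
  · have : wc ∅ A (2 * A) 1 0 = ∅ := by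
      ext x
      rw [mem_wc]
      simp
    rw [this]
    simp

lemma class_Bz {δ : ℝ} (hδ : Tendsto (fun X : ℝ => G Bz X / X) atTop (𝓝 δ)) {ε : ℝ} (hε : 0 < ε) :
    ∃ A0 : ℝ, 0 < A0 ∧ ∀ A : ℝ, A0 ≤ A → ∀ m : ℕ, (m : ℝ) ^ 2 ≤ Real.log A → PB Bz A m (δ + ε) :=
  Pool.Agent.H499R2.LT.class_bound_AI odd_one isCoprime_one_left (fun x hx => absurd hx (Set.notMem_empty x)) SpW_empty
    Bz_AI hδ hε

lemma PB_biUnion {ι : Type} (s : Finset ι) (S : ι → Set ℤ) {A : ℝ} (m : ℕ) (ρ : ι → ℝ)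
    (h : ∀ i ∈ s, PB (S i) A m (ρ i)) : PB {x | ∃ i ∈ s, x ∈ S i} A m (∑ i ∈ s, ρ i) := by
  classical
  induction s using Finset.induction_on with
  | empty =>
    intro u v _
    have : cls {x : ℤ | ∃ i ∈ (∅ : Finset ι), x ∈ S i} A (2 * A) m u v = ∅ := by
      ext x
      rw [mem_cls]
      simp
    rw [this]
    simp
  | insert i s hi ih =>
    rw [sum_insert hi]
    refine PB_sub ?_ (PB_union (h i (mem_insert_self i s)) (ih fun j hj => h j (mem_insert_of_mem hj)))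
    rintro x _ _ ⟨j, hj, hx⟩
    rw [mem_insert] at hj
    rcases hj with rfl | hj
    · exact Or.inl hx
    · exact Or.inr ⟨j, hj, hx⟩

lemma Tn_one_orbit (j : ℕ) : Tn^[j] 1 = 1 ∨ Tn^[j] 1 = 2 := by
  induction j with
  | zero => exact Or.inl rfl
  | succ j ih =>
    rw [Function.iterate_succ_apply']
    rcases ih with h | h
    · rw [h]
      right
      rfl
    · rw [h]
      left
      rfl

/-- the deterministic part -/
theorem det {k J' : ℕ} {a y D : ℝ} {W : ℕ} (ha : a ≤ k / 20 - 1) (ha0 : 0 ≤ a) (hJ' : J' = 41 * k / 20) (hD : 0 ≤ D)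
    (hDa : D + W + 1 ≤ a)
    (hW : ∀ (n t : ℕ) (D : ℝ), 1 ≤ n → 0 ≤ D → TST n t → ((n : ℕ) : ℤ) ∉ Viol y D 0 → ∀ j ≤ t, |dn j n| ≤ D + W + 1)
    {n : ℕ} (hn : Odd n) (hB : Bas n) {p : List ℕ} {x : ℤ} (hc : Ch k p n x) (hx1 : 1 < x)
    (hO : ∀ i < p.length, (n : ℤ) ∉ SS (Out J' a) Set.univ k i [])
    (hV : (n : ℤ) ∉ SS (Viol y D 0) Set.univ k p.length []) :
    (Good k a p ∧ ∀ T ∈ p, T ≤ J') ∧ p.sum ≤ st n ∧ (∀ j, |pth n j - cw k p j| ≤ a) ∧
      ∀ j, p.sum ≤ j → j ≤ st n → |dn j n - (2 * k * p.length - p.sum)| ≤ a := by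
  have hno : Odd (n : ℤ) := by exact_mod_cast hn
  have hn1 : 1 ≤ n := by
    rcases hn with ⟨b, hb⟩
    omega
  obtain ⟨h1, h2⟩ := path_close ha ha0 hJ' hno hc (by
    intro i hi z hz
    exact not_mem_bad (hO i hi) (p.take i) z (by rw [List.length_take]; omega) hz)
  obtain ⟨h3, h4⟩ := Ch_iter hno hc
  have hxV : x ∉ Viol y D 0 := not_mem_bad hV p x rfl hc
  have hxo : Odd x := Ch_odd hno hc
  obtain ⟨x', hx'⟩ : ∃ x' : ℕ, x = (x' : ℤ) := ⟨x.toNat, (Int.toNat_of_nonneg (by omega)).symm⟩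
  have hx'1 : 1 < x' := by rw [hx'] at hx1; exact_mod_cast hx1
  have hit : Tn^[p.sum] n = x' := by
    have h5 := Td_iter_cast p.sum n
    rw [h3, hx'] at h5
    exact_mod_cast h5.symm
  obtain ⟨t, ht⟩ : ∃ t, t = st n := ⟨_, rfl⟩
  have hT := st_spec hB
  rw [← ht] at hT ⊢
  have hpt : p.sum ≤ t := by
    by_contra hcon
    push Not at hcon
    obtain ⟨i, hi⟩ : ∃ i, p.sum = i + t := ⟨p.sum - t, by omega⟩
    rw [hi, Function.iterate_add_apply, hT.1] at hit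
    have hodd : Odd x' := by rw [hx'] at hxo; exact_mod_cast hxo
    rcases Tn_one_orbit i with h5 | h5
    · omega
    · rw [h5] at hit
      rw [← hit] at hodd
      exact absurd hodd (by decide)
  have hTx : TST x' (t - p.sum) := by
    constructor
    · rw [← hit, ← Function.iterate_add_apply, Nat.sub_add_cancel hpt]
      exact hT.1
    · intro j hj
      rw [← hit, ← Function.iterate_add_apply]
      exact hT.2 _ (by omega)
  have hend : ∀ j, p.sum ≤ j → j ≤ t → |dn j n - (2 * k * p.length - p.sum)| ≤ a := by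
    intro j hj1 hj2
    obtain ⟨i, rfl⟩ : ∃ i, j = p.sum + i := ⟨j - p.sum, by omega⟩
    have h5 := hW x' (t - p.sum) D hx'1.le hD hTx (by rw [← hx']; exact hxV) i (by omega)
    have h6 : dn p.sum n = 2 * k * p.length - p.sum := h4
    rw [dn_add, hit, h6, add_sub_cancel_left]
    linarith
  refine ⟨h1, hpt, ?_, hend⟩
  intro j
  unfold pth
  rw [← ht]
  rcases le_or_gt j p.sum with hj | hj
  · rw [min_eq_left (hj.trans hpt)]
    exact h2 j hj
  · rw [cw_end k p j hj.le]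
    exact hend _ (le_min hj.le hpt) (min_le_right _ _)

/-- the lists of sizes whose coarse path is near `𝒜` -/
def TT (k J L : ℕ) (a : ℝ) (𝒜 : Set (ℕ → ℝ)) : Set (List ℕ) :=
  {p | p.length = J ∧ Good k a p ∧ Nr L 𝒜 a (cw k p)}

/-- **one window** -/
theorem win {A : ℝ} {k J J' : ℕ} {a aG y D ε₂ δO δV δB : ℝ} {W : ℕ} (h : Par A k aG J ε₂) (hε : 0 ≤ ε₂) (haG : a ≤ aG)
    (ha : a ≤ k / 20 - 1) (ha0 : 0 ≤ a) (hJ' : J' = 41 * k / 20) (hD : 0 ≤ D) (hDa : D + W + 1 ≤ a)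
    (hW : ∀ (n t : ℕ) (D : ℝ), 1 ≤ n → 0 ≤ D → TST n t → ((n : ℕ) : ℤ) ∉ Viol y D 0 → ∀ j ≤ t, |dn j n| ≤ D + W + 1)
    (hδO : 0 ≤ δO) (hδV : 0 ≤ δV) (hδB : 0 ≤ δB)
    (hPO : ∀ p : List ℕ, p.length < J → Good k aG p → ∀ m : ℕ, (m : ℝ) ^ 2 ≤ Real.log (sc A k p) → PB (Out J' a) (sc A k p) m δO)
    (hPV : ∀ p : List ℕ, p.length = J → Good k aG p → ∀ m : ℕ, (m : ℝ) ^ 2 ≤ Real.log (sc A k p) → PB (Viol y D 0) (sc A k p) m δV)
    (hPB : ∀ p : List ℕ, p.length = J → Good k aG p → ∀ m : ℕ, (m : ℝ) ^ 2 ≤ Real.log (sc A k p) → PB Bz (sc A k p) m δB) :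
    (∀ (L : ℕ) (𝒜 : Set (ℕ → ℝ)), PB {M : ℤ | 1 ≤ M ∧ Bas M.toNat ∧ pth M.toNat ∈ 𝒜} A 0
      (δB * pr (TT k J L a 𝒜) k J [] + (J * δO + δV + (J ^ 2 + 2 * J) * ε₂))) ∧
    ∀ L : ℕ, (∀ p : List ℕ, p.length = J → Good k a p → p.sum ≤ L) →
      PB {M : ℤ | 1 ≤ M ∧ Bas M.toNat ∧ ∃ j, L ≤ j ∧ j ≤ st M.toNat ∧ 2 * a < |dn j M.toNat - dn L M.toNat|} A 0
        (J * δO + δV + (J ^ 2 + 2 * J) * ε₂) := by
  have hA := h.hA
  have hlogA : 0 ≤ Real.log A := by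
    have := (h.big [] (by simp) (Good.nil _ _)).1
    rw [sc_nil] at this
    linarith
  have hm0 : ((0 : ℕ) : ℝ) ^ 2 ≤ Real.log (sc A k []) := by
    rw [sc_nil]
    simpa using hlogA
  have hJ0 : (0 : ℝ) ≤ J := Nat.cast_nonneg J
  -- the bad sets
  obtain ⟨Bad, hBad⟩ : ∃ Bad : Set ℤ, Bad = {x | ∃ i ∈ range J, x ∈ SS (Out J' a) Set.univ k i []} ∪
    SS (Viol y D 0) Set.univ k J [] := ⟨_, rfl⟩
  have hPBad : PB Bad A 0 (J * δO + δV + (J ^ 2 + J) * ε₂) := by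
    have h1 : PB {x : ℤ | ∃ i ∈ range J, x ∈ SS (Out J' a) Set.univ k i []} A 0 (∑ i ∈ range J, (δO + i * ε₂)) := by
      apply PB_biUnion
      intro i hi
      rw [mem_range] at hi
      have h2 := comp h hε hδO (G := Out J' a) Set.univ (n := i) hi.le (by
        intro p hp hg m hm
        exact hPO p (by omega) hg m hm) i [] (by simp) (Good.nil _ _) 0 hm0
      rw [sc_nil] at h2
      refine PB_mono hA ?_ h2
      have := pr_le_one Set.univ k i []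
      nlinarith
    have h3 : PB (SS (Viol y D 0) Set.univ k J []) A 0 (δV + J * ε₂) := by
      have h2 := comp h hε hδV (G := Viol y D 0) Set.univ (n := J) le_rfl hPV J [] (by simp) (Good.nil _ _) 0 hm0
      rw [sc_nil] at h2
      refine PB_mono hA ?_ h2
      have := pr_le_one Set.univ k J []
      nlinarith
    rw [hBad]
    refine PB_mono hA ?_ (PB_union h1 h3)
    have h4 : ∑ i ∈ range J, (δO + i * ε₂) ≤ ∑ i ∈ range J, (δO + J * ε₂) := by
      apply sum_le_sum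
      intro i hi
      rw [mem_range] at hi
      have : (i : ℝ) ≤ J := by exact_mod_cast hi.le
      have h5 := mul_le_mul_of_nonneg_right this hε
      linarith
    rw [sum_const, card_range, nsmul_eq_mul] at h4
    nlinarith
  -- the consequence outside the bad sets
  have hkey : ∀ M : ℤ, A ≤ (M : ℝ) → 1 ≤ M → Odd M → Bas M.toNat → M ∉ Bad → ∀ (p : List ℕ) (x : ℤ), p.length = J → Ch k p M x →
      x ∈ Bz ∧ (Good k a p ∧ ∀ T ∈ p, T ≤ J') ∧ p.sum ≤ st M.toNat ∧ (∀ j, |pth M.toNat j - cw k p j| ≤ a) ∧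
      ∀ j, p.sum ≤ j → j ≤ st M.toNat → |dn j M.toNat - (2 * k * p.length - p.sum)| ≤ a := by
    intro M hAM hM1 hMo hB hnb p x hp hc
    obtain ⟨n, rfl⟩ : ∃ n : ℕ, M = (n : ℤ) := ⟨M.toNat, (Int.toNat_of_nonneg (by omega)).symm⟩
    rw [Int.toNat_natCast] at hB ⊢
    have hno : Odd n := by exact_mod_cast hMo
    rw [hBad] at hnb
    have hO : ∀ i < p.length, (n : ℤ) ∉ SS (Out J' a) Set.univ k i [] := by
      intro i hi hmem
      exact hnb (Or.inl ⟨i, mem_range.2 (by omega), hmem⟩)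
    have hV : (n : ℤ) ∉ SS (Viol y D 0) Set.univ k p.length [] := by
      rw [hp]
      exact fun hmem => hnb (Or.inr hmem)
    -- the size of `x`
    have hgood := path_close ha ha0 hJ' hMo hc (by
      intro i hi z hz
      exact not_mem_bad (hO i hi) (p.take i) z (by rw [List.length_take]; omega) hz)
    have hgG : Good k aG p := fun T hT => (hgood.1.1 T hT).trans haG
    have hbig := (h.big p hp.le hgG).1
    have hxsc : sc A k p ≤ x := by
      have h1 := Ch_size hc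
      have h2 : (3 : ℝ) ^ (k * p.length) * (n : ℝ) ≤ 2 ^ p.sum * (x : ℝ) := by exact_mod_cast h1
      unfold sc
      rw [div_le_iff₀ (by positivity)]
      have h3 : A * 3 ^ (k * p.length) ≤ (3 : ℝ) ^ (k * p.length) * (n : ℝ) := by
        rw [mul_comm]
        apply mul_le_mul_of_nonneg_left _ (by positivity)
        exact_mod_cast hAM
      linarith
    have hx1 : 1 < x := by
      have h1 : (1 : ℝ) < sc A k p := by
        rw [← Real.log_pos_iff (sc_pos hA k p).le]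
        linarith
      have h2 : (1 : ℝ) < x := lt_of_lt_of_le h1 hxsc
      exact_mod_cast h2
    have hd := det ha ha0 hJ' hD hDa hW hno hB hc hx1 hO hV
    refine ⟨?_, hd⟩
    -- `x` is in the basin
    obtain ⟨h3, _⟩ := Ch_iter hMo hc
    have hit : ((Tn^[p.sum] n : ℕ) : ℤ) = x := by rw [← Td_iter_cast, h3]
    refine ⟨by omega, ?_⟩
    rw [← hit, Int.toNat_natCast]
    obtain ⟨t, ht⟩ := hB
    have hst := hd.2.1
    have hTs := st_spec ⟨t, ht⟩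
    refine ⟨st n - p.sum, ?_⟩
    rw [← Function.iterate_add_apply, Nat.sub_add_cancel hst]
    exact hTs.1
  constructor
  · intro L 𝒜
    have h2 := comp h hε hδB (G := Bz) (TT k J L a 𝒜) (n := J) le_rfl hPB J [] (by simp) (Good.nil _ _) 0 hm0
    rw [sc_nil] at h2
    -- odd integers
    have h3 := PB_union h2 hPBad
    have h4 : PB ({M : ℤ | 1 ≤ M ∧ Bas M.toNat ∧ pth M.toNat ∈ 𝒜} ∩ {M | Odd M}) A 0
        (δB * pr (TT k J L a 𝒜) k J [] + J * ε₂ + (J * δO + δV + (J ^ 2 + J) * ε₂)) := by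
      refine PB_sub ?_ h3
      rintro M hAM _ ⟨⟨hM1, hB, hp⟩, hMo⟩
      by_cases hb : M ∈ Bad
      · exact Or.inr hb
      left
      apply mem_SS
      intro p x hpl hc
      obtain ⟨g1, g2, g3, g4, g5⟩ := hkey M hAM hM1 hMo hB hb p x hpl hc
      rw [List.nil_append]
      refine ⟨⟨hpl, g2.1, pth M.toNat, hp, fun j _ => g4 j⟩, g1⟩
    intro u v hu
    have h5 := h4 u v hu
    have hsub : cls {M : ℤ | 1 ≤ M ∧ Bas M.toNat ∧ pth M.toNat ∈ 𝒜} A (2 * A) 0 u v ⊆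
        cls ({M : ℤ | 1 ≤ M ∧ Bas M.toNat ∧ pth M.toNat ∈ 𝒜} ∩ {M | Odd M}) A (2 * A) 0 u v := by
      intro x hx
      rw [mem_cls] at hx ⊢
      exact ⟨hx.1, hx.2.1, ⟨hx.2.2.1, hx.2.1⟩, hx.2.2.2⟩
    have h6 : ((cls {M : ℤ | 1 ≤ M ∧ Bas M.toNat ∧ pth M.toNat ∈ 𝒜} A (2 * A) 0 u v).card : ℝ) ≤
        (cls ({M : ℤ | 1 ≤ M ∧ Bas M.toNat ∧ pth M.toNat ∈ 𝒜} ∩ {M | Odd M}) A (2 * A) 0 u v).card := by
      exact_mod_cast card_le_card hsub
    refine h6.trans (h5.trans (le_of_eq ?_))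
    congr 1
    ring
  · intro L hL
    have h4 : PB ({M : ℤ | 1 ≤ M ∧ Bas M.toNat ∧ ∃ j, L ≤ j ∧ j ≤ st M.toNat ∧ 2 * a < |dn j M.toNat - dn L M.toNat|} ∩ {M | Odd M}) A 0
        (J * δO + δV + (J ^ 2 + J) * ε₂) := by
      refine PB_sub ?_ hPBad
      rintro M hAM _ ⟨⟨hM1, hB, j, hj1, hj2, hj3⟩, hMo⟩
      by_contra hb
      obtain ⟨p, x, hpl, hc, _⟩ := Ch_exists k J M hMo (by omega)
      obtain ⟨g1, g2, g3, g4, g5⟩ := hkey M hAM hM1 hMo hB hb p x hpl hc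
      have hpL := hL p hpl g2.1
      have h5 := g5 j (hpL.trans hj1) hj2
      have h6 := g5 L hpL (hj1.trans hj2)
      have h7 : dn j M.toNat - dn L M.toNat = (dn j M.toNat - (2 * k * p.length - p.sum)) -
        (dn L M.toNat - (2 * k * p.length - p.sum)) := by ring
      rw [h7] at hj3
      have h8 := abs_sub (dn j M.toNat - (2 * k * p.length - p.sum)) (dn L M.toNat - (2 * k * p.length - p.sum))
      linarith
    intro u v hu
    have h5 := h4 u v hu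
    have hsub : cls {M : ℤ | 1 ≤ M ∧ Bas M.toNat ∧ ∃ j, L ≤ j ∧ j ≤ st M.toNat ∧ 2 * a < |dn j M.toNat - dn L M.toNat|} A (2 * A) 0 u v ⊆
        cls ({M : ℤ | 1 ≤ M ∧ Bas M.toNat ∧ ∃ j, L ≤ j ∧ j ≤ st M.toNat ∧ 2 * a < |dn j M.toNat - dn L M.toNat|} ∩ {M | Odd M}) A (2 * A) 0 u v := by
      intro x hx
      rw [mem_cls] at hx ⊢
      exact ⟨hx.1, hx.2.1, ⟨hx.2.2.1, hx.2.1⟩, hx.2.2.2⟩
    have h6 : ((cls {M : ℤ | 1 ≤ M ∧ Bas M.toNat ∧ ∃ j, L ≤ j ∧ j ≤ st M.toNat ∧ 2 * a < |dn j M.toNat - dn L M.toNat|} A (2 * A) 0 u v).card : ℝ) ≤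
        (cls ({M : ℤ | 1 ≤ M ∧ Bas M.toNat ∧ ∃ j, L ≤ j ∧ j ≤ st M.toNat ∧ 2 * a < |dn j M.toNat - dn L M.toNat|} ∩ {M | Odd M}) A (2 * A) 0 u v).card := by
      exact_mod_cast card_le_card hsub
    refine h6.trans (h5.trans ?_)
    apply mul_le_mul_of_nonneg_right _ (by positivity)
    nlinarith

end Pool.Agent.H60.IP
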